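import Pool.Agent.MP_2a1f0e_nt.GM4.Basic
import Pool.Agent.MP_2a1f0e_nt.GM3.BB3

set_option autoImplicit false

open Finset

namespace Pool.Agent.MP_2a1f0e_nt.GM4

open GM GM2 GM3

lemma far_BB4 (D : Finset ℤ) (a b : ℤ → ℝ) (w : ℤ → ℤ → ℝ) (W : ℝ) (hW : 0 ≤ W)
    (h : ∑ r ∈ D, ∑ s ∈ D, w r s ^ 2 ≤ W ^ 2) :
    ∑ r ∈ D, ∑ s ∈ D, a r * b s * w r s ≤ √(∑ r ∈ D, a r ^ 2) * √(∑ r ∈ D, b r ^ 2) * W := by
  have h0 : 0 ≤ ∑ r ∈ D, a r ^ 2 := sum_nonneg fun _ _ => sq_nonneg _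
  have h0' : 0 ≤ ∑ r ∈ D, b r ^ 2 := sum_nonneg fun _ _ => sq_nonneg _
  have h1 := sum_mul_sq_le_sq_mul_sq (D ×ˢ D) (fun p => a p.1 * b p.2) (fun p => w p.1 p.2)
  rw [sum_product, sum_product, sum_product] at h1
  have h2 : ∑ r ∈ D, ∑ s ∈ D, (a r * b s) ^ 2 = (∑ r ∈ D, a r ^ 2) * ∑ r ∈ D, b r ^ 2 := by
    rw [sum_mul_sum]
    exact sum_congr rfl fun r _ => sum_congr rfl fun s _ => by ring
  simp only at h1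
  rw [h2] at h1
  refine (le_abs_self _).trans (abs_le_of_sq_le_sq ?_ (by positivity))
  rw [mul_pow, mul_pow, Real.sq_sqrt h0, Real.sq_sqrt h0']
  exact h1.trans (mul_le_mul_of_nonneg_left h (mul_nonneg h0 h0'))

lemma near_BB4 {ι : Type*} (I : Finset ι) (D : Finset ℤ) (a b : ι → ℤ → ℝ) (s t : ℤ → ℝ)
    (G : ℝ) (hs : ∀ r, 0 ≤ s r) (ht : ∀ r, 0 ≤ t r)
    (h : ∀ r ∈ D, ∑ i ∈ I, a i r ^ 2 ≤ G) (h' : ∀ r ∈ D, ∑ i ∈ I, b i r ^ 2 ≤ G) :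
    ∑ i ∈ I, ∑ r ∈ D, ∑ q ∈ D, a i r * b i q * (s r * t q) ≤
      G * ((∑ r ∈ D, s r) * ∑ q ∈ D, t q) := by
  rw [sum_comm, sum_mul_sum, mul_sum]
  refine sum_le_sum fun r hr => ?_
  rw [sum_comm, mul_sum]
  refine sum_le_sum fun q hq => ?_
  rw [← sum_mul]
  refine mul_le_mul_of_nonneg_right ?_ (mul_nonneg (hs r) (ht q))
  have h3 : ∑ i ∈ I, a i r * b i q ≤ ∑ i ∈ I, (a i r ^ 2 + b i q ^ 2) / 2 :=
    sum_le_sum fun i _ => by nlinarith [sq_nonneg (a i r - b i q)]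
  rw [← sum_div, sum_add_distrib] at h3
  linarith [h r hr, h' q hq]

lemma cs_BB4 {ι : Type*} (I : Finset ι) (f g : ι → ℝ) {Y₁ Y₂ : ℝ} (hf : ∀ i, 0 ≤ f i)
    (hg : ∀ i, 0 ≤ g i) (h1 : ∑ i ∈ I, f i ≤ Y₁) (h2 : ∑ i ∈ I, g i ≤ Y₂) :
    ∑ i ∈ I, √(f i) * √(g i) ≤ √Y₁ * √Y₂ := by
  refine (Real.sum_sqrt_mul_sqrt_le I hf hg).trans ?_
  gcongr

lemma peak_BB4 {c m : ℝ} (R : ℕ) {M : ℕ} (hc : 0 ≤ c) (hM : (M : ℝ) ≤ m) :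
    (∀ r : ℤ, 0 ≤ c * (M * kp r)) ∧ ∑ r ∈ Io R, c * (M * kp (r : ℝ)) ≤ c * M * 6 ∧
      ∑ r ∈ Io R, (c * (M * kp (r : ℝ))) ^ 2 ≤ c * m * (c * m * 6) := by
  have hM0 : (0 : ℝ) ≤ M := Nat.cast_nonneg _
  have hm : 0 ≤ m := hM0.trans hM
  have p0 : ∀ r : ℤ, 0 ≤ c * (M * kp r) := fun r => by
    have := kp_pos r
    positivity
  have p1 : ∑ r ∈ Io R, c * (M * kp (r : ℝ)) ≤ c * M * 6 := by
    rw [← mul_sum, ← mul_sum, mul_assoc]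
    exact mul_le_mul_of_nonneg_left (mul_le_mul_of_nonneg_left (sum_kp_KOne _) hM0) hc
  refine ⟨p0, p1, ?_⟩
  have p2 : c * M * 6 ≤ c * m * 6 := by gcongr
  refine le_trans ?_ (mul_le_mul_of_nonneg_left (p1.trans p2) (by positivity))
  rw [mul_sum]
  refine sum_le_sum fun r _ => ?_
  rw [sq]
  refine mul_le_mul_of_nonneg_right (mul_le_mul_of_nonneg_left ?_ hc) (p0 r)
  exact (mul_le_of_le_one_right hM0 (kp_le_one _)).trans hM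

lemma pow_J_BB4 {y lam : ℝ} {X : ℕ} (hy : 1 ≤ y) (hX : 729 * y ^ 30 ≤ X) (hl : 1 ≤ lam) :
    (3 * y ^ 5) ^ 2 ≤ 2 ^ (Nat.log 2 X + 1) * lam := by
  have h1 : (X : ℝ) < 2 ^ (Nat.log 2 X + 1) := by
    exact_mod_cast Nat.lt_pow_succ_log_self (b := 2) (by norm_num) X
  have h2 : y ^ 10 ≤ y ^ 30 := pow_le_pow_right₀ hy (by norm_num)
  have h3 : 0 ≤ y ^ 10 := by positivity
  have h4 : (3 * y ^ 5) ^ 2 = 9 * y ^ 10 := by ring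
  have h5 : (2 : ℝ) ^ (Nat.log 2 X + 1) ≤ 2 ^ (Nat.log 2 X + 1) * lam :=
    le_mul_of_one_le_right (by positivity) hl
  linarith

lemma root_BB4 {y : ℝ} (hy : 1 ≤ y) : ∃ z : ℝ, 1 ≤ z ∧ z ^ 30 = y ^ 5 ∧ z ^ 180 = y ^ 30 := by
  have h : (y ^ (((6 : ℕ) : ℝ)⁻¹)) ^ 6 = y := Real.rpow_inv_natCast_pow (by linarith) (by norm_num)
  obtain ⟨z, hz, e⟩ : ∃ z : ℝ, 1 ≤ z ∧ z ^ 6 = y :=
    ⟨_, Real.one_le_rpow hy (by positivity), h⟩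
  refine ⟨z, hz, ?_, ?_⟩
  · rw [← e]; ring
  · rw [← e]; ring

theorem bb4_stmt (hB : BilStmt) (h2 : GL4Stmt) (hG : Gam4Stmt) (hK : KKStmt) (hN : Near4Stmt)
    (hM : Mid3Stmt) (hF : Far4Stmt) : BB4Stmt := by
  obtain ⟨C2, hC2, h2⟩ := h2
  obtain ⟨CG, hCG, hG⟩ := hG
  obtain ⟨CK, -, hK⟩ := hK
  obtain ⟨Cn, hCn, hN⟩ := hN
  obtain ⟨CM, hCM, hM⟩ := hM
  obtain ⟨CF, hCF, hF⟩ := hF
  have hCn0 : 0 < Cn := by linarith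
  obtain ⟨E, hE0, hE⟩ : ∃ E : ℝ, 0 ≤ E ∧ E ^ 2 = CG * (12 * CM + CF) :=
    ⟨_, Real.sqrt_nonneg _, Real.sq_sqrt (by positivity)⟩
  have hA0 : 0 ≤ 4 * Cn * C2 + E * Cn := by positivity
  have hB0 : 0 ≤ (CG + 1) * (36 * Cn ^ 2) := by positivity
  refine ⟨4 * Cn * C2 + E * Cn + (CG + 1) * (36 * Cn ^ 2), ?_, ?_⟩
  · have h1 : 1 ≤ Cn ^ 2 := one_le_pow₀ hCn
    have h3 : 1 * 1 ≤ (CG + 1) * (36 * Cn ^ 2) := by gcongr <;> linarith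
    linarith
  intro y Δ R X hy hR hX hD hO M₁ M₂ a b κ σ z₀ z₁ Y₁ Y₂ G I u v hM₁ hM₁' hM₂ hM₂' hL hG0 hY₁ hY₂
    hGu hGv
  have hΔ : 1 ≤ Δ := hD.1
  have hΔ0 : 0 < Δ := by linarith
  have hy0 : 0 < y := by linarith
  have hab : 0 < a * b := mul_pos hL.1 hL.2.2.1
  obtain ⟨s, hs⟩ : ∃ s : ℝ, s = √(a * b) := ⟨_, rfl⟩
  have hs0 : 0 < s := hs ▸ Real.sqrt_pos.2 hab
  have hs2 : a * b = s ^ 2 := by rw [hs, Real.sq_sqrt hab.le]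
  obtain ⟨z, hz, hz30, hz180⟩ := root_BB4 hy
  have hy8 : 1 ≤ y ^ 8 := one_le_pow₀ hy
  have hlam : y ^ 8 ≤ Cn * Δ ^ 2 * y ^ 8 :=
    le_mul_of_one_le_left (by positivity) (one_le_mul_of_one_le_of_one_le hCn (one_le_pow₀ hΔ))
  have hJ : ((Nat.log 2 X + 1 : ℕ) : ℝ) + 1 ≤ 2 * Δ ^ 7 := by
    have := DivB_log hD le_rfl
    have : Δ ≤ Δ ^ 7 := le_self_pow₀ hΔ (by norm_num)
    push_cast
    linarith
  have hS := pow_J_BB4 hy hX (hy8.trans hlam)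
  have hG' : ∀ r q : ℝ, ‖Gam κ σ z₀ z₁ r q‖ ^ 2 * (1 + |r| + |q|) ≤ CG * s ^ 2 := fun r q => by
    rw [← hs2]
    exact hG a b κ σ z₀ z₁ hL r q
  have hgam : ∀ r q : ℝ, ‖Gam κ σ z₀ z₁ r q‖ ≤ (CG + 1) * s := fun r q => by
    have h3 : ‖Gam κ σ z₀ z₁ r q‖ ^ 2 ≤ ‖Gam κ σ z₀ z₁ r q‖ ^ 2 * (1 + |r| + |q|) :=
      le_mul_of_one_le_right (sq_nonneg _) (by linarith [abs_nonneg r, abs_nonneg q])
    refine (le_abs_self _).trans (abs_le_of_sq_le_sq (h3.trans ((hG' r q).trans ?_))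
      (by positivity))
    rw [mul_pow]
    refine mul_le_mul_of_nonneg_right ?_ (sq_nonneg _)
    nlinarith
  obtain ⟨p0, p1, p2⟩ := peak_BB4 (c := Cn * Δ) R (by positivity) hM₁'
  obtain ⟨q0, q1, q2⟩ := peak_BB4 (c := Cn * Δ) R (by positivity) hM₂'
  have hW : ∑ r ∈ Io R, ∑ q ∈ Io R,
      (if Cn * Δ ^ 2 * y ^ 8 < ‖KK M₁ (-(r : ℝ))‖ * ‖KK M₂ q‖ ∧
        ¬(‖KK M₁ (-(r : ℝ))‖ ≤ Cn * Δ * (M₁ * kp r) ∧ ‖KK M₂ q‖ ≤ Cn * Δ * (M₂ * kp q)) then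
        ‖KK M₁ (-(r : ℝ))‖ * ‖KK M₂ q‖ * ‖Gam κ σ z₀ z₁ r q‖ else 0) ^ 2 ≤
      (E * Cn * s * (Δ ^ 9 * y ^ 8)) ^ 2 := by
    have h1 := hF y (Cn * Δ ^ 2 * y ^ 8) Δ M₁ M₂ R X hy hM₁ hM₁' hM₂ hM₂' hR hX hD hlam
    have m2 := (hM z Δ M₂ R X hz hM₂ (hz30 ▸ hM₂') (hz180 ▸ hR) (hz180 ▸ hX) hD).1
    have m1 := (hM z Δ M₁ R X hz hM₁ (hz30 ▸ hM₁') (hz180 ▸ hR) (hz180 ▸ hX) hD).2
    rw [hz30] at m1 m2
    have h3 := mul_le_mul p2 m2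
      (sum_nonneg fun _ _ => by split_ifs <;> positivity) (by positivity)
    have h4 := mul_le_mul m1 q2 (sum_nonneg fun _ _ => sq_nonneg _) (by positivity)
    rw [sum_mul_sum] at h3 h4
    have h5 := mul_le_mul_of_nonneg_left (add_le_add (add_le_add h3 h4) h1)
      (show 0 ≤ CG * s ^ 2 by positivity)
    rw [← sum_add_distrib, ← sum_add_distrib, mul_sum] at h5
    refine le_trans (sum_le_sum fun r _ => ?_) (h5.trans ?_)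
    · rw [← sum_add_distrib, ← sum_add_distrib, mul_sum]
      refine sum_le_sum fun q _ => wsq_BB3 (norm_nonneg _) (norm_nonneg _) (abs_nonneg _)
        (abs_nonneg _) (hG' r q) fun h => ?_
      have e1 : Pk (Cn * Δ) M₁ (-(r : ℝ)) → ‖KK M₁ (-(r : ℝ))‖ ≤ Cn * Δ * (M₁ * kp r) :=
        fun h' => by
          rw [← kp_neg r]
          exact h'
      exact (hN y Δ hy hΔ hO M₁ M₂ hM₁ hM₁' hM₂ hM₂' r q h).imp (And.imp_left e1)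
        (Or.imp_left (And.imp_left e1))
    · have h6 : Δ ^ 17 ≤ Δ ^ 18 := pow_le_pow_right₀ hΔ (by norm_num)
      have h7 : Δ ^ 9 ≤ Δ ^ 18 := pow_le_pow_right₀ hΔ (by norm_num)
      have h8 : y ^ 15 ≤ y ^ 16 := pow_le_pow_right₀ hy (by norm_num)
      calc _ = CG * s ^ 2 * Cn ^ 2 * (12 * CM * (Δ ^ 9 * y ^ 15) + CF * (Δ ^ 17 * y ^ 16)) := by
            ring
        _ ≤ CG * s ^ 2 * Cn ^ 2 * (12 * CM * (Δ ^ 18 * y ^ 16) + CF * (Δ ^ 18 * y ^ 16)) := by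
            gcongr
        _ = E ^ 2 * (Cn * s * (Δ ^ 9 * y ^ 8)) ^ 2 := by rw [hE]; ring
        _ = _ := by ring
  have key : ∀ i ∈ I, ‖Bf2 R M₁ M₂ κ σ z₀ z₁ (u i) (v i)‖ ≤
      (4 * Cn * C2 + E * Cn) * (Δ ^ 9 * s * y ^ 8) *
        (√(N2 (Io R) (u i)) * √(N2 (Io R) (v i))) +
      (CG + 1) * s * ∑ r ∈ Io R, ∑ q ∈ Io R, ‖u i r‖ * ‖v i q‖ *
        (Cn * Δ * (M₁ * kp (r : ℝ)) * (Cn * Δ * (M₂ * kp (q : ℝ)))) := by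
    intro i _
    have h1 := hB (Io R) (u i) (fun ρ => (starRingEnd ℂ) (v i ρ)) (fun ρ => KK M₁ (-(ρ : ℝ)))
      (fun ρ => KK M₂ ρ) (fun ρ₁ ρ₂ => Gam κ σ z₀ z₁ ρ₁ ρ₂) (C2 * s) (Cn * Δ ^ 2 * y ^ 8)
      (3 * y ^ 5) (Nat.log 2 X + 1) (by positivity) (by positivity) (by positivity)
      (hs ▸ h2 a b κ σ z₀ z₁ hL (Io R))
      (fun ρ _ => (hK M₁ hM₁ _).2.trans (by linarith))
      (fun ρ _ => (hK M₂ hM₂ _).2.trans (by linarith)) hS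
    rw [N2_conj_BB, mul_assoc _ (√(N2 (Io R) (u i)))] at h1
    simp only [Complex.norm_conj] at h1
    have h3 := far_BB4 (Io R) (fun r => ‖u i r‖) (fun r => ‖v i r‖) _ _ (by positivity) hW
    have h4 := sum_le_sum (s := Io R) fun r _ => sum_le_sum (s := Io R) fun q _ =>
      split_BB3 (lam := Cn * Δ ^ 2 * y ^ 8) (s := ‖KK M₁ (-(r : ℝ))‖) (norm_nonneg (u i r))
        (norm_nonneg (v i q))
        (norm_nonneg (KK M₂ q)) (p0 r) (q0 q) (norm_nonneg _)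
        (hgam r q)
    simp only [sum_add_distrib, ← mul_sum _ _ ((CG + 1) * s)] at h4
    change _ ≤ √(N2 (Io R) (u i)) * √(N2 (Io R) (v i)) * _ at h3
    have hn : 0 ≤ √(N2 (Io R) (u i)) * √(N2 (Io R) (v i)) := by positivity
    generalize √(N2 (Io R) (u i)) * √(N2 (Io R) (v i)) = n at h1 h3 hn ⊢
    have h5 : 2 * (Cn * Δ ^ 2 * y ^ 8) * (((Nat.log 2 X + 1 : ℕ) : ℝ) + 1) * (C2 * s) * n ≤
        2 * (Cn * Δ ^ 2 * y ^ 8) * (2 * Δ ^ 7) * (C2 * s) * n := by gcongr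
    have h7 : ‖Bf2 R M₁ M₂ κ σ z₀ z₁ (u i) (v i)‖ ≤ _ := h1
    linarith
  have hnear := near_BB4 I (Io R) (fun i r => ‖u i r‖) (fun i r => ‖v i r‖) _ _ G p0 q0 hGu hGv
  have h9 := hnear.trans (mul_le_mul_of_nonneg_left
    (mul_le_mul p1 q1 (sum_nonneg fun r _ => q0 r) (by positivity)) hG0)
  have hY := cs_BB4 I (fun i => N2 (Io R) (u i)) (fun i => N2 (Io R) (v i))
    (fun _ => N2_nonneg _ _) (fun _ => N2_nonneg _ _) hY₁ hY₂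
  refine (sum_le_sum key).trans ?_
  rw [sum_add_distrib, ← mul_sum, ← mul_sum]
  have h10 := mul_le_mul_of_nonneg_left h9 (show 0 ≤ (CG + 1) * s by positivity)
  have h11 := mul_le_mul_of_nonneg_left hY
    (show 0 ≤ (4 * Cn * C2 + E * Cn) * (Δ ^ 9 * s * y ^ 8) by positivity)
  refine (add_le_add h11 h10).trans ?_
  have e8 : (y ^ 5) ^ 2 / y ^ 2 = y ^ 8 := by field_simp
  rw [e8, ← hs]
  have hY0 : 0 ≤ √Y₁ * √Y₂ := by positivity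
  generalize √Y₁ * √Y₂ = Y at hY0 ⊢
  have h29 : Δ ^ 2 ≤ Δ ^ 9 := pow_le_pow_right₀ hΔ (by norm_num)
  have h12 : 0 ≤ (4 * Cn * C2 + E * Cn) * (Δ ^ 9 * s * (M₁ * M₂ * G)) := by positivity
  have h13 : 0 ≤ (CG + 1) * (36 * Cn ^ 2) * (Δ ^ 9 * s * (y ^ 8 * Y)) := by positivity
  have h14 : (CG + 1) * (36 * Cn ^ 2) * (Δ ^ 2 * s * (M₁ * M₂ * G)) ≤
      (CG + 1) * (36 * Cn ^ 2) * (Δ ^ 9 * s * (M₁ * M₂ * G)) := by gcongr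
  linarith

end Pool.Agent.MP_2a1f0e_nt.GM4
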