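import Pool.Agent.MP_2a1f0e_nt.GM4.Defs

set_option autoImplicit false

open Finset

namespace Pool.Agent.MP_2a1f0e_nt.GM4

open GM GM2 GM3

lemma neg_pi_le : -Real.pi ≤ Real.pi := by linarith [Real.pi_pos]

lemma Per.cont {g : ℝ → ℝ} (h : Per g) : Continuous fun θ => g (Real.exp θ) :=
  h.1.comp_continuous Real.continuous_exp fun θ => Real.exp_pos θ

lemma Per.periodic {g : ℝ → ℝ} (h : Per g) :
    Function.Periodic (fun θ => g (Real.exp θ)) (2 * Real.pi) := fun θ => by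
  simp only [Real.exp_add]
  exact h.2.2 _ (Real.exp_pos θ)

lemma per_const {c : ℝ} (hc : 0 ≤ c) : Per fun _ => c :=
  ⟨continuousOn_const, fun _ => hc, fun _ _ => rfl⟩

lemma per_one : Per fun _ => 1 := per_const zero_le_one

lemma Per.comp {g : ℝ → ℝ} (h : Per g) {F : ℝ → ℝ} (hF : Continuous F)
    (h0 : ∀ s, 0 ≤ s → 0 ≤ F s) : Per fun v => F (g v) :=
  ⟨hF.comp_continuousOn h.1, fun v => h0 _ (h.2.1 v), fun v hv => by simp only [h.2.2 v hv]⟩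

lemma Per.add {g h : ℝ → ℝ} (hg : Per g) (hh : Per h) : Per fun v => g v + h v :=
  ⟨hg.1.add hh.1, fun v => add_nonneg (hg.2.1 v) (hh.2.1 v), fun v hv => by
    simp only [hg.2.2 v hv, hh.2.2 v hv]⟩

lemma Per.mul {g h : ℝ → ℝ} (hg : Per g) (hh : Per h) : Per fun v => g v * h v :=
  ⟨hg.1.mul hh.1, fun v => mul_nonneg (hg.2.1 v) (hh.2.1 v), fun v hv => by
    simp only [hg.2.2 v hv, hh.2.2 v hv]⟩

lemma Per.pow {g : ℝ → ℝ} (h : Per g) (k : ℕ) : Per fun v => g v ^ k :=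
  h.comp (F := fun s => s ^ k) (continuous_pow k) fun _ hs => pow_nonneg hs k

lemma Per.min {g : ℝ → ℝ} (h : Per g) {A : ℝ} (hA : 0 ≤ A) : Per fun v => min (g v) A :=
  h.comp (F := fun s => Min.min s A) (continuous_id.min continuous_const) fun _ hs => le_min hs hA

lemma Per.max {g : ℝ → ℝ} (h : Per g) (A : ℝ) : Per fun v => max (g v - A) 0 :=
  h.comp (F := fun s => Max.max (s - A) 0) ((continuous_id.sub continuous_const).max
    continuous_const) fun _ _ => le_max_right _ _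

lemma Per.inv {g : ℝ → ℝ} (h : Per g) : Per fun v => g v⁻¹ := by
  refine ⟨h.1.comp (continuousOn_id.inv₀ fun v hv => ne_of_gt hv) fun v hv =>
    Set.mem_Ioi.2 (inv_pos.2 (Set.mem_Ioi.1 hv)),
    fun v => h.2.1 _, fun v hv => ?_⟩
  have e := h.2.2 ((v * Real.exp (2 * Real.pi))⁻¹) (by positivity)
  beta_reduce
  rw [← e, mul_inv, mul_assoc, inv_mul_cancel₀ (Real.exp_pos _).ne', mul_one]

lemma Per.scale {g : ℝ → ℝ} (h : Per g) {c : ℝ} (hc : 0 < c) : Per fun v => g (v * c) :=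
  ⟨h.1.comp (continuousOn_id.mul continuousOn_const) fun v hv => mul_pos hv hc,
    fun v => h.2.1 _, fun v hv => by
      simp only [mul_right_comm v _ c]
      exact h.2.2 _ (mul_pos hv hc)⟩

lemma per_sum {ι : Type*} (s : Finset ι) {g : ι → ℝ → ℝ} (h : ∀ i ∈ s, Per (g i)) :
    Per fun v => ∑ i ∈ s, g i v :=
  ⟨continuousOn_finsetSum _ fun i hi => (h i hi).1,
    fun v => sum_nonneg fun i hi => (h i hi).2.1 v,
    fun v hv => sum_congr rfl fun i hi => (h i hi).2.2 v hv⟩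

lemma mo_nonneg {g : ℝ → ℝ} (h : ∀ v, 0 < v → 0 ≤ g v) : 0 ≤ mo g :=
  intervalIntegral.integral_nonneg neg_pi_le fun θ _ => h _ (Real.exp_pos θ)

lemma Per.mo_nonneg {g : ℝ → ℝ} (h : Per g) : 0 ≤ mo g := GM4.mo_nonneg fun v _ => h.2.1 v

lemma mo_mono {g h : ℝ → ℝ} (hg : Per g) (hh : Per h) (hle : ∀ v, 0 < v → g v ≤ h v) :
    mo g ≤ mo h :=
  intervalIntegral.integral_mono_on neg_pi_le (hg.cont.intervalIntegrable _ _)
    (hh.cont.intervalIntegrable _ _) fun θ _ => hle _ (Real.exp_pos θ)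

lemma mo_add {g h : ℝ → ℝ} (hg : Per g) (hh : Per h) :
    mo (fun v => g v + h v) = mo g + mo h :=
  intervalIntegral.integral_add (hg.cont.intervalIntegrable _ _) (hh.cont.intervalIntegrable _ _)

lemma mo_const_mul (c : ℝ) (g : ℝ → ℝ) : mo (fun v => c * g v) = c * mo g :=
  intervalIntegral.integral_const_mul _ _

lemma mo_sum {ι : Type*} (s : Finset ι) {g : ι → ℝ → ℝ} (h : ∀ i ∈ s, Per (g i)) :
    mo (fun v => ∑ i ∈ s, g i v) = ∑ i ∈ s, mo (g i) :=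
  intervalIntegral.integral_finsetSum fun i hi => (h i hi).cont.intervalIntegrable _ _

lemma mo_inv (g : ℝ → ℝ) : mo (fun v => g v⁻¹) = mo g := by
  unfold mo
  simp only [← Real.exp_neg]
  rw [intervalIntegral.integral_comp_neg fun θ => g (Real.exp θ), neg_neg]

/-- the integral of a periodic function over a period is shift invariant -/
lemma shift_per {E : Type*} [NormedAddCommGroup E] [NormedSpace ℝ E] {F : ℝ → E}
    (h : Function.Periodic F (2 * Real.pi)) (s : ℝ) :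
    ∫ θ in (-Real.pi)..Real.pi, F (θ + s) = ∫ θ in (-Real.pi)..Real.pi, F θ := by
  rw [intervalIntegral.integral_comp_add_right F s]
  have := h.intervalIntegral_add_eq (-Real.pi + s) (-Real.pi)
  rwa [show -Real.pi + s + 2 * Real.pi = Real.pi + s by ring,
    show -Real.pi + 2 * Real.pi = Real.pi by ring] at this

lemma mo_scale {g : ℝ → ℝ} (h : Per g) {c : ℝ} (hc : 0 < c) : mo (fun v => g (v * c)) = mo g := by
  have := shift_per h.periodic (Real.log c)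
  simp only [Real.exp_add, Real.exp_log hc] at this
  exact this

lemma ch_nonneg (t : ℝ) : 0 ≤ ch t := by
  unfold ch
  linarith [Real.cos_le_one t]

lemma kc_nonneg (D : ℕ) (t : ℝ) : 0 ≤ kc D t := by
  have := ch_nonneg t
  unfold kc
  positivity

lemma continuous_ch : Continuous ch := by
  unfold ch
  fun_prop

lemma continuous_kc (D : ℕ) : Continuous (kc D) := by
  unfold kc
  exact continuous_const.div (continuous_const.add (continuous_const.mul continuous_ch))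
    fun t => by
      have := ch_nonneg t
      positivity

lemma ch_neg (t : ℝ) : ch (-t) = ch t := by simp [ch]

lemma ch_periodic : Function.Periodic ch (2 * Real.pi) := fun t => by simp [ch]

lemma kc_periodic (D : ℕ) : Function.Periodic (kc D) (2 * Real.pi) := fun t => by
  simp only [kc, ch_periodic t]

lemma cv_nonneg (D : ℕ) {F : ℝ → ℝ} (h : ∀ v, 0 ≤ F v) (x : ℝ) : 0 ≤ cv D F x :=
  intervalIntegral.integral_nonneg neg_pi_le fun t _ => mul_nonneg (kc_nonneg D t) (h _)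

lemma Per.cont_mul {F : ℝ → ℝ} (h : Per F) {x : ℝ} (hx : 0 < x) :
    Continuous fun t => F (x * Real.exp (-t)) :=
  h.1.comp_continuous (by fun_prop) fun t => mul_pos hx (Real.exp_pos _)

lemma cv_mono (D : ℕ) {F G : ℝ → ℝ} (hF : Per F) (hG : Per G) (h : ∀ v, 0 < v → F v ≤ G v)
    {x : ℝ} (hx : 0 < x) : cv D F x ≤ cv D G x :=
  intervalIntegral.integral_mono_on neg_pi_le
    (((continuous_kc D).mul (hF.cont_mul hx)).intervalIntegrable _ _)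
    (((continuous_kc D).mul (hG.cont_mul hx)).intervalIntegrable _ _) fun t _ =>
      mul_le_mul_of_nonneg_left (h _ (mul_pos hx (Real.exp_pos _))) (kc_nonneg D t)

lemma cv_add (D : ℕ) {F G : ℝ → ℝ} (hF : Per F) (hG : Per G) {x : ℝ} (hx : 0 < x) :
    cv D (fun v => F v + G v) x = cv D F x + cv D G x := by
  unfold cv
  simp only [mul_add]
  exact intervalIntegral.integral_add
    (((continuous_kc D).mul (hF.cont_mul hx)).intervalIntegrable _ _)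
    (((continuous_kc D).mul (hG.cont_mul hx)).intervalIntegrable _ _)

lemma pw_exp (θ u : ℝ) : pw (Real.exp θ) u = Complex.exp (Complex.I * u * θ) := by
  rw [pw, Real.log_exp]

lemma pw_per {v : ℝ} (hv : 0 < v) (k : ℤ) : pw (v * Real.exp (2 * Real.pi)) k = pw v k := by
  rw [pw_mul hv.ne' (Real.exp_pos _).ne', pw_exp]
  have : Complex.I * ((k : ℝ) : ℂ) * ((2 * Real.pi : ℝ) : ℂ) = k * (2 * Real.pi * Complex.I) := by
    push_cast
    ring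
  rw [this, Complex.exp_int_mul_two_pi_mul_I, mul_one]

lemma TP.cont {R : ℕ} {U : ℝ → ℂ} {c : ℤ → ℂ} (h : TP R U c) : ContinuousOn U (Set.Ioi 0) := by
  have h1 : ContinuousOn (fun x : ℝ => ∑ ρ ∈ Io R, c ρ * pw x ρ) (Set.Ioi 0) :=
    continuousOn_finsetSum _ fun ρ _ => continuousOn_const.mul (continuousOn_pw (ρ : ℝ))
  exact h1.congr fun x hx => h x hx

lemma Wg.cont {L : ℕ} {ν : ℤ → ℝ} {S : Finset ℕ} {H : ℝ} {χ : ℝ → ℝ} (h : Wg L ν S H χ) :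
    ContinuousOn χ (Set.Ioi 0) := by
  obtain ⟨c, hc⟩ := h.1
  exact (Complex.continuous_re.comp_continuousOn hc.cont).congr fun x _ => by simp

lemma ph_nonneg (L : ℕ) (ν : ℤ → ℝ) (v : ℝ) : 0 ≤ ph L ν v := norm_nonneg _

lemma ph_inv (L : ℕ) (ν : ℤ → ℝ) (v : ℝ) : ph L ν v⁻¹ = ph L ν v := norm_FT_inv _ _ _

lemma per_ph (L : ℕ) (ν : ℤ → ℝ) : Per (ph L ν) :=
  ⟨(continuousOn_FT _ _).norm, ph_nonneg L ν, fun v hv => by
    unfold ph FT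
    simp only [pw_per hv]⟩

lemma hS_nonneg (L : ℕ) (ν : ℤ → ℝ) (S : Finset ℕ) (x : ℝ) : 0 ≤ hS L ν S x :=
  sum_nonneg fun _ _ => sq_nonneg _

lemma per_hS (L : ℕ) (ν : ℤ → ℝ) {S : Finset ℕ} (h : ∀ n ∈ S, 1 ≤ n) : Per (hS L ν S) :=
  per_sum S fun n hn => ((per_ph L ν).scale (by exact_mod_cast h n hn)).pow 2

/-- continuity on the open quadrant -/
def CQ (H : ℝ → ℝ → ℝ) : Prop :=
  ContinuousOn (fun p : ℝ × ℝ => H p.1 p.2) (Set.Ioi 0 ×ˢ Set.Ioi 0)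

lemma CQ.add {F G : ℝ → ℝ → ℝ} (hF : CQ F) (hG : CQ G) : CQ fun z w => F z w + G z w :=
  ContinuousOn.add hF hG

lemma CQ.mul {F G : ℝ → ℝ → ℝ} (hF : CQ F) (hG : CQ G) : CQ fun z w => F z w * G z w :=
  ContinuousOn.mul hF hG

lemma cq_const (c : ℝ) : CQ fun _ _ => c := continuousOn_const

lemma cq_sum {ι : Type*} (s : Finset ι) {F : ι → ℝ → ℝ → ℝ} (h : ∀ i ∈ s, CQ (F i)) :
    CQ fun z w => ∑ i ∈ s, F i z w := continuousOn_finsetSum _ h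

lemma cq_u {g : ℝ → ℝ} (h : ContinuousOn g (Set.Ioi 0)) {p q : ℝ} (hp : 0 < p) (hq : 0 < q) :
    CQ fun z w => g (w / z * p / q) :=
  h.comp (((continuousOn_snd.div continuousOn_fst fun _ hx => ne_of_gt hx.1).mul
    continuousOn_const).div_const _) fun _ hx => div_pos (mul_pos (div_pos hx.2 hx.1) hp) hq

lemma cq_z {g : ℝ → ℝ} (h : ContinuousOn g (Set.Ioi 0)) {p q : ℝ} (hp : 0 < p) (hq : 0 < q) :
    CQ fun z _ => g (z * p / q) :=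
  h.comp ((continuousOn_fst.mul continuousOn_const).div_const _) fun _ hx =>
    div_pos (mul_pos hx.1 hp) hq

lemma cq_w {g : ℝ → ℝ} (h : ContinuousOn g (Set.Ioi 0)) {p q : ℝ} (hp : 0 < p) (hq : 0 < q) :
    CQ fun _ w => g (w * p / q) :=
  h.comp ((continuousOn_snd.mul continuousOn_const).div_const _) fun _ hx =>
    div_pos (mul_pos hx.2 hp) hq

lemma cq_z' {g : ℝ → ℝ} (h : ContinuousOn g (Set.Ioi 0)) {q : ℝ} (hq : 0 < q) :
    CQ fun z _ => g (z / q) :=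
  h.comp (continuousOn_fst.div_const _) fun _ hx => div_pos hx.1 hq

lemma cq_w' {g : ℝ → ℝ} (h : ContinuousOn g (Set.Ioi 0)) {q : ℝ} (hq : 0 < q) :
    CQ fun _ w => g (w / q) :=
  h.comp (continuousOn_snd.div_const _) fun _ hx => div_pos hx.2 hq

lemma int_w {H : ℝ → ℝ → ℝ} (h : CQ H) {z b b' : ℝ} (hz : 0 < z) (hb : 0 < b) (hbb : b ≤ b') :
    IntervalIntegrable (fun w => H z w) MeasureTheory.volume b b' := by
  refine ContinuousOn.intervalIntegrable_of_Icc hbb ?_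
  exact ContinuousOn.comp (f := fun w => (z, w)) h (by fun_prop) fun w hw =>
    ⟨hz, lt_of_lt_of_le hb hw.1⟩

lemma int_z {H : ℝ → ℝ → ℝ} (h : CQ H) {a a' b b' : ℝ} (ha : 0 < a) (haa : a ≤ a') (hb : 0 < b)
    (hbb : b ≤ b') :
    IntervalIntegrable (fun z => ∫ w in b..b', H z w) MeasureTheory.volume a a' := by
  have hK : IsCompact (Set.Icc a a' ×ˢ Set.Icc b b') := isCompact_Icc.prod isCompact_Icc
  have h1 : MeasureTheory.IntegrableOn (fun p : ℝ × ℝ => H p.1 p.2)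
      (Set.Ioc a a' ×ˢ Set.Ioc b b') (MeasureTheory.volume.prod MeasureTheory.volume) :=
    ((ContinuousOn.mono h fun p hp => ⟨lt_of_lt_of_le ha hp.1.1,
      lt_of_lt_of_le hb hp.2.1⟩).integrableOn_compact hK).mono_set
      (Set.prod_mono Set.Ioc_subset_Icc_self Set.Ioc_subset_Icc_self)
  rw [MeasureTheory.IntegrableOn, ← MeasureTheory.Measure.prod_restrict] at h1
  rw [intervalIntegrable_iff_integrableOn_Ioc_of_le haa]
  simp only [intervalIntegral.integral_of_le hbb]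
  exact h1.integral_prod_left

lemma box_mono {F G : ℝ → ℝ → ℝ} (hF : CQ F) (hG : CQ G) {a a' b b' : ℝ} (ha : 0 < a)
    (haa : a ≤ a') (hb : 0 < b) (hbb : b ≤ b')
    (h : ∀ z ∈ Set.Icc a a', ∀ w ∈ Set.Icc b b', F z w ≤ G z w) :
    ∫ z in a..a', ∫ w in b..b', F z w ≤ ∫ z in a..a', ∫ w in b..b', G z w :=
  intervalIntegral.integral_mono_on haa (int_z hF ha haa hb hbb) (int_z hG ha haa hb hbb)
    fun z hz => intervalIntegral.integral_mono_on hbb (int_w hF (ha.trans_le hz.1) hb hbb)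
      (int_w hG (ha.trans_le hz.1) hb hbb) (h z hz)

lemma box_add {F G : ℝ → ℝ → ℝ} (hF : CQ F) (hG : CQ G) {a a' b b' : ℝ} (ha : 0 < a)
    (haa : a ≤ a') (hb : 0 < b) (hbb : b ≤ b') :
    ∫ z in a..a', ∫ w in b..b', (F z w + G z w) =
      (∫ z in a..a', ∫ w in b..b', F z w) + ∫ z in a..a', ∫ w in b..b', G z w := by
  rw [← intervalIntegral.integral_add (int_z hF ha haa hb hbb) (int_z hG ha haa hb hbb)]
  refine intervalIntegral.integral_congr fun z hz => ?_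
  rw [Set.uIcc_of_le haa] at hz
  exact intervalIntegral.integral_add (int_w hF (ha.trans_le hz.1) hb hbb)
    (int_w hG (ha.trans_le hz.1) hb hbb)

lemma cq_kp (c e₁ e₂ e₃ : ℝ) : CQ fun z w => kp (c * (e₁ * z + e₂ * w + e₃)) :=
  (continuous_kp.comp (by fun_prop)).continuousOn

lemma ends_box {P Q : ℕ} (hP : 1 ≤ P) (hQ : 1 ≤ Q) :
    0 < (P : ℝ) / Q / 6 ∧ (P : ℝ) / Q / 6 ≤ 6 * (P / Q) := by
  have : 0 < (P : ℝ) / Q := by positivity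
  constructor <;> linarith

section BX

variable {N M₁ M₂ M₃ : ℕ} {e₁ e₂ e₃ : ℝ}

lemma BX_mono (h1 : 1 ≤ M₁) (h2 : 1 ≤ M₂) (h3 : 1 ≤ M₃) {F G : ℝ → ℝ → ℝ} (hF : CQ F) (hG : CQ G)
    (h : ∀ z w, 0 < z → 0 < w → F z w ≤ G z w) :
    BX N M₁ M₂ M₃ e₁ e₂ e₃ F ≤ BX N M₁ M₂ M₃ e₁ e₂ e₃ G :=
  box_mono ((cq_kp _ _ _ _).mul hF) ((cq_kp _ _ _ _).mul hG) (ends_box h1 h3).1 (ends_box h1 h3).2
    (ends_box h2 h3).1 (ends_box h2 h3).2 fun z hz w hw => mul_le_mul_of_nonneg_left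
      (h z w ((ends_box h1 h3).1.trans_le hz.1) ((ends_box h2 h3).1.trans_le hw.1)) (kp_pos _).le

lemma BX_add (h1 : 1 ≤ M₁) (h2 : 1 ≤ M₂) (h3 : 1 ≤ M₃) {F G : ℝ → ℝ → ℝ} (hF : CQ F)
    (hG : CQ G) : BX N M₁ M₂ M₃ e₁ e₂ e₃ (fun z w => F z w + G z w) =
      BX N M₁ M₂ M₃ e₁ e₂ e₃ F + BX N M₁ M₂ M₃ e₁ e₂ e₃ G := by
  unfold BX
  simp only [mul_add (kp _)]
  exact box_add ((cq_kp _ _ _ _).mul hF) ((cq_kp _ _ _ _).mul hG) (ends_box h1 h3).1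
    (ends_box h1 h3).2 (ends_box h2 h3).1 (ends_box h2 h3).2

lemma BX_const_mul (c : ℝ) (F : ℝ → ℝ → ℝ) :
    BX N M₁ M₂ M₃ e₁ e₂ e₃ (fun z w => c * F z w) = c * BX N M₁ M₂ M₃ e₁ e₂ e₃ F := by
  unfold BX
  simp only [mul_left_comm _ c, intervalIntegral.integral_const_mul]

lemma BX_nonneg (h1 : 1 ≤ M₁) (h2 : 1 ≤ M₂) (h3 : 1 ≤ M₃) {F : ℝ → ℝ → ℝ}
    (h : ∀ z w, 0 < z → 0 < w → 0 ≤ F z w) : 0 ≤ BX N M₁ M₂ M₃ e₁ e₂ e₃ F :=
  intervalIntegral.integral_nonneg (ends_box h1 h3).2 fun z hz =>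
    intervalIntegral.integral_nonneg (ends_box h2 h3).2 fun w hw => mul_nonneg (kp_pos _).le
      (h z w ((ends_box h1 h3).1.trans_le hz.1) ((ends_box h2 h3).1.trans_le hw.1))

lemma BX_congr (h1 : 1 ≤ M₁) (h2 : 1 ≤ M₂) (h3 : 1 ≤ M₃) {F G : ℝ → ℝ → ℝ}
    (h : ∀ z w, 0 < z → 0 < w → F z w = G z w) :
    BX N M₁ M₂ M₃ e₁ e₂ e₃ F = BX N M₁ M₂ M₃ e₁ e₂ e₃ G := by
  refine intervalIntegral.integral_congr fun z hz => intervalIntegral.integral_congr fun w hw => ?_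
  rw [Set.uIcc_of_le (ends_box h1 h3).2] at hz
  rw [Set.uIcc_of_le (ends_box h2 h3).2] at hw
  simp only [h z w ((ends_box h1 h3).1.trans_le hz.1) ((ends_box h2 h3).1.trans_le hw.1)]

end BX

lemma Bk.one {M₁ M₂ M₃ : ℕ} {S₁ S₂ S₃ : Finset ℕ} {e₁ e₂ e₃ : ℝ}
    (h : Bk M₁ M₂ M₃ S₁ S₂ S₃ e₁ e₂ e₃) : 1 ≤ M₁ ∧ 1 ≤ M₂ ∧ 1 ≤ M₃ := ⟨h.1.1, h.2.1.1, h.2.2.1.1⟩

lemma Dy.pos {M : ℕ} {S : Finset ℕ} (h : Dy M S) {n : ℕ} (hn : n ∈ S) : (0 : ℝ) < n := by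
  exact_mod_cast h.one_le n hn

/-- the integrand of `TB` is continuous on the quadrant -/
lemma cq_TB {S₁ S₂ S₃ : Finset ℕ} {M₁ M₂ M₃ : ℕ} (h1 : Dy M₁ S₁) (h2 : Dy M₂ S₂) (h3 : Dy M₃ S₃)
    {g₁ g₂ g₃ : ℝ → ℝ} (c1 : Per g₁) (c2 : Per g₂) (c3 : Per g₃) :
    CQ fun z w => ∑ n₁ ∈ S₁, ∑ n₂ ∈ S₂, ∑ n₃ ∈ S₃,
      g₁ (w / z * n₁ / n₂) * g₂ (z * n₃ / n₁) * g₃ (w * n₃ / n₂) :=
  cq_sum _ fun _ a => cq_sum _ fun _ b => cq_sum _ fun _ c =>
    ((cq_u c1.1 (Dy.pos h1 a) (Dy.pos h2 b)).mul (cq_z c2.1 (Dy.pos h3 c) (Dy.pos h1 a))).mul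
      (cq_w c3.1 (Dy.pos h3 c) (Dy.pos h2 b))

lemma cq_Sq2 {S₁ S₂ S₃ : Finset ℕ} {M₁ M₂ M₃ : ℕ} (h1 : Dy M₁ S₁) (h2 : Dy M₂ S₂) (h3 : Dy M₃ S₃)
    (L : ℕ) (ν : ℤ → ℝ) (γ : ℕ → ℂ) {χ₁ χ₂ : ℝ → ℝ} (c1 : ContinuousOn χ₁ (Set.Ioi 0))
    (c2 : ContinuousOn χ₂ (Set.Ioi 0)) : CQ (Sq2 L ν S₁ S₂ S₃ γ χ₁ χ₂) :=
  cq_sum _ fun _ a => cq_sum _ fun _ b =>
    ((cq_z' c1 (Dy.pos h1 a)).mul (cq_w' c2 (Dy.pos h2 b))).mul
      ((continuousOn_Inn _ ν h3.one_le γ continuousOn_fst continuousOn_snd (fun _ hp => hp.1)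
        (fun _ hp => hp.2) (h1.one_le _ a) (h2.one_le _ b)).norm.pow 2)

lemma ab_pos {M₁ M₂ M₃ : ℕ} (h1 : 1 ≤ M₁) (h2 : 1 ≤ M₂) (h3 : 1 ≤ M₃) : 0 < ab M₁ M₂ M₃ := by
  unfold ab
  positivity

lemma PB4_nonneg (P Q : ℕ) {Δ : ℝ} (hΔ : 0 ≤ Δ) {g h : ℝ → ℝ} (hg : Per g) (hh : Per h) :
    0 ≤ PB4 P Q Δ g h := by
  have := hg.mo_nonneg
  have := hh.mo_nonneg
  unfold PB4
  positivity

lemma DivB_up {X : ℕ} {Δ Δ' : ℝ} (h : DivB X Δ) (hΔ : Δ ≤ Δ') : DivB X Δ' :=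
  ⟨h.1.trans hΔ, fun n hn => (h.2 n hn).trans hΔ⟩

lemma Dat.up {N L : ℕ} {ν : ℤ → ℝ} {m t Δ Δ' B X : ℝ} (h : Dat N L ν m t Δ B X) (hΔ : Δ ≤ Δ') :
    Dat N L ν m t Δ' B X := by
  obtain ⟨a1, a2, a3, a4, a5, a6, a7, a8, a9, a10, a11, a12, a13⟩ := h
  have m0 : 0 ≤ m := (sq_nonneg t).trans a4
  exact ⟨a1, a2, a3, a4, a5.trans hΔ, a6, a7, a8, a9.trans (by gcongr), a10.trans (by gcongr),
    fun v => (a11 v).trans (by gcongr), a12.trans (by gcongr), a13.trans (by gcongr)⟩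

lemma BBH.up {m t Δ Δ' : ℝ} {R : ℕ} (h : BBH m t Δ R) (hΔ : Δ ≤ Δ') : BBH m t Δ' R := by
  intro M₁ M₂ a b κ σ z₀ z₁ Y₁ Y₂ G I u v a1 a2 a3 a4 a5 a6 a7 a8 a9 a10
  exact (h M₁ M₂ a b κ σ z₀ z₁ Y₁ Y₂ G I u v a1 a2 a3 a4 a5 a6 a7 a8 a9 a10).trans (by gcongr)

lemma GH.up {L : ℕ} {ν : ℤ → ℝ} {m t Δ Δ' X : ℝ} (h : GH L ν m t Δ X) (hΔ : Δ ≤ Δ') :
    GH L ν m t Δ' X := fun S hS => (h S hS).trans (by gcongr)

lemma OscB.up {y Δ Δ' : ℝ} (h : OscB y Δ) (hΔ : Δ ≤ Δ') : OscB y Δ' := fun M hM u hu => by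
  have := kp_pos (u : ℝ)
  exact (h M hM u hu).trans (by gcongr)

lemma JutB.up {y Δ Δ' : ℝ} {L : ℕ} (h : JutB y Δ L) (hΔ : Δ ≤ Δ') : JutB y Δ' L :=
  fun S hS g hg => (h S hS g hg).trans (by gcongr)

end Pool.Agent.MP_2a1f0e_nt.GM4
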