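import Pool.Agent.MP_2a1f0e_nt.GM4.Basic

set_option autoImplicit false

open Finset

namespace Pool.Agent.MP_2a1f0e_nt.GM4

open GM GM2 GM3

lemma pt_Blk4 {φ A q p r c₁ c₂ C τ s : ℝ} (hp : 0 < p) (hr : 0 < r) (hτ : 0 < τ)
    (hC : 1 ≤ C) (k1 : 0 ≤ c₁) (k2 : 0 ≤ c₂) (h1 : 1 / p ^ 2 ≤ 1 + C * c₁)
    (h2 : 1 / r ^ 2 ≤ 1 + C * c₂) (hs : q ≤ s) :
    φ * q ≤ (τ * (C * (min φ A ^ 2 * (1 + c₁ + c₂))) + p * r * q ^ 2 / τ) / 2 +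
      max (φ - A) 0 * s := by
  have e : φ = min φ A + max (φ - A) 0 := by
    rcases le_total φ A with h | h
    · rw [min_eq_left h, max_eq_right (by linarith), add_zero]
    · rw [min_eq_right h, max_eq_left (by linarith)]
      ring
  have h3 : max (φ - A) 0 * q ≤ max (φ - A) 0 * s :=
    mul_le_mul_of_nonneg_left hs (le_max_right _ _)
  have h4 : 1 / (p * r) ≤ C * (1 + c₁ + c₂) := by
    have : 1 / (p * r) ≤ (1 / p ^ 2 + 1 / r ^ 2) / 2 := by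
      have e1 : 1 / (p * r) = 1 / p * (1 / r) := by field_simp
      have e2 : 1 / p ^ 2 = (1 / p) ^ 2 := by field_simp
      have e3 : 1 / r ^ 2 = (1 / r) ^ 2 := by field_simp
      rw [e1, e2, e3]
      nlinarith [sq_nonneg (1 / p - 1 / r)]
    nlinarith [mul_nonneg (zero_le_one.trans hC) k1, mul_nonneg (zero_le_one.trans hC) k2]
  generalize min φ A = g at e ⊢
  have h5 : g * q ≤ (τ * (g ^ 2 * (1 / (p * r))) + p * r * q ^ 2 / τ) / 2 := by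
    have w : 0 < p * r / τ := by positivity
    have e4 : τ * (g ^ 2 * (1 / (p * r))) = g ^ 2 / (p * r / τ) := by field_simp
    have e5 : p * r * q ^ 2 / τ = p * r / τ * q ^ 2 := by ring
    rw [e4, e5]
    generalize p * r / τ = k at w
    have : 0 ≤ (g - k * q) ^ 2 / k := by positivity
    have e6 : (g - k * q) ^ 2 / k = g ^ 2 / k - 2 * (g * q) + k * q ^ 2 := by
      field_simp
      ring
    linarith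
  have h6 : τ * (g ^ 2 * (1 / (p * r))) ≤ τ * (C * (g ^ 2 * (1 + c₁ + c₂))) := by
    rw [mul_left_comm C]
    gcongr
  calc φ * q = g * q + max (φ - A) 0 * q := by rw [← add_mul, ← e]
    _ ≤ _ := by linarith

lemma inn_Blk4 (L : ℕ) (ν : ℤ → ℝ) {S : Finset ℕ} {γ : ℕ → ℂ} (hγ : ∀ n ∈ S, ‖γ n‖ ≤ 1)
    (z w : ℝ) (n₁ n₂ : ℕ) : ‖Inn (Io L) ν S γ z w n₁ n₂‖ ≤
      ∑ n ∈ S, ph L ν (z * n / n₁) * ph L ν (w * n / n₂) := by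
  refine (norm_sum_le _ _).trans (sum_le_sum fun n hn => ?_)
  rw [norm_mul, norm_mul, ← ph_inv L ν (w * n / n₂), inv_div]
  exact mul_le_mul_of_nonneg_right (mul_le_of_le_one_left (norm_nonneg _) (hγ n hn))
    (norm_nonneg _)

lemma num_Blk4 {a b c Δ k N M m t x B : ℝ} (ha : 1 ≤ a) (hb : 0 < b) (hc : 0 < c) (hΔ : 1 ≤ Δ)
    (hk : 0 < k) (hN : 0 < N) (hM : 0 ≤ M) (hm : M ≤ m) (ht : 1 ≤ t) (hx : 0 ≤ x) (hB : 0 ≤ B) :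
    √(a * (b * Δ * k ^ 2 * ((M * x ^ 2 + t * x * B) / N))) *
      √(c * a * Δ ^ 3 * (m ^ 2 / t ^ 2 * (M * (x ^ 2) ^ 2 / N))) ≤
      a * (b + c) * Δ ^ 3 * (k / N * (m ^ 2 / t * (x ^ 2 * x) + m * B * x ^ 2)) := by
  have t0 : 0 < t := by linarith
  have m0 : 0 ≤ m := hM.trans hm
  rw [← Real.sqrt_mul (by positivity)]
  refine Real.sqrt_le_iff.2 ⟨by positivity, ?_⟩
  have h1 : m ^ 2 / t ^ 2 * (x ^ 2) ^ 2 * (M * (M * x ^ 2 + t * x * B)) ≤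
      (m ^ 2 / t * (x ^ 2 * x) + m * B * x ^ 2) ^ 2 := by
    have h2 : m ^ 2 / t ^ 2 * (x ^ 2) ^ 2 * (M * (M * x ^ 2 + t * x * B)) ≤
        m ^ 2 / t ^ 2 * (x ^ 2) ^ 2 * (m * (m * x ^ 2 + t * x * B)) := by gcongr
    have e : m ^ 2 / t ^ 2 * (x ^ 2) ^ 2 * (m * (m * x ^ 2 + t * x * B)) =
        (m ^ 2 / t * (x ^ 2 * x)) ^ 2 + m ^ 2 / t * (x ^ 2 * x) * (m * B * x ^ 2) := by
      field_simp
    have p1 : 0 ≤ m ^ 2 / t * (x ^ 2 * x) := by positivity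
    have p2 : 0 ≤ m * B * x ^ 2 := by positivity
    rw [e] at h2
    generalize m ^ 2 / t * (x ^ 2 * x) = u at *
    generalize m * B * x ^ 2 = v at *
    nlinarith [mul_nonneg p1 p2]
  have h3 : b * c ≤ (b + c) ^ 2 := by nlinarith [mul_pos hb hc]
  have h4 : Δ ^ 4 ≤ Δ ^ 6 := pow_le_pow_right₀ hΔ (by norm_num)
  calc _ = a ^ 2 * (b * c) * Δ ^ 4 * (k / N) ^ 2 *
        (m ^ 2 / t ^ 2 * (x ^ 2) ^ 2 * (M * (M * x ^ 2 + t * x * B))) := by ring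
    _ ≤ a ^ 2 * (b + c) ^ 2 * Δ ^ 6 * (k / N) ^ 2 *
        (m ^ 2 / t * (x ^ 2 * x) + m * B * x ^ 2) ^ 2 := by gcongr
    _ = _ := by ring

lemma cs_Blk4 (hC : CSStmt) (N L : ℕ) {M₁ M₂ M₃ : ℕ} {S₁ S₂ S₃ : Finset ℕ} (h1 : Dy M₁ S₁)
    (h2 : Dy M₂ S₂) (h3 : Dy M₃ S₃) (e₁ e₂ e₃ : ℝ) (ν : ℤ → ℝ) {γ : ℕ → ℂ}
    (hγ : ∀ n ∈ S₃, ‖γ n‖ ≤ 1) {A C H₁ H₂ K₁ K₂ : ℝ} (hA : 0 ≤ A) (hC1 : 1 ≤ C) (k1 : 0 ≤ H₁)
    (k2 : 0 ≤ H₂) {c χ₁ χ₂ : ℝ → ℝ} (pc : Per c) (w1 : Wg L ν S₃ K₁ χ₁) (w2 : Wg L ν S₃ K₂ χ₂)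
    (v1 : ∀ x : ℝ, 0 < x → 1 / χ₁ x ^ 2 ≤ 1 + C * (c x / H₁))
    (v2 : ∀ x : ℝ, 0 < x → 1 / χ₂ x ^ 2 ≤ 1 + C * (c x / H₂)) :
    BX N M₁ M₂ M₃ e₁ e₂ e₃ (Hf (Io L) ν S₁ S₂ S₃ γ) ≤
      √(C * BX N M₁ M₂ M₃ e₁ e₂ e₃ fun z w => ∑ n₁ ∈ S₁, ∑ n₂ ∈ S₂,
        min (ph L ν (w / z * n₁ / n₂)) A ^ 2 * (1 + c (z / n₁) / H₁ + c (w / n₂) / H₂)) *
        √(BX N M₁ M₂ M₃ e₁ e₂ e₃ (Sq2 L ν S₁ S₂ S₃ γ χ₁ χ₂)) +
      TB N M₁ M₂ M₃ S₁ S₂ S₃ e₁ e₂ e₃ (fun v => max (ph L ν v - A) 0) (ph L ν) (ph L ν) := by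
  have g1 : CQ (Hf (Io L) ν S₁ S₂ S₃ γ) :=
    continuousOn_Hf _ ν h1.one_le h2.one_le h3.one_le γ continuousOn_fst continuousOn_snd
      (fun p hp => hp.1) fun p hp => hp.2
  have g2 : CQ fun z w => C * ∑ n₁ ∈ S₁, ∑ n₂ ∈ S₂,
      min (ph L ν (w / z * n₁ / n₂)) A ^ 2 * (1 + c (z / n₁) / H₁ + c (w / n₂) / H₂) :=
    (cq_const C).mul (cq_sum _ fun n₁ b1 => cq_sum _ fun n₂ b2 =>
      (cq_u (g := fun v => min (ph L ν v) A ^ 2) (((per_ph L ν).min hA).pow 2).1 (Dy.pos h1 b1)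
        (Dy.pos h2 b2)).mul (((cq_const 1).add
          (cq_z' (g := fun v => c v / H₁) (pc.1.div_const _) (Dy.pos h1 b1))).add
          (cq_w' (g := fun v => c v / H₂) (pc.1.div_const _) (Dy.pos h2 b2))))
  have g3 := cq_Sq2 h1 h2 h3 L ν γ w1.cont w2.cont
  have g4 := cq_TB h1 h2 h3 ((per_ph L ν).max A) (per_ph L ν) (per_ph L ν)
  rw [← BX_const_mul]
  refine hC N M₁ M₂ M₃ e₁ e₂ e₃ _ _ _ _ h1.1 h2.1 h3.1 g1 g2 g3 g4 fun z w τ hz hw hτ => ?_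
  have p1 : ∀ n ∈ S₁, 0 < z / n := fun n hn => div_pos hz (Dy.pos h1 hn)
  have p2 : ∀ n ∈ S₂, 0 < w / n := fun n hn => div_pos hw (Dy.pos h2 hn)
  have q1 : ∀ x, 0 ≤ c x / H₁ := fun x => div_nonneg (pc.2.1 x) k1
  have q2 : ∀ x, 0 ≤ c x / H₂ := fun x => div_nonneg (pc.2.1 x) k2
  refine ⟨mul_nonneg (by linarith) (sum_nonneg fun n₁ _ => sum_nonneg fun n₂ _ =>
    mul_nonneg (sq_nonneg _) (by linarith [q1 (z / n₁), q2 (w / n₂)])),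
    sum_nonneg fun n₁ b1 => sum_nonneg fun n₂ b2 => mul_nonneg (mul_nonneg
      (w1.2 _ (p1 _ b1)).1.le (w2.2 _ (p2 _ b2)).1.le) (sq_nonneg _), ?_⟩
  simp only [Hf, Sq2, mul_sum, sum_div, ← sum_add_distrib]
  refine sum_le_sum fun n₁ b1 => sum_le_sum fun n₂ b2 => ?_
  simp only [mul_assoc (max _ _), ← mul_sum]
  exact pt_Blk4 (w1.2 _ (p1 _ b1)).1 (w2.2 _ (p2 _ b2)).1 hτ hC1 (q1 _) (q2 _)
    (v1 _ (p1 _ b1)) (v2 _ (p2 _ b2)) (inn_Blk4 L ν hγ z w n₁ n₂)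

theorem blk4_stmt (hR : RedStmt) (hW : WtStmt) (hC : CSStmt) (hJ : J4Stmt) (hI : I4Stmt)
    (hP : ShpStmt) (hV : CvStmt) : Blk4Stmt := by
  obtain ⟨CR, cr, hR⟩ := hR
  obtain ⟨CW, cw, hW⟩ := hW
  obtain ⟨CJ, cj, hJ⟩ := hJ
  obtain ⟨CI, ci, hI⟩ := hI
  obtain ⟨CS, cs, hP⟩ := hP
  obtain ⟨CV, -, hV⟩ := hV
  refine ⟨CR * (CW * (CJ + CI) + CS), by positivity, ?_⟩
  intro N L M₁ M₂ M₃ S₁ S₂ S₃ e₁ e₂ e₃ m t Δ B X ν hk hm hD hd hb hg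
  have j1 := hJ N L M₁ M₂ M₃ S₁ S₂ S₃ e₁ e₂ e₃ m t Δ B X ν hk hm hD hd
  have s1 := hP N L M₁ M₂ M₃ S₁ S₂ S₃ e₁ e₂ e₃ m t Δ B X ν hk hm hD hd
  have i1 := fun γ χ₁ χ₂ => hI N L M₁ M₂ M₃ S₁ S₂ S₃ e₁ e₂ e₃ m t Δ B X CW ν γ χ₁ χ₂ hk hm hD hb hg
  obtain ⟨o1, o2, o3⟩ := hk.one
  obtain ⟨h1, h2, h3, -⟩ := hk
  obtain ⟨d1, d2, d3, -, d5, d6, d7, -⟩ := hD
  have a1 : (0 : ℝ) < M₁ := by exact_mod_cast o1
  have a2 : (0 : ℝ) < M₂ := by exact_mod_cast o2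
  have a3 : (0 : ℝ) < M₃ := by exact_mod_cast o3
  have aN : (0 : ℝ) < N := by exact_mod_cast d1
  have k0 := ab_pos o1 o2 o3
  obtain ⟨χ₁, w1, v1⟩ := hW L ν S₃ ((M₃ : ℝ) ^ 2 * X / M₁) d2 h3.one_le (by positivity)
  obtain ⟨χ₂, w2, v2⟩ := hW L ν S₃ ((M₃ : ℝ) ^ 2 * X / M₂) d2 h3.one_le (by positivity)
  have key := hR N M₁ M₂ M₃ S₁ S₂ S₃ e₁ e₂ e₃ ((CW * (CJ + CI) + CS) * Δ ^ 3 *
    (ab M₁ M₂ M₃ / N * (m ^ 2 / t * (X * √X) + m * B * X))) (Io L) ν h1 h2 h3 fun γ hγ => by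
    have c1 := cs_Blk4 hC N L h1 h2 h3 e₁ e₂ e₃ ν hγ (A := √(ab M₁ M₂ M₃) * (t * √X))
      (by positivity) cw (by positivity) (by positivity) (hV (2 * L) _ (per_hS L ν h3.one_le)).1
      w1 w2 v1 v2
    have n1 := num_Blk4 (x := √X) cw cj ci d5 k0 aN a3.le hm d3 (Real.sqrt_nonneg X) d6
    rw [Real.sq_sqrt d7.le] at n1
    have n2 := mul_le_mul (Real.sqrt_le_sqrt (mul_le_mul_of_nonneg_left j1 (by linarith : 0 ≤ CW)))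
      (Real.sqrt_le_sqrt (i1 γ χ₁ χ₂ hγ cw w1 w2)) (Real.sqrt_nonneg _) (Real.sqrt_nonneg _)
    exact c1.trans ((add_le_add (n2.trans n1) s1).trans_eq (by ring))
  refine key.trans_eq ?_
  unfold ab
  field_simp

end Pool.Agent.MP_2a1f0e_nt.GM4
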