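import Pool.Agent.MP_2a1f0e_nt.GM4.Basic
import Pool.Agent.MP_2a1f0e_nt.GM2.Tri2

set_option autoImplicit false

open Finset

namespace Pool.Agent.MP_2a1f0e_nt.GM4

open GM GM2 GM3

lemma box_sum_Chg {ι : Type*} (s : Finset ι) {F : ι → ℝ → ℝ → ℝ} (h : ∀ i ∈ s, CQ (F i))
    {a a' b b' : ℝ} (ha : 0 < a) (haa : a ≤ a') (hb : 0 < b) (hbb : b ≤ b') :
    ∫ z in a..a', ∫ w in b..b', ∑ i ∈ s, F i z w =
      ∑ i ∈ s, ∫ z in a..a', ∫ w in b..b', F i z w := by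
  rw [← intervalIntegral.integral_finsetSum fun i hi => int_z (h i hi) ha haa hb hbb]
  refine intervalIntegral.integral_congr fun z hz => ?_
  rw [Set.uIcc_of_le haa] at hz
  exact intervalIntegral.integral_finsetSum fun i hi => int_w (h i hi) (ha.trans_le hz.1) hb hbb

lemma box_sum3_Chg (S₁ S₂ S₃ : Finset ℕ) {F : ℕ → ℕ → ℕ → ℝ → ℝ → ℝ}
    (h : ∀ i ∈ S₁, ∀ j ∈ S₂, ∀ k ∈ S₃, CQ (F i j k))
    {a a' b b' : ℝ} (ha : 0 < a) (haa : a ≤ a') (hb : 0 < b) (hbb : b ≤ b') :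
    ∫ z in a..a', ∫ w in b..b', ∑ i ∈ S₁, ∑ j ∈ S₂, ∑ k ∈ S₃, F i j k z w =
      ∑ i ∈ S₁, ∑ j ∈ S₂, ∑ k ∈ S₃, ∫ z in a..a', ∫ w in b..b', F i j k z w := by
  rw [box_sum_Chg S₁ (F := fun i z w => ∑ j ∈ S₂, ∑ k ∈ S₃, F i j k z w)
    (fun i hi => cq_sum _ fun j hj => cq_sum _ fun k hk => h i hi j hj k hk) ha haa hb hbb]
  refine sum_congr rfl fun i hi => ?_
  rw [box_sum_Chg S₂ (F := fun j z w => ∑ k ∈ S₃, F i j k z w)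
    (fun j hj => cq_sum _ fun k hk => h i hi j hj k hk) ha haa hb hbb]
  exact sum_congr rfl fun j hj => box_sum_Chg S₃ (h i hi j hj) ha haa hb hbb

lemma box_sub_Chg {F : ℝ → ℝ → ℝ} (h : CQ F) (h0 : ∀ z w, 0 ≤ F z w) {a a' b b' c c' : ℝ}
    (hc : 0 < c) (ha : c ≤ a) (haa : a ≤ a') (ha' : a' ≤ c') (hb : c ≤ b) (hbb : b ≤ b')
    (hb' : b' ≤ c') :
    ∫ z in a..a', ∫ w in b..b', F z w ≤ ∫ z in c..c', ∫ w in c..c', F z w := by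
  have hcc : c ≤ c' := ha.trans (haa.trans ha')
  refine le_trans (intervalIntegral.integral_mono_on haa
    (int_z h (hc.trans_le ha) haa (hc.trans_le hb) hbb) (int_z h (hc.trans_le ha) haa hc hcc)
    fun z hz => ?_) ?_
  · exact intervalIntegral.integral_mono_interval hb hbb hb'
      (Filter.Eventually.of_forall fun w => h0 z w)
      (int_w h ((hc.trans_le ha).trans_le hz.1) hc hcc)
  · exact intervalIntegral.integral_mono_interval ha haa ha'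
      (Filter.Eventually.of_forall fun z => intervalIntegral.integral_nonneg hcc fun w _ => h0 z w)
      (int_z h hc hcc hc hcc)

lemma box_scale_Chg (K : ℝ → ℝ → ℝ) {p q : ℝ} (hp : p ≠ 0) (hq : q ≠ 0) (a a' b b' : ℝ) :
    ∫ z in a..a', ∫ w in b..b', K (z / p) (w / q) =
      p * q * ∫ v in (a / p)..(a' / p), ∫ u in (b / q)..(b' / q), K v u := by
  have h1 : ∀ z, ∫ w in b..b', K (z / p) (w / q) = q * ∫ u in (b / q)..(b' / q), K (z / p) u :=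
    fun z => intervalIntegral.integral_comp_div (K (z / p)) hq
  simp only [h1]
  rw [intervalIntegral.integral_const_mul,
    intervalIntegral.integral_comp_div (fun v => ∫ u in (b / q)..(b' / q), K v u) hp, smul_eq_mul]
  ring

lemma cq_g_Chg {g₁ g₂ g₃ : ℝ → ℝ} (c1 : Per g₁) (c2 : Per g₂) (c3 : Per g₃) :
    CQ fun v w => g₁ (w / v) * g₂ v * g₃ w := by
  have := ((cq_u c1.1 one_pos one_pos).mul (cq_z c2.1 one_pos one_pos)).mul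
    (cq_w c3.1 one_pos one_pos)
  simpa only [mul_one, div_one] using this

lemma range_Chg {M P n k : ℝ} (hM : 0 < M) (hP : 0 < P) (h1 : M ≤ n) (h2 : n ≤ 2 * M) (h3 : P ≤ k)
    (h4 : k ≤ 2 * P) : 1 / 12 ≤ M / P / 6 / (n / k) ∧
      M / P / 6 / (n / k) ≤ 6 * (M / P) / (n / k) ∧ 6 * (M / P) / (n / k) ≤ 12 ∧
      n / k ≤ 2 * (M / P) := by
  have hn : 0 < n := hM.trans_le h1
  have hk : 0 < k := hP.trans_le h3
  have e1 : n / k ≤ 2 * (M / P) := by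
    rw [← mul_div_assoc]
    gcongr
  have e2 : M / P ≤ 2 * (n / k) := by
    rw [← mul_div_assoc, div_le_div_iff₀ hP hk]
    nlinarith
  have e3 : 0 < M / P := by positivity
  have e4 : 0 < n / k := by positivity
  refine ⟨?_, ?_, ?_, e1⟩
  · rw [le_div_iff₀ e4]
    linarith
  · gcongr
    linarith
  · rw [div_le_iff₀ e4]
    linarith

lemma dy_Chg {M : ℕ} {S : Finset ℕ} (h : Dy M S) {n : ℕ} (hn : n ∈ S) :
    (M : ℝ) ≤ n ∧ (n : ℝ) ≤ 2 * M := by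
  have := mem_Ico.1 (h.2 hn)
  exact ⟨by exact_mod_cast this.1, by exact_mod_cast this.2.le⟩

lemma term_Chg (N : ℕ) {M₁ M₂ M₃ n₁ n₂ n₃ : ℝ} (e₁ e₂ e₃ : ℝ) {g₁ g₂ g₃ : ℝ → ℝ} (c1 : Per g₁)
    (c2 : Per g₂) (c3 : Per g₃) (p1 : 0 < M₁) (p2 : 0 < M₂) (p3 : 0 < M₃)
    (h1 : M₁ ≤ n₁ ∧ n₁ ≤ 2 * M₁) (h2 : M₂ ≤ n₂ ∧ n₂ ≤ 2 * M₂) (h3 : M₃ ≤ n₃ ∧ n₃ ≤ 2 * M₃) :
    ∫ z in (M₁ / M₃ / 6)..(6 * (M₁ / M₃)), ∫ w in (M₂ / M₃ / 6)..(6 * (M₂ / M₃)),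
        kp ((N : ℝ) * M₃ * (e₁ * z + e₂ * w + e₃)) *
          (g₁ (w / z * n₁ / n₂) * g₂ (z * n₃ / n₁) * g₃ (w * n₃ / n₂)) ≤
      16 * (M₁ / M₃ * (M₂ / M₃)) * ∫ v in (1 / 12 : ℝ)..12, ∫ w in (1 / 12 : ℝ)..12,
        g₁ (w / v) * g₂ v * g₃ w * kp ((N : ℝ) * (e₁ * n₁ * v + e₂ * n₂ * w + e₃ * n₃)) := by
  have q1 : 0 < n₁ := p1.trans_le h1.1
  have q2 : 0 < n₂ := p2.trans_le h2.1
  have q3 : 0 < n₃ := p3.trans_le h3.1
  obtain ⟨a1, a2, a3, a4⟩ := range_Chg p1 p3 h1.1 h1.2 h3.1 h3.2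
  obtain ⟨b1, b2, b3, b4⟩ := range_Chg p2 p3 h2.1 h2.2 h3.1 h3.2
  have g0 : ∀ v w, 0 ≤ g₁ (w / v) * g₂ v * g₃ w := fun v w =>
    mul_nonneg (mul_nonneg (c1.2.1 _) (c2.2.1 _)) (c3.2.1 _)
  have k1 : CQ fun v w => g₁ (w / v) * g₂ v * g₃ w *
      kp (M₃ / n₃ * ((N : ℝ) * (e₁ * n₁ * v + e₂ * n₂ * w + e₃ * n₃))) :=
    (cq_g_Chg c1 c2 c3).mul (continuous_kp.comp (by fun_prop)).continuousOn
  have k2 : CQ fun v w => g₁ (w / v) * g₂ v * g₃ w *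
      kp ((N : ℝ) * (e₁ * n₁ * v + e₂ * n₂ * w + e₃ * n₃)) :=
    (cq_g_Chg c1 c2 c3).mul (cq_kp _ _ _ _)
  have e := box_scale_Chg (fun v w => g₁ (w / v) * g₂ v * g₃ w *
      kp (M₃ / n₃ * ((N : ℝ) * (e₁ * n₁ * v + e₂ * n₂ * w + e₃ * n₃)))) (div_pos q1 q3).ne'
    (div_pos q2 q3).ne' (M₁ / M₃ / 6) (6 * (M₁ / M₃)) (M₂ / M₃ / 6) (6 * (M₂ / M₃))
  have r1 : ∀ z w : ℝ, w / (n₂ / n₃) / (z / (n₁ / n₃)) = w / z * n₁ / n₂ := fun z w => by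
    rcases eq_or_ne z 0 with rfl | hz
    · simp
    · field_simp
  have r2 : ∀ z n : ℝ, z / (n / n₃) = z * n₃ / n := fun z n => div_div_eq_mul_div _ _ _
  have r3 : ∀ z w : ℝ, M₃ / n₃ * ((N : ℝ) * (e₁ * n₁ * (z / (n₁ / n₃)) +
      e₂ * n₂ * (w / (n₂ / n₃)) + e₃ * n₃)) = (N : ℝ) * M₃ * (e₁ * z + e₂ * w + e₃) :=
    fun z w => by field_simp
  simp only [r1, r3] at e
  simp only [r2 _ n₁, r2 _ n₂, mul_comm _ (kp _)] at e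
  rw [e]
  simp only [← r2, mul_comm (kp _)]
  have s1 := box_sub_Chg k1 (fun v w => mul_nonneg (g0 v w) (kp_pos _).le) (by norm_num)
    a1 a2 a3 b1 b2 b3
  have s2 := box_mono k1 ((cq_const 4).mul k2) (a := 1 / 12) (a' := 12) (b := 1 / 12) (b' := 12)
    (by norm_num) (by norm_num) (by norm_num) (by norm_num) fun v _ w _ => by
      have := kp_mul_le (A := 2) (c := M₃ / n₃) (by norm_num)
        (by rw [abs_of_pos (div_pos p3 q3), ← mul_div_assoc, le_div_iff₀ q3]; linarith [h3.2])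
        ((N : ℝ) * (e₁ * n₁ * v + e₂ * n₂ * w + e₃ * n₃))
      nlinarith [g0 v w]
  simp only [intervalIntegral.integral_const_mul] at s2
  have s3 : 0 ≤ ∫ v in (1 / 12 : ℝ)..12, ∫ w in (1 / 12 : ℝ)..12,
      g₁ (w / v) * g₂ v * g₃ w * kp ((N : ℝ) * (e₁ * n₁ * v + e₂ * n₂ * w + e₃ * n₃)) :=
    intervalIntegral.integral_nonneg (by norm_num) fun v _ =>
      intervalIntegral.integral_nonneg (by norm_num) fun w _ => mul_nonneg (g0 v w) (kp_pos _).le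
  refine (mul_le_mul_of_nonneg_left (s1.trans s2) (by positivity)).trans ?_
  have s4 : n₁ / n₃ * (n₂ / n₃) ≤ 2 * (M₁ / M₃) * (2 * (M₂ / M₃)) := by gcongr
  nlinarith [mul_le_mul_of_nonneg_right s4 s3]

theorem chg_stmt : ChgStmt := by
  refine ⟨16, by norm_num, fun N M₁ M₂ M₃ S₁ S₂ S₃ e₁ e₂ e₃ g₁ g₂ g₃ hB c1 c2 c3 => ?_⟩
  obtain ⟨o1, o2, o3⟩ := hB.one
  obtain ⟨d1, d2, d3, -⟩ := hB
  unfold TB BX TV
  simp only [mul_sum]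
  rw [box_sum3_Chg S₁ S₂ S₃ (F := fun n₁ n₂ n₃ z w => kp ((N : ℝ) * M₃ * (e₁ * z + e₂ * w + e₃)) *
      (g₁ (w / z * n₁ / n₂) * g₂ (z * n₃ / n₁) * g₃ (w * n₃ / n₂)))
    (fun _ a _ b _ c => (cq_kp _ _ _ _).mul (((cq_u c1.1 (Dy.pos d1 a) (Dy.pos d2 b)).mul
      (cq_z c2.1 (Dy.pos d3 c) (Dy.pos d1 a))).mul (cq_w c3.1 (Dy.pos d3 c) (Dy.pos d2 b))))
    (ends_box o1 o3).1 (ends_box o1 o3).2 (ends_box o2 o3).1 (ends_box o2 o3).2,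
    box_sum3_Chg S₁ S₂ S₃ (F := fun n₁ n₂ n₃ v w => g₁ (w / v) * g₂ v * g₃ w *
      kp ((N : ℝ) * (e₁ * n₁ * v + e₂ * n₂ * w + e₃ * n₃)))
    (fun _ _ _ _ _ _ => (cq_g_Chg c1 c2 c3).mul (cq_kp _ _ _ _))
    (by norm_num) (by norm_num) (by norm_num) (by norm_num)]
  simp only [mul_sum]
  exact sum_le_sum fun _ a => sum_le_sum fun _ b => sum_le_sum fun _ c =>
    term_Chg N e₁ e₂ e₃ c1 c2 c3 (by exact_mod_cast o1) (by exact_mod_cast o2)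
      (by exact_mod_cast o3) (dy_Chg d1 a) (dy_Chg d2 b) (dy_Chg d3 c)

theorem swp_stmt : SwpStmt := by
  intro N S₁ S₂ S₃ e₁ e₂ e₃ g₁ g₂ g₃ c1 c2 c3
  unfold TV
  rw [MeasureTheory.intervalIntegral_intervalIntegral_swap]
  · congr 1
    funext v
    congr 1
    funext w
    rw [sum_comm]
    simp only [inv_div, add_comm (e₁ * _ * w)]
    ring
  · have hK : IsCompact (Set.uIcc (1 / 12 : ℝ) 12 ×ˢ Set.uIcc (1 / 12 : ℝ) 12) :=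
      isCompact_uIcc.prod isCompact_uIcc
    have h0 : ∀ x ∈ Set.uIcc (1 / 12 : ℝ) 12, 0 < x := fun x hx => by
      rw [Set.uIcc_of_le (by norm_num)] at hx
      exact lt_of_lt_of_le (by norm_num) hx.1
    refine (ContinuousOn.integrableOn_compact hK ?_).mono_set
      (Set.prod_mono Set.uIoc_subset_uIcc Set.uIoc_subset_uIcc)
    have k : CQ fun v w => g₁ (w / v) * g₂ v * g₃ w * ∑ n₁ ∈ S₁, ∑ n₂ ∈ S₂, ∑ n₃ ∈ S₃,
        kp ((N : ℝ) * (e₁ * n₁ * v + e₂ * n₂ * w + e₃ * n₃)) :=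
      (cq_g_Chg c1 c2 c3).mul
        (cq_sum _ fun _ _ => cq_sum _ fun _ _ => cq_sum _ fun _ _ => cq_kp _ _ _ _)
    exact ContinuousOn.mono k fun p hp => ⟨h0 _ hp.1, h0 _ hp.2⟩

end Pool.Agent.MP_2a1f0e_nt.GM4
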