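import Pool.Agent.MP_2a1f0e_nt.GM4.Basic
import Pool.Agent.MP_2a1f0e_nt.GM3.Dir

set_option autoImplicit false

open Finset

namespace Pool.Agent.MP_2a1f0e_nt.GM4

open GM GM2 GM3

lemma exp_Dat {θ : ℝ} (h : θ ≤ Real.pi) : Real.exp θ ≤ 24 := by
  have h1 : Real.exp θ ≤ Real.exp 1 ^ 3 * Real.exp 0.15 := by
    rw [← Real.exp_nat_mul, ← Real.exp_add]
    exact Real.exp_le_exp.2 (by push_cast; linarith [Real.pi_lt_d2])
  have h2 := Real.exp_bound_div_one_sub_of_interval' (x := 0.15) (by norm_num) (by norm_num)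
  have h3 := Real.exp_one_lt_d9
  refine h1.trans (le_trans (b := 2.72 ^ 3 * (1 / (1 - 0.15))) ?_ (by norm_num))
  gcongr
  linarith

lemma mo_Dat {g G : ℝ → ℝ} (hg : Per g) (hG : Continuous G) (c : ℝ)
    (h1 : ∀ v ∈ Set.Icc (1 / 9 : ℝ) (82 / 9), g v ≤ c * G v)
    (h2 : ∀ θ ∈ Set.Icc (-Real.pi) Real.pi, Real.exp θ ∉ Set.Icc (1 / 9 : ℝ) (82 / 9) →
      g (Real.exp θ) ≤ 0) : mo g ≤ 9 * c * II G := by
  have hab : Real.log (1 / 9) ≤ Real.log (82 / 9) := Real.log_le_log (by norm_num) (by norm_num)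
  have he : (82 / 9 : ℝ) ≤ Real.exp 3 := by
    have := Real.sum_le_exp_of_nonneg (x := 3) (by norm_num) 4
    simp only [sum_range_succ, Nat.factorial] at this
    norm_num at this
    linarith
  have hu : Real.log (82 / 9) ≤ Real.pi :=
    ((Real.log_le_iff_le_exp (by norm_num)).2 he).trans Real.pi_gt_three.le
  have hl : -Real.pi ≤ Real.log (1 / 9) := by
    rw [one_div, Real.log_inv, neg_le_neg_iff]
    exact (Real.log_le_log (by norm_num) (by norm_num)).trans hu
  have i := fun a b => hg.cont.intervalIntegrable (μ := MeasureTheory.volume) a b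
  have a1 := intervalIntegral.integral_mono_on_of_le_Ioo hl (i _ _)
    (intervalIntegrable_const (c := (0 : ℝ))) fun θ h => h2 θ ⟨h.1.le, by linarith [h.2]⟩
      fun k => ((Real.lt_log_iff_exp_lt (by norm_num)).1 h.2).not_ge k.1
  have a2 := intervalIntegral.integral_mono_on_of_le_Ioo hu (i _ _)
    (intervalIntegrable_const (c := (0 : ℝ))) fun θ h => h2 θ ⟨by linarith [h.1], h.2.le⟩
      fun k => ((Real.log_lt_iff_lt_exp (by norm_num)).1 h.1).not_ge k.2
  have a3 := intervalIntegral.integral_comp_mul_deriv (a := Real.log (1 / 9))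
    (b := Real.log (82 / 9)) (fun x _ => Real.hasDerivAt_exp x) Real.continuous_exp.continuousOn hG
  rw [Real.exp_log (by norm_num), Real.exp_log (by norm_num)] at a3
  have a4 := intervalIntegral.integral_mono_on hab (i _ _)
    ((continuous_const.mul ((hG.comp Real.continuous_exp).mul
      Real.continuous_exp)).intervalIntegrable _ _)
    (g := fun θ => 9 * c * ((G ∘ Real.exp) θ * Real.exp θ)) fun θ h => by
      have b1 := (Real.log_le_iff_le_exp (by norm_num)).1 h.1
      have b2 := h1 _ ⟨b1, (Real.le_log_iff_exp_le (by norm_num)).1 h.2⟩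
      have b3 := (hg.2.1 _).trans b2
      simp only [Function.comp]
      nlinarith
  rw [intervalIntegral.integral_const_mul, a3] at a4
  rw [intervalIntegral.integral_zero] at a1 a2
  rw [mo, ← intervalIntegral.integral_add_adjacent_intervals (i _ (Real.log (1 / 9))) (i _ _),
    ← intervalIntegral.integral_add_adjacent_intervals (i _ (Real.log (82 / 9))) (i _ Real.pi), II]
  linarith

theorem dat_stmt (hR : RhoStmt) : DatStmt := by
  obtain ⟨C, hC, hR⟩ := hR
  refine ⟨18 * C + 5, by linarith, ?_⟩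
  intro N M L t Δ B X ν hN hL ht htM hD hM hB hX h1 h2 h3 h4
  obtain ⟨r1, r2⟩ := hR N M Δ hN hD
  have hΔ := hD.1
  have hN0 : (0 : ℝ) < N := by exact_mod_cast hN
  have hM1 : (1 : ℝ) ≤ M := (one_le_pow₀ ht).trans htM
  have k1 : Δ ≤ (18 * C + 5) * Δ := by nlinarith
  have k2 : 18 * C + 5 ≤ (18 * C + 5) * Δ := by nlinarith
  have out : ∀ θ ∈ Set.Icc (-Real.pi) Real.pi, Real.exp θ ∉ Set.Icc (1 / 9 : ℝ) (82 / 9) →
      ph L ν (Real.exp θ) ≤ B := fun θ h k => by
    by_cases k1 : 1 / 9 ≤ Real.exp θ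
    · exact h2 _ ⟨by linarith [not_le.1 fun e => k ⟨k1, e⟩], exp_Dat h.2⟩
    · rw [← ph_inv]
      refine h2 _ ⟨?_, ?_⟩
      · rw [le_inv_comm₀ (by norm_num) (Real.exp_pos _)]
        linarith
      · rw [← Real.exp_neg]
        exact exp_Dat (by linarith [h.1])
  refine ⟨hN, hL, ht, htM, hΔ.trans k1, hB, hX, h3, ?_, ?_, fun v => ?_, ?_, ?_⟩
  · have a := mo_Dat ((per_ph L ν).max (2 * B)) (continuous_rho N M) B
      (fun v hv => max_le (by linarith [show ph L ν v ≤ _ from h1 v hv])
        (mul_nonneg hB (rho_nonneg N M v)))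
      fun θ h k => max_le (by linarith [out θ h k]) le_rfl
    calc _ ≤ M * (9 * B * (C * (M / N))) := by
          gcongr
          exact a.trans (by gcongr)
      _ = 9 * C * ((M : ℝ) ^ 2 / N) * B := by ring
      _ ≤ (18 * C + 5) * Δ * B := by
          gcongr
          · linarith
          · exact (div_le_iff₀ hN0).2 hM
  · have a := mo_Dat (((per_ph L ν).pow 2).max (4 * B ^ 2)) ((continuous_rho N M).pow 2)
      (2 * B ^ 2) (fun v hv => max_le (by
        have := pow_le_pow_left₀ (ph_nonneg L ν v) (h1 v hv) 2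
        simp only [Pi.pow_apply]
        nlinarith [sq_nonneg (B * (1 - rho N M v)), sq_nonneg B])
        (mul_nonneg (by positivity) (sq_nonneg (rho N M v))))
      fun θ h k => max_le (by
        linarith [pow_le_pow_left₀ (ph_nonneg L ν _) (out θ h k) 2, sq_nonneg B]) le_rfl
    calc _ ≤ M * (9 * (2 * B ^ 2) * (C * R2 N M Δ)) := by
          gcongr
          exact a.trans (mul_le_mul_of_nonneg_left r2 (by positivity))
      _ = 18 * C * (M * B ^ 2 * R2 N M Δ) := by ring
      _ ≤ 18 * C * X := by gcongr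
      _ ≤ _ := mul_le_mul_of_nonneg_right (by linarith) hX.le
  · obtain ⟨θ, h, e⟩ := (per_ph L ν).periodic.exists_mem_Ico Real.two_pi_pos (Real.log v)
      (-Real.pi)
    have e' : ph L ν v = ph L ν (Real.exp (Real.log v)) := by simp only [ph, FT, pw, Real.log_exp]
    have b : ph L ν (Real.exp θ) ≤ B * (1 + 4 * M) := by
      by_cases k : Real.exp θ ∈ Set.Icc (1 / 9 : ℝ) (82 / 9)
      · exact (h1 _ k).trans (by gcongr; exact rho_le N M _)
      · exact (out θ ⟨h.1, by linarith [h.2]⟩ k).trans (le_mul_of_one_le_right hB (by linarith))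
    calc _ ≤ B * (1 + 4 * M) := (e'.trans e).trans_le b
      _ ≤ B * (5 * M) := by
          gcongr
          linarith
      _ = 5 * M * B := by ring
      _ ≤ _ := by
          gcongr
          linarith
  · have a : (M : ℝ) / N ≤ R2 N M Δ :=
      le_add_of_nonneg_of_le (by positivity) (by gcongr; nlinarith)
    calc _ ≤ M * M * B ^ 2 := by gcongr
      _ = N * (M * B ^ 2 * (M / N)) := by field_simp
      _ ≤ N * X := by
          gcongr
          exact le_trans (by gcongr) h4
      _ ≤ _ := by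
          gcongr
          exact le_mul_of_one_le_left hN0.le (hΔ.trans k1)
  · calc _ ≤ (M : ℝ) ^ 2 := by nlinarith
      _ ≤ Δ * N := hM
      _ ≤ _ := by gcongr

end Pool.Agent.MP_2a1f0e_nt.GM4
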