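import Pool.Agent.MP_2a1f0e_nt.GM3.Defs
import Pool.Agent.MP_2a1f0e_nt.DH.Basic

set_option autoImplicit false

open Finset

namespace Pool.Agent.MP_2a1f0e_nt.GM4

open GM GM2 GM3

/-- integral over one period in the logarithmic variable -/
noncomputable def mo (g : ℝ → ℝ) : ℝ := ∫ θ in (-Real.pi)..Real.pi, g (Real.exp θ)

/-- continuous on the positive axis, nonnegative, periodic in the logarithm -/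
def Per (g : ℝ → ℝ) : Prop :=
  ContinuousOn g (Set.Ioi 0) ∧ (∀ v, 0 ≤ g v) ∧ ∀ v, 0 < v → g (v * Real.exp (2 * Real.pi)) = g v

/-- integral over a wide interval of integer length `144` -/
noncomputable def IW (f : ℝ → ℝ) : ℝ := ∫ v in (1 / 144 : ℝ)..(1 / 144 + 144), f v

/-- square of the chordal distance -/
noncomputable def ch (t : ℝ) : ℝ := 2 - 2 * Real.cos t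

/-- periodic Poisson type kernel -/
noncomputable def kc (D : ℕ) (t : ℝ) : ℝ := D / (1 + (D : ℝ) ^ 2 * ch t)

/-- multiplicative convolution with `kc` -/
noncomputable def cv (D : ℕ) (F : ℝ → ℝ) (x : ℝ) : ℝ :=
  ∫ t in (-Real.pi)..Real.pi, kc D t * F (x * Real.exp (-t))

/-- `U` is the trigonometric polynomial in `log x` with coefficients `c` -/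
def TP (R : ℕ) (U : ℝ → ℂ) (c : ℤ → ℂ) : Prop :=
  ∀ x : ℝ, 0 < x → U x = ∑ ρ ∈ Io R, c ρ * pw x ρ

noncomputable def ph (L : ℕ) (ν : ℤ → ℝ) (v : ℝ) : ℝ := ‖FT (Io L) ν v‖

/-- squared norm of a row -/
noncomputable def hS (L : ℕ) (ν : ℤ → ℝ) (S : Finset ℕ) (x : ℝ) : ℝ :=
  ∑ n ∈ S, ph L ν (x * n) ^ 2

/-- admissible row weight -/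
def Wg (L : ℕ) (ν : ℤ → ℝ) (S : Finset ℕ) (H : ℝ) (χ : ℝ → ℝ) : Prop :=
  (∃ c : ℤ → ℂ, TP (4 * L) (fun x => (χ x : ℂ)) c) ∧
    ∀ x : ℝ, 0 < x → 0 < χ x ∧ χ x ≤ 1 ∧ χ x ^ 2 * hS L ν S x ≤ H

/-- the kernel integral over the box of a block -/
noncomputable def BX (N M₁ M₂ M₃ : ℕ) (e₁ e₂ e₃ : ℝ) (H : ℝ → ℝ → ℝ) : ℝ :=
  ∫ z in ((M₁ : ℝ) / M₃ / 6)..(6 * (M₁ / M₃)), ∫ w in ((M₂ : ℝ) / M₃ / 6)..(6 * (M₂ / M₃)),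
    kp ((N : ℝ) * M₃ * (e₁ * z + e₂ * w + e₃)) * H z w

noncomputable def TB (N M₁ M₂ M₃ : ℕ) (S₁ S₂ S₃ : Finset ℕ) (e₁ e₂ e₃ : ℝ)
    (g₁ g₂ g₃ : ℝ → ℝ) : ℝ :=
  BX N M₁ M₂ M₃ e₁ e₂ e₃ fun z w => ∑ n₁ ∈ S₁, ∑ n₂ ∈ S₂, ∑ n₃ ∈ S₃,
    g₁ (w / z * n₁ / n₂) * g₂ (z * n₃ / n₁) * g₃ (w * n₃ / n₂)

noncomputable def TV (N : ℕ) (S₁ S₂ S₃ : Finset ℕ) (e₁ e₂ e₃ : ℝ) (g₁ g₂ g₃ : ℝ → ℝ) : ℝ :=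
  ∫ v in (1 / 12 : ℝ)..12, ∫ w in (1 / 12 : ℝ)..12, g₁ (w / v) * g₂ v * g₃ w *
    ∑ n₁ ∈ S₁, ∑ n₂ ∈ S₂, ∑ n₃ ∈ S₃, kp ((N : ℝ) * (e₁ * n₁ * v + e₂ * n₂ * w + e₃ * n₃))

/-- the pair bound for a block -/
noncomputable def PB4 (P Q : ℕ) (Δ : ℝ) (g h : ℝ → ℝ) : ℝ :=
  (P : ℝ) * Q * mo g * mo h +
    √((P : ℝ) * Q) * Δ * √(mo fun v => g v ^ 2) * √(mo fun v => h v ^ 2)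

/-- a signed dyadic block -/
def Bk (M₁ M₂ M₃ : ℕ) (S₁ S₂ S₃ : Finset ℕ) (e₁ e₂ e₃ : ℝ) : Prop :=
  Dy M₁ S₁ ∧ Dy M₂ S₂ ∧ Dy M₃ S₃ ∧ M₁ ≤ M₃ ∧ M₂ ≤ M₃ ∧ Sg e₁ ∧ Sg e₂ ∧ Sg e₃

/-- the product `a * b` of the two ratios -/
noncomputable def ab (M₁ M₂ M₃ : ℕ) : ℝ := (M₁ : ℝ) / M₃ * ((M₂ : ℝ) / M₃)

noncomputable def Bf2 (R M₁ M₂ : ℕ) (κ σ z₀ z₁ : ℝ) (u v : ℤ → ℂ) : ℂ :=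
  Bil (Io R) (fun ρ => u ρ * KK M₁ (-(ρ : ℝ))) (fun ρ => (starRingEnd ℂ) (v ρ) * KK M₂ ρ)
    (fun ρ₁ ρ₂ => Gam κ σ z₀ z₁ ρ₁ ρ₂)

/-- weighted square sum of the inner sums -/
noncomputable def Sq2 (L : ℕ) (ν : ℤ → ℝ) (S₁ S₂ S₃ : Finset ℕ) (γ : ℕ → ℂ) (χ₁ χ₂ : ℝ → ℝ)
    (z w : ℝ) : ℝ :=
  ∑ n₁ ∈ S₁, ∑ n₂ ∈ S₂, χ₁ (z / n₁) * χ₂ (w / n₂) * ‖Inn (Io L) ν S₃ γ z w n₁ n₂‖ ^ 2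

noncomputable def SS (S : Finset ℕ) (u : ℝ) : ℂ := ∑ n ∈ S, pw (n : ℝ) u

/-- the data on the weight `ν` -/
def Dat (N L : ℕ) (ν : ℤ → ℝ) (m t Δ B X : ℝ) : Prop :=
  1 ≤ N ∧ 1 ≤ L ∧ 1 ≤ t ∧ t ^ 2 ≤ m ∧ 1 ≤ Δ ∧ 0 ≤ B ∧ 0 < X ∧ ∑ a ∈ Io L, ν a ^ 2 ≤ X ∧
    m * mo (fun v => max (ph L ν v - 2 * B) 0) ≤ Δ * B ∧
    m * mo (fun v => max (ph L ν v ^ 2 - 4 * B ^ 2) 0) ≤ Δ * X ∧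
    (∀ v, ph L ν v ≤ Δ * m * B) ∧ m * t ^ 2 * B ^ 2 ≤ Δ * N * X ∧ t ^ 2 ≤ Δ * N

/-- bilinear bound with level `m ^ 2 / t ^ 2` -/
def BBH (m t Δ : ℝ) (R : ℕ) : Prop :=
  ∀ (M₁ M₂ : ℕ) (a b κ σ z₀ z₁ Y₁ Y₂ G : ℝ) (I : Finset (ℕ × ℕ)) (u v : ℕ × ℕ → ℤ → ℂ),
    1 ≤ M₁ → (M₁ : ℝ) ≤ m → 1 ≤ M₂ → (M₂ : ℝ) ≤ m → Line a b κ σ z₀ z₁ → 0 ≤ G →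
    ∑ i ∈ I, N2 (Io R) (u i) ≤ Y₁ → ∑ i ∈ I, N2 (Io R) (v i) ≤ Y₂ →
    (∀ ρ ∈ Io R, ∑ i ∈ I, ‖u i ρ‖ ^ 2 ≤ G) → (∀ ρ ∈ Io R, ∑ i ∈ I, ‖v i ρ‖ ^ 2 ≤ G) →
    ∑ i ∈ I, ‖Bf2 R M₁ M₂ κ σ z₀ z₁ (u i) (v i)‖ ≤
      Δ * √(a * b) * (m ^ 2 / t ^ 2 * (√Y₁ * √Y₂) + M₁ * M₂ * G)

/-- bound for the mean term -/
def GH (L : ℕ) (ν : ℤ → ℝ) (m t Δ X : ℝ) : Prop :=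
  ∀ S : Finset ℕ, (∀ n ∈ S, 1 ≤ n ∧ (n : ℝ) ≤ 2 * m) →
    DH.EE (Io L) (fun a => ν a ^ 2) (SS S) ≤ Δ * (m ^ 2 / t ^ 2) * X ^ 2

/-- square root bound for short frequencies -/
def OscB (y Δ : ℝ) : Prop := ∀ M : ℕ, 1 ≤ M → ∀ u : ℤ, |(u : ℝ)| ≤ y ^ 8 →
  ‖KK M (u : ℝ)‖ ≤ Δ * (M * kp u + y ^ 4)

/-- eighth moment over differences -/
def JutB (y Δ : ℝ) (L : ℕ) : Prop := ∀ S : Finset ℕ, (∀ n ∈ S, 1 ≤ n ∧ (n : ℝ) ≤ 2 * y ^ 5) →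
  ∀ g : ℤ → ℝ, (∀ a, 0 ≤ g a) → DH.EE (Io L) g (fun u => SS S u ^ 4) ≤
    Δ * (y ^ 40 * ∑ a ∈ Io L, g a ^ 2 + y ^ 20 * (∑ a ∈ Io L, g a) ^ 2)

/-! ### pair bounds on a block -/

def BesWStmt : Prop := ∀ g : ℝ → ℝ, ContinuousOn g (Set.Icc (1 / 144 : ℝ) (1 / 144 + 144)) →
  ∀ s : Finset ℤ,
    ∑ ξ ∈ s, ‖∫ v in (1 / 144 : ℝ)..(1 / 144 + 144), (g v : ℂ) * ex ((ξ : ℝ) * v)‖ ^ 2 ≤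
      144 * IW (fun v => g v ^ 2)

def PairWStmt : Prop := ∃ C : ℝ, 0 < C ∧ ∀ (N P Q : ℕ) (Δ : ℝ), 1 ≤ N → DivB (N * P) Δ →
  DivB (N * Q) Δ → ∀ g h : ℝ → ℝ, ContinuousOn g (Set.Icc (1 / 144 : ℝ) (1 / 144 + 144)) →
    ContinuousOn h (Set.Icc (1 / 144 : ℝ) (1 / 144 + 144)) → (∀ v, 0 ≤ g v) → (∀ v, 0 ≤ h v) →
    IW (fun v => IW fun w => g v * h w *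
        ∑ m ∈ Ms P, ∑ m' ∈ Ms Q, Ph N ((m : ℝ) * v + (m' : ℝ) * w)) ≤
      C * ((P : ℝ) * Q / N * IW g * IW h +
        √((P : ℝ) * Q) * Δ / N * √(IW fun v => g v ^ 2) * √(IW fun v => h v ^ 2))

def IWStmt : Prop := ∃ C : ℝ, 0 < C ∧ ∀ g : ℝ → ℝ, Per g →
  IW g ≤ C * mo g ∧ IW (fun v => g v⁻¹) ≤ C * mo g

def MoStmt : Prop := ∀ (L : ℕ) (ν : ℤ → ℝ), Per (ph L ν) ∧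
  mo (fun v => ph L ν v ^ 2) = 2 * Real.pi * ∑ a ∈ Io L, ν a ^ 2

def ChgStmt : Prop := ∃ C : ℝ, 0 < C ∧ ∀ (N M₁ M₂ M₃ : ℕ) (S₁ S₂ S₃ : Finset ℕ) (e₁ e₂ e₃ : ℝ)
  (g₁ g₂ g₃ : ℝ → ℝ), Bk M₁ M₂ M₃ S₁ S₂ S₃ e₁ e₂ e₃ → Per g₁ → Per g₂ → Per g₃ →
  TB N M₁ M₂ M₃ S₁ S₂ S₃ e₁ e₂ e₃ g₁ g₂ g₃ ≤
    C * ab M₁ M₂ M₃ * TV N S₁ S₂ S₃ e₁ e₂ e₃ g₁ g₂ g₃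

def SwpStmt : Prop := ∀ (N : ℕ) (S₁ S₂ S₃ : Finset ℕ) (e₁ e₂ e₃ : ℝ) (g₁ g₂ g₃ : ℝ → ℝ),
  Per g₁ → Per g₂ → Per g₃ →
  TV N S₁ S₂ S₃ e₁ e₂ e₃ g₁ g₂ g₃ = TV N S₂ S₁ S₃ e₂ e₁ e₃ (fun v => g₁ v⁻¹) g₃ g₂

def TVaStmt : Prop := ∃ C : ℝ, 0 < C ∧ ∀ (N M₁ M₂ : ℕ) (S₁ S₂ S₃ : Finset ℕ) (e₁ e₂ e₃ Δ : ℝ)
  (g h : ℝ → ℝ), 1 ≤ N → Dy M₁ S₁ → Dy M₂ S₂ → Sg e₁ → Sg e₂ → Sg e₃ →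
  DivB (N * (2 * M₁)) Δ → DivB (N * (2 * M₂)) Δ → Per g → Per h →
  TV N S₁ S₂ S₃ e₁ e₂ e₃ (fun _ => 1) g h ≤ C * (PB4 M₁ M₂ Δ g h / N)

def TVbStmt : Prop := ∃ C : ℝ, 0 < C ∧ ∀ (N M₂ M₃ : ℕ) (S₁ S₂ S₃ : Finset ℕ) (e₁ e₂ e₃ Δ : ℝ)
  (g h : ℝ → ℝ), 1 ≤ N → Dy M₂ S₂ → Dy M₃ S₃ → Sg e₁ → Sg e₂ → Sg e₃ →
  DivB (N * (2 * M₂)) Δ → DivB (N * (2 * M₃)) Δ → Per g → Per h →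
  TV N S₁ S₂ S₃ e₁ e₂ e₃ g h (fun _ => 1) ≤ C * (PB4 M₂ M₃ Δ g h / N)

def TVoStmt : Prop := ∃ C : ℝ, 0 < C ∧ ∀ (N M₁ M₂ M₃ : ℕ) (S₁ S₂ S₃ : Finset ℕ) (e₁ e₂ e₃ : ℝ)
  (h : ℝ → ℝ), 1 ≤ N → Dy M₁ S₁ → Dy M₂ S₂ → Dy M₃ S₃ → Sg e₂ → Per h →
  TV N S₁ S₂ S₃ e₁ e₂ e₃ (fun _ => 1) h (fun _ => 1) ≤ C * (M₁ * M₃ * mo h / N)

def BPStmt : Prop := ∃ C : ℝ, 0 < C ∧ ∀ (N M₁ M₂ M₃ : ℕ) (S₁ S₂ S₃ : Finset ℕ) (e₁ e₂ e₃ Δ : ℝ)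
  (g h : ℝ → ℝ), 1 ≤ N → Bk M₁ M₂ M₃ S₁ S₂ S₃ e₁ e₂ e₃ → DivB (N * (2 * M₃)) Δ → Per g → Per h →
  TB N M₁ M₂ M₃ S₁ S₂ S₃ e₁ e₂ e₃ (fun _ => 1) g h ≤ C * (ab M₁ M₂ M₃ / N * PB4 M₁ M₂ Δ g h) ∧
  TB N M₁ M₂ M₃ S₁ S₂ S₃ e₁ e₂ e₃ g h (fun _ => 1) ≤ C * (ab M₁ M₂ M₃ / N * PB4 M₂ M₃ Δ g h) ∧
  TB N M₁ M₂ M₃ S₁ S₂ S₃ e₁ e₂ e₃ g (fun _ => 1) h ≤ C * (ab M₁ M₂ M₃ / N * PB4 M₁ M₃ Δ g h) ∧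
  TB N M₁ M₂ M₃ S₁ S₂ S₃ e₁ e₂ e₃ (fun _ => 1) h (fun _ => 1) ≤
    C * (ab M₁ M₂ M₃ / N * (M₁ * M₃ * mo h)) ∧
  TB N M₁ M₂ M₃ S₁ S₂ S₃ e₁ e₂ e₃ (fun _ => 1) (fun _ => 1) h ≤
    C * (ab M₁ M₂ M₃ / N * (M₂ * M₃ * mo h))

/-! ### the row weight -/

def JackStmt : Prop := ∃ C : ℝ, 0 < C ∧ ∀ D : ℕ, 1 ≤ D → ∃ (J : ℝ → ℝ) (c : ℤ → ℂ),
  (∀ t, (J t : ℂ) = ∑ j ∈ Io (2 * D), c j * Complex.exp (Complex.I * j * t)) ∧ (∀ t, 0 ≤ J t) ∧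
  ∫ t in (-Real.pi)..Real.pi, J t = 1 ∧
  ∫ t in (-Real.pi)..Real.pi, J t * (1 + (D : ℝ) ^ 2 * ch t) ≤ C

def RepStmt : Prop := ∃ C : ℝ, 0 < C ∧ ∀ D : ℕ, 1 ≤ D → ∀ (h : ℝ → ℝ) (c : ℤ → ℂ),
  TP D (fun x => (h x : ℂ)) c → (∀ x, 0 ≤ h x) → ∀ x : ℝ, 0 < x → h x ≤ C * cv D h x

def ModStmt : Prop := ∀ (D : ℕ) (h : ℝ → ℝ), Per h → ∀ x : ℝ, 0 < x → ∀ t : ℝ,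
  cv D h x ≤ 2 * (1 + (D : ℝ) ^ 2 * ch t) * cv D h (x * Real.exp (-t))

def CvStmt : Prop := ∃ C : ℝ, 0 < C ∧ ∀ (D : ℕ) (F : ℝ → ℝ), Per F →
  Per (cv D F) ∧ mo (cv D F) ≤ C * mo F ∧
    ∀ β : ℝ, (∀ v, 0 < v → F v ≤ β) → ∀ v, 0 < v → cv D F v ≤ C * β

def HtpStmt : Prop := ∀ (L : ℕ) (ν : ℤ → ℝ) (S : Finset ℕ), (∀ n ∈ S, 1 ≤ n) →
  Per (hS L ν S) ∧ (∃ c : ℤ → ℂ, TP (2 * L) (fun x => (hS L ν S x : ℂ)) c) ∧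
    ∀ (D : ℕ) (x : ℝ), 0 < x →
      cv D (hS L ν S) x = ∑ n ∈ S, cv D (fun v => ph L ν v ^ 2) (x * n)

def WtStmt : Prop := ∃ C : ℝ, 1 ≤ C ∧ ∀ (L : ℕ) (ν : ℤ → ℝ) (S : Finset ℕ) (H : ℝ), 1 ≤ L →
  (∀ n ∈ S, 1 ≤ n) → 0 < H → ∃ χ : ℝ → ℝ, Wg L ν S (C * H) χ ∧
    ∀ x : ℝ, 0 < x → 1 / χ x ^ 2 ≤ 1 + C * (cv (2 * L) (hS L ν S) x / H)

/-! ### the weighted square sum -/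

def TPmStmt : Prop := ∀ (R R' : ℕ) (U U' : ℝ → ℂ) (c c' : ℤ → ℂ), TP R U c → TP R' U' c' →
  ∃ d : ℤ → ℂ, TP (R + R') (fun x => U x * U' x) d

def TPpStmt : Prop := ∀ (R : ℕ) (U : ℝ → ℂ) (c : ℤ → ℂ), TP R U c →
  2 * Real.pi * N2 (Io R) c = mo (fun x => ‖U x‖ ^ 2) ∧
  ∀ ρ ∈ Io R, 2 * Real.pi * c ρ =
    ∫ θ in (-Real.pi)..Real.pi, U (Real.exp θ) * Complex.exp (-(Complex.I * ρ * θ))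

/-- two dimensional Parseval identity -/
def EEpStmt : Prop := ∀ (L : ℕ) (ν : ℤ → ℝ) (S : Finset ℕ), (∀ n ∈ S, 1 ≤ n) →
  ∫ θ in (-Real.pi)..Real.pi, ∫ θ' in (-Real.pi)..Real.pi,
      ‖∑ n ∈ S, FT (Io L) ν (Real.exp θ * n) *
        (starRingEnd ℂ) (FT (Io L) ν (Real.exp θ' * n))‖ ^ 2 =
    (2 * Real.pi) ^ 2 * DH.EE (Io L) (fun a => ν a ^ 2) (SS S)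

def GY4Stmt : Prop := ∀ (L : ℕ) (ν : ℤ → ℝ) (S : Finset ℕ) (H X : ℝ) (χ : ℝ → ℝ),
  (∀ n ∈ S, 1 ≤ n) → Wg L ν S H χ → ∑ a ∈ Io L, ν a ^ 2 ≤ X → ∃ u : ℕ × ℕ → ℤ → ℂ,
    (∀ i ∈ S ×ˢ S, TP (6 * L) (fun x => (χ x : ℂ) * (FT (Io L) ν (x * i.1) *
      (starRingEnd ℂ) (FT (Io L) ν (x * i.2)))) (u i)) ∧
    ∑ i ∈ S ×ˢ S, N2 (Io (6 * L)) (u i) ≤ H * (S.card * X) ∧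
    ∀ ρ ∈ Io (6 * L), ∑ i ∈ S ×ˢ S, ‖u i ρ‖ ^ 2 ≤ DH.EE (Io L) (fun a => ν a ^ 2) (SS S)

def Exp4Stmt : Prop := ∀ (a b κ σ z₀ z₁ : ℝ) (L R M₁ M₂ : ℕ) (S₁ S₂ S₃ : Finset ℕ) (γ : ℕ → ℂ)
  (ν : ℤ → ℝ) (χ₁ χ₂ : ℝ → ℝ) (u v : ℕ × ℕ → ℤ → ℂ), Line a b κ σ z₀ z₁ → Dy M₁ S₁ → Dy M₂ S₂ →
  (∀ n ∈ S₃, 1 ≤ n) → (∀ n ∈ S₃, ‖γ n‖ ≤ 1) → (∀ x, 0 < x → 0 ≤ χ₁ x) → (∀ x, 0 < x → 0 ≤ χ₂ x) →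
  ContinuousOn χ₁ (Set.Ioi 0) → ContinuousOn χ₂ (Set.Ioi 0) →
  (∀ i ∈ S₃ ×ˢ S₃, TP R (fun x => (χ₁ x : ℂ) * (FT (Io L) ν (x * i.1) *
    (starRingEnd ℂ) (FT (Io L) ν (x * i.2)))) (u i)) →
  (∀ i ∈ S₃ ×ˢ S₃, TP R (fun x => (χ₂ x : ℂ) * (FT (Io L) ν (x * i.1) *
    (starRingEnd ℂ) (FT (Io L) ν (x * i.2)))) (v i)) →
  ∫ z in z₀..z₁, Sq2 L ν S₁ S₂ S₃ γ χ₁ χ₂ z (κ + σ * z) ≤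
    ∑ i ∈ S₃ ×ˢ S₃, ‖Bf2 R M₁ M₂ κ σ z₀ z₁ (u i) (v i)‖

def I4Stmt : Prop := ∃ C : ℝ, 0 < C ∧ ∀ (N L M₁ M₂ M₃ : ℕ) (S₁ S₂ S₃ : Finset ℕ)
  (e₁ e₂ e₃ m t Δ B X k : ℝ) (ν : ℤ → ℝ) (γ : ℕ → ℂ) (χ₁ χ₂ : ℝ → ℝ),
  Bk M₁ M₂ M₃ S₁ S₂ S₃ e₁ e₂ e₃ → (M₃ : ℝ) ≤ m → Dat N L ν m t Δ B X → BBH m t Δ (6 * L) →
  GH L ν m t Δ X → (∀ n ∈ S₃, ‖γ n‖ ≤ 1) → 1 ≤ k →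
  Wg L ν S₃ (k * ((M₃ : ℝ) ^ 2 * X / M₁)) χ₁ → Wg L ν S₃ (k * ((M₃ : ℝ) ^ 2 * X / M₂)) χ₂ →
  BX N M₁ M₂ M₃ e₁ e₂ e₃ (Sq2 L ν S₁ S₂ S₃ γ χ₁ χ₂) ≤
    C * k * Δ ^ 3 * (m ^ 2 / t ^ 2 * (M₃ * X ^ 2 / N))

/-! ### the two positive parts -/

def J0Stmt : Prop := ∃ C : ℝ, 0 < C ∧ ∀ (N L M₁ M₂ M₃ : ℕ) (S₁ S₂ S₃ : Finset ℕ)
  (e₁ e₂ e₃ A X : ℝ) (ν : ℤ → ℝ), 1 ≤ N → Bk M₁ M₂ M₃ S₁ S₂ S₃ e₁ e₂ e₃ → 0 ≤ A →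
  ∑ a ∈ Io L, ν a ^ 2 ≤ X →
  BX N M₁ M₂ M₃ e₁ e₂ e₃
      (fun z w => ∑ n₁ ∈ S₁, ∑ n₂ ∈ S₂, min (ph L ν (w / z * n₁ / n₂)) A ^ 2) ≤
    C * ab M₁ M₂ M₃ ^ 2 * (M₃ * X / N + A ^ 2 / (N : ℝ) ^ 2)

def J4Stmt : Prop := ∃ C : ℝ, 0 < C ∧ ∀ (N L M₁ M₂ M₃ : ℕ) (S₁ S₂ S₃ : Finset ℕ)
  (e₁ e₂ e₃ m t Δ B X : ℝ) (ν : ℤ → ℝ), Bk M₁ M₂ M₃ S₁ S₂ S₃ e₁ e₂ e₃ → (M₃ : ℝ) ≤ m →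
  Dat N L ν m t Δ B X → DivB (N * (2 * M₃)) Δ →
  BX N M₁ M₂ M₃ e₁ e₂ e₃ (fun z w => ∑ n₁ ∈ S₁, ∑ n₂ ∈ S₂,
      min (ph L ν (w / z * n₁ / n₂)) (√(ab M₁ M₂ M₃) * (t * √X)) ^ 2 *
        (1 + cv (2 * L) (hS L ν S₃) (z / n₁) / ((M₃ : ℝ) ^ 2 * X / M₁) +
          cv (2 * L) (hS L ν S₃) (w / n₂) / ((M₃ : ℝ) ^ 2 * X / M₂))) ≤
    C * Δ * ab M₁ M₂ M₃ ^ 2 * ((M₃ * X + t * √X * B) / N)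

def ShpStmt : Prop := ∃ C : ℝ, 0 < C ∧ ∀ (N L M₁ M₂ M₃ : ℕ) (S₁ S₂ S₃ : Finset ℕ)
  (e₁ e₂ e₃ m t Δ B X : ℝ) (ν : ℤ → ℝ), Bk M₁ M₂ M₃ S₁ S₂ S₃ e₁ e₂ e₃ → (M₃ : ℝ) ≤ m →
  Dat N L ν m t Δ B X → DivB (N * (2 * M₃)) Δ →
  TB N M₁ M₂ M₃ S₁ S₂ S₃ e₁ e₂ e₃ (fun v => max (ph L ν v - √(ab M₁ M₂ M₃) * (t * √X)) 0)
      (ph L ν) (ph L ν) ≤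
    C * Δ ^ 3 * (ab M₁ M₂ M₃ / N * (m ^ 2 / t * (X * √X) + m * B * X))

/-- Cauchy-Schwarz on the box -/
def CSStmt : Prop := ∀ (N M₁ M₂ M₃ : ℕ) (e₁ e₂ e₃ : ℝ) (F G H K : ℝ → ℝ → ℝ), 1 ≤ M₁ → 1 ≤ M₂ →
  1 ≤ M₃ → ContinuousOn (fun p : ℝ × ℝ => F p.1 p.2) (Set.Ioi 0 ×ˢ Set.Ioi 0) →
  ContinuousOn (fun p : ℝ × ℝ => G p.1 p.2) (Set.Ioi 0 ×ˢ Set.Ioi 0) →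
  ContinuousOn (fun p : ℝ × ℝ => H p.1 p.2) (Set.Ioi 0 ×ˢ Set.Ioi 0) →
  ContinuousOn (fun p : ℝ × ℝ => K p.1 p.2) (Set.Ioi 0 ×ˢ Set.Ioi 0) →
  (∀ z w τ : ℝ, 0 < z → 0 < w → 0 < τ → 0 ≤ G z w ∧ 0 ≤ H z w ∧
    F z w ≤ (τ * G z w + H z w / τ) / 2 + K z w) →
  BX N M₁ M₂ M₃ e₁ e₂ e₃ F ≤ √(BX N M₁ M₂ M₃ e₁ e₂ e₃ G) * √(BX N M₁ M₂ M₃ e₁ e₂ e₃ H) +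
    BX N M₁ M₂ M₃ e₁ e₂ e₃ K

def Blk4Stmt : Prop := ∃ C : ℝ, 0 < C ∧ ∀ (N L M₁ M₂ M₃ : ℕ) (S₁ S₂ S₃ : Finset ℕ)
  (e₁ e₂ e₃ m t Δ B X : ℝ) (ν : ℤ → ℝ), Bk M₁ M₂ M₃ S₁ S₂ S₃ e₁ e₂ e₃ → (M₃ : ℝ) ≤ m →
  Dat N L ν m t Δ B X → DivB (N * (2 * M₃)) Δ → BBH m t Δ (6 * L) → GH L ν m t Δ X →
  ‖Qb N (Io L) ν S₁ S₂ S₃ e₁ e₂ e₃‖ ≤ C * Δ ^ 3 * ((m ^ 2 / t * (X * √X) + m * B * X) / N)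

def Q5Stmt : Prop := ∃ C : ℝ, 0 < C ∧ ∀ (N L M : ℕ) (m t Δ B X : ℝ) (ν : ℤ → ℝ), (M : ℝ) ≤ m →
  Dat N L ν m t Δ B X → DivB (N * (2 * M)) Δ → BBH m t Δ (6 * L) → GH L ν m t Δ X →
  ‖Q3 N M (Io L) ν‖ ≤ C * Δ ^ 6 * (N : ℝ) ^ 2 * (m ^ 2 / t * (X * √X) + m * B * X)

def DatStmt : Prop := ∃ C : ℝ, 1 ≤ C ∧ ∀ (N M L : ℕ) (t Δ B X : ℝ) (ν : ℤ → ℝ), 1 ≤ N → 1 ≤ L →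
  1 ≤ t → t ^ 2 ≤ M → DivB (N * M) Δ → (M : ℝ) ^ 2 ≤ Δ * N → 0 ≤ B → 0 < X →
  (∀ v ∈ Set.Icc (1 / 9 : ℝ) (82 / 9), ‖FT (Io L) ν v‖ ≤ B * (1 + rho N M v)) →
  (∀ v ∈ Set.Icc (9 : ℝ) 24, ‖FT (Io L) ν v‖ ≤ B) → ∑ a ∈ Io L, ν a ^ 2 ≤ X →
  M * B ^ 2 * R2 N M Δ ≤ X → Dat N L ν M t (C * Δ) B X

def PtWStmt : Prop := ∃ C : ℝ, 0 < C ∧ ∀ N L : ℕ, 1 ≤ N → 1 ≤ L →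
  ∀ b : ℕ → ℂ, (∀ n, ‖b n‖ ≤ 1) → ∀ v ∈ Set.Icc (9 : ℝ) 24,
    ‖FT (Ioo (-(L : ℤ)) L) (fun u => ((L : ℝ) - |(u : ℝ)|) / L * ‖DP N b (u : ℝ)‖ ^ 2) v‖ ≤
      C * (N : ℝ) ^ 2

/-! ### the bilinear bound at level `y ^ 8` -/

def Gam4Stmt : Prop := ∃ C : ℝ, 0 < C ∧ ∀ a b κ σ z₀ z₁ : ℝ, Line a b κ σ z₀ z₁ →
  ∀ ρ₁ ρ₂ : ℝ, ‖Gam κ σ z₀ z₁ ρ₁ ρ₂‖ ^ 2 * (1 + |ρ₁| + |ρ₂|) ≤ C * (a * b)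

def GL4Stmt : Prop := ∃ C : ℝ, 0 < C ∧ ∀ a b κ σ z₀ z₁ : ℝ, Line a b κ σ z₀ z₁ →
  ∀ (D : Finset ℤ) (u v : ℤ → ℂ),
    ‖Bil D u v (fun ρ₁ ρ₂ => Gam κ σ z₀ z₁ ρ₁ ρ₂)‖ ≤ C * √(a * b) * √(N2 D u) * √(N2 D v)

def Osc4Stmt : Prop := ∀ δ : ℝ, 0 < δ → ∃ C : ℝ, 1 ≤ C ∧ ∀ y : ℝ, 1 ≤ y → OscB y (C * y ^ δ)

def Near4Stmt : Prop := ∃ C : ℝ, 1 ≤ C ∧ ∀ y Δ : ℝ, 1 ≤ y → 1 ≤ Δ → OscB y Δ → ∀ M₁ M₂ : ℕ,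
  1 ≤ M₁ → (M₁ : ℝ) ≤ y ^ 5 → 1 ≤ M₂ → (M₂ : ℝ) ≤ y ^ 5 → ∀ ρ₁ ρ₂ : ℤ,
    C * Δ ^ 2 * y ^ 8 < ‖KK M₁ (-(ρ₁ : ℝ))‖ * ‖KK M₂ ρ₂‖ →
    (Pk (C * Δ) M₁ (-(ρ₁ : ℝ)) ∧ Pk (C * Δ) M₂ ρ₂) ∨
      (Pk (C * Δ) M₁ (-(ρ₁ : ℝ)) ∧ y ^ 5 ≤ |(ρ₂ : ℝ)|) ∨
      (y ^ 5 ≤ |(ρ₁ : ℝ)| ∧ Pk (C * Δ) M₂ ρ₂) ∨ y ^ 8 ≤ max |(ρ₁ : ℝ)| |(ρ₂ : ℝ)|

def Far4Stmt : Prop := ∃ C : ℝ, 0 < C ∧ ∀ (y lam Δ : ℝ) (M₁ M₂ R X : ℕ), 1 ≤ y → 1 ≤ M₁ →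
  (M₁ : ℝ) ≤ y ^ 5 → 1 ≤ M₂ → (M₂ : ℝ) ≤ y ^ 5 → (R : ℝ) ≤ 8 * y ^ 30 → 729 * y ^ 30 ≤ X →
  DivB X Δ → y ^ 8 ≤ lam →
  ∑ ρ₁ ∈ Io R, ∑ ρ₂ ∈ Io R,
    (if lam < ‖KK M₁ (-(ρ₁ : ℝ))‖ * ‖KK M₂ ρ₂‖ ∧ y ^ 8 ≤ max |(ρ₁ : ℝ)| |(ρ₂ : ℝ)| then
      (‖KK M₁ (-(ρ₁ : ℝ))‖ * ‖KK M₂ ρ₂‖) ^ 2 / (1 + |(ρ₁ : ℝ)| + |(ρ₂ : ℝ)|) else 0) ≤
    C * Δ ^ 13 * lam ^ 2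

def BB4Stmt : Prop := ∃ C : ℝ, 1 ≤ C ∧ ∀ (y Δ : ℝ) (R X : ℕ), 1 ≤ y → (R : ℝ) ≤ 8 * y ^ 30 →
  729 * y ^ 30 ≤ X → DivB X Δ → OscB y Δ → BBH (y ^ 5) y (C * Δ ^ 9) R

/-! ### the mean term -/

def Jut4Stmt : Prop := ∀ δ : ℝ, 0 < δ → ∃ C : ℝ, 1 ≤ C ∧ ∀ (y : ℝ) (M L : ℕ), 1 ≤ y →
  y ^ 5 = M → (L : ℝ) ≤ y ^ 30 → JutB y (C * y ^ δ) L

def G4Stmt : Prop := ∀ (y Δ X : ℝ) (L : ℕ) (ν : ℤ → ℝ), 1 ≤ y → 1 ≤ Δ → JutB y Δ L →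
  ∑ a ∈ Io L, ν a ^ 2 ≤ X → (∀ a ∈ Io L, |ν a| ≤ √X / y ^ 4) → GH L ν (y ^ 5) y (3 * Δ) X

/-! ### the end of the proof -/

def Q6Stmt : Prop := ∃ C : ℝ, 0 < C ∧ ∀ (N M L Xd : ℕ) (Δ B X y : ℝ) (ν : ℤ → ℝ), 1 ≤ N →
  1 ≤ L → 1 ≤ y → y ^ 5 = M → (L : ℝ) ≤ y ^ 30 → N * (2 * M) ≤ Xd → 729 * y ^ 30 ≤ Xd →
  DivB Xd Δ → OscB y Δ → JutB y Δ L → (M : ℝ) ^ 2 ≤ Δ * N → 0 ≤ B → 0 < X →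
  (∀ v ∈ Set.Icc (1 / 9 : ℝ) (82 / 9), ‖FT (Io L) ν v‖ ≤ B * (1 + rho N M v)) →
  (∀ v ∈ Set.Icc (9 : ℝ) 24, ‖FT (Io L) ν v‖ ≤ B) → ∑ a ∈ Io L, ν a ^ 2 ≤ X →
  (∀ a ∈ Io L, |ν a| ≤ √X / y ^ 4) → M * B ^ 2 * R2 N M Δ ≤ X →
  ‖Q3 N M (Io L) ν‖ ≤ C * (N : ℝ) ^ 2 * (Δ ^ 54 * (y ^ 9 * (X * √X) + y ^ 5 * B * X))

def Set4Stmt : Prop := ∀ δ C₀ : ℝ, 0 < δ → δ ≤ 1 / 4 → 1 ≤ C₀ → ∃ C : ℝ, 1 ≤ C ∧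
  ∀ (N T M : ℕ) (y : ℝ), 1 ≤ N → N ≤ T → T ^ 21 ≤ N ^ 26 → 1 ≤ y → y ^ 5 = M →
    (M : ℝ) ≤ C₀ * (N : ℝ) ^ δ * (T / N) → ((2 * T : ℕ) : ℝ) ≤ y ^ 30 →
    DivB (N * (2 * M) + 729 * M ^ 6) (C * (N : ℝ) ^ δ) ∧ OscB y (C * (N : ℝ) ^ δ) ∧
      JutB y (C * (N : ℝ) ^ δ) (2 * T) ∧ (M : ℝ) ^ 2 ≤ C * (N : ℝ) ^ δ * N

def Num4Stmt : Prop := ∀ δ C : ℝ, 0 < δ → 1 ≤ C → ∃ K : ℝ, 0 < K ∧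
  ∀ (N T M : ℕ) (Δ B X y : ℝ), 1 ≤ N → N ≤ T → T ^ 21 ≤ N ^ 26 → 1 ≤ y → y ^ 5 = M →
    (M : ℝ) ≤ C * (N : ℝ) ^ δ * (T / N) → 1 ≤ Δ → Δ ≤ C * (N : ℝ) ^ δ → 0 ≤ B →
    B ≤ C * (N : ℝ) ^ δ * (N : ℝ) ^ 2 → 0 ≤ X →
    (X ≤ y ^ 8 * (T * (N : ℝ) ^ 2) ∨ X ≤ M * B ^ 2 * R2 N M Δ ∨ X ^ 3 ≤ C * (N : ℝ) ^ 3 *
      ((N : ℝ) ^ 2 * (Δ ^ 54 * (y ^ 9 * (X * √X) + y ^ 5 * B * X)) +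
        (N : ℝ) ^ δ * (T * (N : ℝ) ^ 3) * X)) →
    X ≤ K * (N : ℝ) ^ (40 * δ) * (√T * (N : ℝ) ^ 3)

def B5Stmt : Prop := ∀ ε : ℝ, 0 < ε → ∃ K : ℝ, 0 < K ∧ ∀ N T : ℕ, 1 ≤ N → N ≤ T →
  T ^ 21 ≤ N ^ 26 → ∀ b : ℕ → ℂ, (∀ n, ‖b n‖ ≤ 1) → ∀ V : ℝ, 0 < V →
    Mass N b (Icc 0 (T : ℤ)) V ≤ K * (N : ℝ) ^ ε * ((N : ℝ) ^ 2 + √T * (N : ℝ) ^ 3 / V ^ 2)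

def Int4Stmt : Prop := ∀ ε : ℝ, 0 < ε → ∃ K : ℝ, 0 < K ∧ ∀ N T : ℕ, 1 ≤ N → N ≤ T →
  ∀ b : ℕ → ℂ, (∀ n, ‖b n‖ ≤ 1) → ∀ V : ℝ, 0 < V →
    Mass N b (Icc 0 (T : ℤ)) V ≤ K * (N : ℝ) ^ ε *
      ((N : ℝ) ^ 2 + (√T * (N : ℝ) ^ 3 + T * (N : ℝ) ^ (50 / 21 : ℝ)) / V ^ 2)

def Final4Stmt : Prop := ∀ ε : ℝ, 0 < ε → ∃ K : ℝ, ∀ (N : ℕ) (T V : ℝ), 1 ≤ N → (N : ℝ) ≤ T →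
  0 < V → ∀ b : ℕ → ℂ, (∀ n, ‖b n‖ ≤ 1) → ∀ W : Finset ℝ, (∀ t ∈ W, 0 ≤ t ∧ t ≤ T) →
    (∀ s ∈ W, ∀ t ∈ W, s ≠ t → 1 ≤ |s - t|) → (∀ t ∈ W, V ≤ ‖DP N b t‖) →
    (W.card : ℝ) ≤ K * (N : ℝ) ^ ε * ((N : ℝ) ^ 2 / V ^ 2 + √T * (N : ℝ) ^ 3 / V ^ 4 +
      T * (N : ℝ) ^ (50 / 21 : ℝ) / V ^ 4)

end Pool.Agent.MP_2a1f0e_nt.GM4
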