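import Pool.Agent.MP_2a1f0e_nt.GM4.Basic
import Pool.Agent.MP_2a1f0e_nt.GM2.CV

set_option autoImplicit false

open Finset

namespace Pool.Agent.MP_2a1f0e_nt.GM4

open GM GM2 GM3

lemma orth_EEp (k : ℤ) :
    ∫ θ in (-Real.pi)..Real.pi, Complex.exp (Complex.I * (k : ℂ) * (θ : ℂ)) =
      if k = 0 then (2 * Real.pi : ℂ) else 0 := by
  split_ifs with h
  · subst h
    simp [two_mul]
  · rw [integral_exp_mul_complex (mul_ne_zero Complex.I_ne_zero (Int.cast_ne_zero.2 h))]
    have e : Complex.I * (k : ℂ) * ((Real.pi : ℝ) : ℂ) =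
        Complex.I * (k : ℂ) * ((-Real.pi : ℝ) : ℂ) + k * (2 * Real.pi * Complex.I) := by
      push_cast
      ring
    rw [e, Complex.exp_add, Complex.exp_int_mul_two_pi_mul_I, mul_one, sub_self, zero_div]

lemma pars_EEp (D : Finset ℤ) (c : ℤ → ℂ) :
    ∫ θ in (-Real.pi)..Real.pi, P_CV D c θ = 2 * Real.pi * N2 D c := by
  apply Complex.ofReal_injective
  rw [← intervalIntegral.integral_ofReal, N2]
  simp only [sq_CV]
  rw [intervalIntegral.integral_finsetSum fun t _ =>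
    Continuous.intervalIntegrable (by fun_prop) _ _]
  push_cast
  rw [mul_sum]
  refine sum_congr rfl fun t ht => ?_
  rw [intervalIntegral.integral_finsetSum fun u _ =>
    Continuous.intervalIntegrable (by fun_prop) _ _, sum_eq_single_of_mem t ht]
  · rw [intervalIntegral.integral_const_mul, ← Int.cast_sub, orth_EEp, if_pos (sub_self t),
      Complex.mul_conj']
    ring
  · intro u _ hu
    rw [intervalIntegral.integral_const_mul, ← Int.cast_sub, orth_EEp,
      if_neg (sub_ne_zero.2 hu.symm), mul_zero]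

lemma pw_EEp (θ : ℝ) {n : ℕ} (hn : 1 ≤ n) (u : ℝ) :
    pw (Real.exp θ * n) u = Complex.exp (Complex.I * (u : ℂ) * (θ : ℂ)) * pw n u := by
  rw [pw_mul (Real.exp_pos θ).ne' (Nat.cast_ne_zero.2 (by omega)), pw, Real.log_exp]

lemma sum_EEp (D : Finset ℤ) (ν : ℤ → ℝ) (S : Finset ℕ) (hS : ∀ n ∈ S, 1 ≤ n) (θ θ' : ℝ) :
    ‖∑ n ∈ S, FT D ν (Real.exp θ * n) * (starRingEnd ℂ) (FT D ν (Real.exp θ' * n))‖ ^ 2 =
      P_CV D (fun b => (starRingEnd ℂ) (∑ a ∈ D, ((ν a * ν b : ℝ) : ℂ) * SS S ((a : ℝ) - b) *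
        Complex.exp (Complex.I * ((a : ℝ) : ℂ) * (θ : ℂ)))) θ' := by
  rw [P_CV, ← Complex.norm_conj (∑ t ∈ D, _), map_sum]
  congr 2
  simp only [map_mul, Complex.conj_conj, FT, SS, map_sum, sum_mul, mul_sum]
  rw [sum_comm]
  refine sum_congr rfl fun b _ => ?_
  rw [sum_comm]
  refine sum_congr rfl fun a _ => sum_congr rfl fun n hn => ?_
  rw [pw_EEp θ (hS n hn), pw_EEp θ' (hS n hn), pw_sub, map_mul, Complex.conj_ofReal]
  push_cast
  ring

theorem eep_stmt : EEpStmt := by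
  intro L ν S hS
  simp only [sum_EEp _ ν S hS, pars_EEp, N2, Complex.norm_conj]
  rw [intervalIntegral.integral_const_mul]
  have h := fun b : ℤ => pars_EEp (Io L) fun a => ((ν a * ν b : ℝ) : ℂ) * SS S ((a : ℝ) - b)
  unfold P_CV at h
  rw [intervalIntegral.integral_finsetSum fun b _ =>
    Continuous.intervalIntegrable (by fun_prop) _ _]
  simp only [h]
  rw [← mul_sum, ← mul_assoc, ← sq, DH.EE, sum_comm]
  congr 1
  refine sum_congr rfl fun b _ => sum_congr rfl fun a _ => ?_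
  rw [norm_mul, Complex.norm_real, mul_pow, Real.norm_eq_abs, sq_abs, mul_pow]

end Pool.Agent.MP_2a1f0e_nt.GM4
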