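import Pool.Agent.MP_2a1f0e_nt.GM4.Basic
import Pool.Agent.MP_2a1f0e_nt.GM2.Exp
import Pool.Agent.MP_2a1f0e_nt.GM2.Core

set_option autoImplicit false

open Finset

namespace Pool.Agent.MP_2a1f0e_nt.GM4

open GM GM2 GM3

lemma sub_Exp4 {M : ℕ} {S : Finset ℕ} (h : Dy M S) (f : ℕ → ℝ) (hf : ∀ n, 1 ≤ n → 0 ≤ f n) :
    ∑ n ∈ S, f n ≤ ∑ n ∈ Icc 1 (3 * M), Wt ((n : ℝ) / M) * f n := by
  refine le_of_eq_of_le (sum_congr rfl fun n hn => ?_)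
    ((sub_Core h (fun n => max (f n) 0) fun n => le_max_right _ _).trans_eq
      (sum_congr rfl fun n hn => ?_))
  · exact (max_eq_left (hf n (h.one_le n hn))).symm
  · rw [max_eq_left (hf n (mem_Icc.1 hn).1)]

variable {L R : ℕ} {ν : ℤ → ℝ} {S : Finset ℕ} {χ₁ χ₂ : ℝ → ℝ} {u v : ℕ × ℕ → ℤ → ℂ}

lemma inn_Exp4 (hu : ∀ i ∈ S ×ˢ S, TP R (fun x => (χ₁ x : ℂ) * (FT (Io L) ν (x * i.1) *
      (starRingEnd ℂ) (FT (Io L) ν (x * i.2)))) (u i))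
    (hv : ∀ i ∈ S ×ˢ S, TP R (fun x => (χ₂ x : ℂ) * (FT (Io L) ν (x * i.1) *
      (starRingEnd ℂ) (FT (Io L) ν (x * i.2)))) (v i))
    (γ : ℕ → ℂ) {z w : ℝ} (hz : 0 < z) (hw : 0 < w) {n₁ n₂ : ℕ} (h1 : 1 ≤ n₁) (h2 : 1 ≤ n₂) :
    ((χ₁ (z / n₁) * χ₂ (w / n₂) * ‖Inn (Io L) ν S γ z w n₁ n₂‖ ^ 2 : ℝ) : ℂ) = ∑ i ∈ S ×ˢ S,
      γ i.1 * (starRingEnd ℂ) (γ i.2) *
        ((∑ ρ ∈ Io R, pw z ρ * u i ρ * pw (n₁ : ℝ) (-(ρ : ℝ))) *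
          ∑ ρ ∈ Io R, pw w (-(ρ : ℝ)) * (starRingEnd ℂ) (v i ρ) * pw (n₂ : ℝ) ρ) := by
  have a1 : (0 : ℝ) < n₁ := by exact_mod_cast h1
  have a2 : (0 : ℝ) < n₂ := by exact_mod_cast h2
  rw [Complex.ofReal_mul, Complex.ofReal_mul, Complex.ofReal_pow, ← Complex.mul_conj', Inn,
    map_sum, sum_mul_sum, sum_product, mul_sum]
  refine sum_congr rfl fun n hn => ?_
  rw [mul_sum]
  refine sum_congr rfl fun n' hn' => ?_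
  have e1 : ∀ m : ℕ, z * m / n₁ = z / n₁ * m := fun m => by ring
  have e2 : ∀ m : ℕ, FT (Io L) ν (n₂ / (w * m)) =
      (starRingEnd ℂ) (FT (Io L) ν (w / n₂ * m)) := fun m => by
    rw [conj_FT, div_mul_eq_mul_div, inv_div]
  have b1 := hu (n, n') (mem_product.2 ⟨hn, hn'⟩) _ (div_pos hz a1)
  have b2 := congrArg (starRingEnd ℂ) (hv (n, n') (mem_product.2 ⟨hn, hn'⟩) _ (div_pos hw a2))
  have c1 : ∑ ρ ∈ Io R, pw z ρ * u (n, n') ρ * pw (n₁ : ℝ) (-(ρ : ℝ)) =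
      ∑ ρ ∈ Io R, u (n, n') ρ * pw (z / n₁) ρ :=
    sum_congr rfl fun ρ _ => by rw [pw_div hz.ne' a1.ne']; ring
  have c2 : ∑ ρ ∈ Io R, pw w (-(ρ : ℝ)) * (starRingEnd ℂ) (v (n, n') ρ) *
      pw (n₂ : ℝ) ρ = (starRingEnd ℂ) (∑ ρ ∈ Io R, v (n, n') ρ * pw (w / n₂) ρ) := by
    rw [map_sum]
    exact sum_congr rfl fun ρ _ => by rw [map_mul, conj_pw, pw_div hw.ne' a2.ne', neg_neg]; ring
  rw [c1, c2, ← b1, ← b2, e1, e1, e2, e2]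
  simp only [map_mul, Complex.conj_ofReal]
  ring

lemma point_Exp4 (hu : ∀ i ∈ S ×ˢ S, TP R (fun x => (χ₁ x : ℂ) * (FT (Io L) ν (x * i.1) *
      (starRingEnd ℂ) (FT (Io L) ν (x * i.2)))) (u i))
    (hv : ∀ i ∈ S ×ˢ S, TP R (fun x => (χ₂ x : ℂ) * (FT (Io L) ν (x * i.1) *
      (starRingEnd ℂ) (FT (Io L) ν (x * i.2)))) (v i))
    (γ : ℕ → ℂ) (M₁ M₂ : ℕ) {z w : ℝ} (hz : 0 < z) (hw : 0 < w) :
    ((∑ n₁ ∈ Icc 1 (3 * M₁), ∑ n₂ ∈ Icc 1 (3 * M₂), Wt ((n₁ : ℝ) / M₁) * Wt ((n₂ : ℝ) / M₂) *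
      (χ₁ (z / n₁) * χ₂ (w / n₂) * ‖Inn (Io L) ν S γ z w n₁ n₂‖ ^ 2) : ℝ) : ℂ) = ∑ i ∈ S ×ˢ S,
      γ i.1 * (starRingEnd ℂ) (γ i.2) * ∑ ρ₁ ∈ Io R, ∑ ρ₂ ∈ Io R,
        u i ρ₁ * KK M₁ (-(ρ₁ : ℝ)) * ((starRingEnd ℂ) (v i ρ₂) * KK M₂ ρ₂) *
          (pw z ρ₁ * pw w (-(ρ₂ : ℝ))) := by
  simp only [Complex.ofReal_sum]
  rw [sum_congr rfl fun n₁ h1 => sum_congr rfl fun n₂ h2 => by
    rw [Complex.ofReal_mul, Complex.ofReal_mul,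
      inn_Exp4 hu hv γ hz hw (mem_Icc.1 h1).1 (mem_Icc.1 h2).1], swap_Exp]
  refine sum_congr rfl fun i _ => ?_
  rw [kk_Exp, kk_Exp, sum_mul_sum]
  exact congrArg _ (sum_congr rfl fun ρ₁ _ => sum_congr rfl fun ρ₂ _ => by ring)

theorem exp4_stmt : Exp4Stmt := by
  intro a b κ σ z₀ z₁ L R M₁ M₂ S₁ S₂ S γ ν χ₁ χ₂ u v hl d1 d2 hS hγ p1 p2 c1 c2 h1 h2
  have hz : z₀ ≤ z₁ := hl.2.2.2.2.2.2.1
  have hu : Set.uIcc z₀ z₁ = Set.Icc z₀ z₁ := Set.uIcc_of_le hz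
  have cz : ContinuousOn (fun z : ℝ => z) (Set.Icc z₀ z₁) := continuousOn_id
  have cw : ContinuousOn (fun z : ℝ => κ + σ * z) (Set.Icc z₀ z₁) := by fun_prop
  have cB : ∀ n₁ n₂ : ℕ, 1 ≤ n₁ → 1 ≤ n₂ → ContinuousOn (fun z => χ₁ (z / n₁) *
      χ₂ ((κ + σ * z) / n₂) * ‖Inn (Io L) ν S γ z (κ + σ * z) n₁ n₂‖ ^ 2) (Set.Icc z₀ z₁) :=
    fun n₁ n₂ a1 a2 => ((c1.comp (cz.div_const _) fun p hp =>
      div_pos (hl.pos hp).1 (Nat.cast_pos.2 a1)).mul (c2.comp (cw.div_const _) fun p hp =>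
      div_pos (hl.pos hp).2 (Nat.cast_pos.2 a2))).mul ((continuousOn_Inn _ ν hS γ cz cw
        (fun p hp => (hl.pos hp).1) (fun p hp => (hl.pos hp).2) a1 a2).norm.pow 2)
  have hE : ∀ (c : ℂ) (ρ₁ ρ₂ : ℝ), ContinuousOn (fun z => c * (pw z ρ₁ * pw (κ + σ * z) ρ₂))
      (Set.uIcc z₀ z₁) := fun c ρ₁ ρ₂ => by
    rw [hu]
    exact continuousOn_const.mul (((continuousOn_pw ρ₁).mono fun z hz => (hl.pos hz).1).mul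
      ((continuousOn_pw ρ₂).comp cw fun z hz => (hl.pos hz).2))
  have key : ((∫ z in z₀..z₁, ∑ n₁ ∈ Icc 1 (3 * M₁), ∑ n₂ ∈ Icc 1 (3 * M₂),
      Wt ((n₁ : ℝ) / M₁) * Wt ((n₂ : ℝ) / M₂) * (χ₁ (z / n₁) * χ₂ ((κ + σ * z) / n₂) *
        ‖Inn (Io L) ν S γ z (κ + σ * z) n₁ n₂‖ ^ 2) : ℝ) : ℂ) = ∑ i ∈ S ×ˢ S,
      γ i.1 * (starRingEnd ℂ) (γ i.2) * Bf2 R M₁ M₂ κ σ z₀ z₁ (u i) (v i) := by
    rw [← intervalIntegral.integral_ofReal, intervalIntegral.integral_congr fun z hz =>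
      point_Exp4 h1 h2 γ M₁ M₂ (hl.pos (hu ▸ hz)).1 (hl.pos (hu ▸ hz)).2]
    refine (int_Exp _ _ fun i => ?_).trans (sum_congr rfl fun i _ => ?_)
    · exact continuousOn_const.mul (continuousOn_finsetSum _ fun ρ₁ _ =>
        continuousOn_finsetSum _ fun ρ₂ _ => hE _ _ _)
    rw [intervalIntegral.integral_const_mul, Bf2, Bil]
    refine congrArg _ ((int_Exp _ _ fun ρ₁ => ?_).trans (sum_congr rfl fun ρ₁ _ => ?_))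
    · exact continuousOn_finsetSum _ fun ρ₂ _ => hE _ _ _
    exact (int_Exp _ _ fun ρ₂ => hE _ _ _).trans
      (sum_congr rfl fun ρ₂ _ => intervalIntegral.integral_const_mul _ _)
  refine le_trans (intervalIntegral.integral_mono_on hz
    ((continuousOn_finsetSum _ fun n₁ a1 => continuousOn_finsetSum _ fun n₂ a2 =>
      cB _ _ (d1.one_le _ a1) (d2.one_le _ a2)).intervalIntegrable_of_Icc hz)
    ((continuousOn_finsetSum (Icc 1 (3 * M₁)) fun n₁ a1 =>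
      continuousOn_finsetSum (Icc 1 (3 * M₂)) fun n₂ a2 =>
        (continuousOn_const (c := Wt ((n₁ : ℝ) / M₁) * Wt ((n₂ : ℝ) / M₂))).mul
          (cB _ _ (mem_Icc.1 a1).1 (mem_Icc.1 a2).1)).intervalIntegrable_of_Icc hz)
    fun z hz' => ?_) ((le_abs_self _).trans ?_)
  · have nn : ∀ n₁ n₂ : ℕ, 1 ≤ n₁ → 1 ≤ n₂ → 0 ≤ χ₁ (z / n₁) * χ₂ ((κ + σ * z) / n₂) *
        ‖Inn (Io L) ν S γ z (κ + σ * z) n₁ n₂‖ ^ 2 := fun n₁ n₂ a1 a2 =>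
      mul_nonneg (mul_nonneg (p1 _ (div_pos (hl.pos hz').1 (Nat.cast_pos.2 a1)))
        (p2 _ (div_pos (hl.pos hz').2 (Nat.cast_pos.2 a2)))) (sq_nonneg _)
    refine (sum_le_sum fun n₁ a1 => sub_Exp4 d2 _ fun n₂ => nn n₁ n₂ (d1.one_le _ a1)).trans
      ((sub_Exp4 d1 _ fun n₁ a1 => sum_nonneg fun n₂ a2 =>
        mul_nonneg (Wt_nonneg _) (nn n₁ n₂ a1 (mem_Icc.1 a2).1)).trans (le_of_eq ?_))
    simp only [mul_sum, mul_assoc, Pi.mul_apply]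
  · rw [← Real.norm_eq_abs, ← Complex.norm_real]
    refine (congrArg norm key).trans_le ((norm_sum_le _ _).trans (sum_le_sum fun i hi => ?_))
    rw [norm_mul, norm_mul, Complex.norm_conj]
    exact mul_le_of_le_one_left (norm_nonneg _)
      (mul_le_one₀ (hγ _ (mem_product.1 hi).1) (norm_nonneg _) (hγ _ (mem_product.1 hi).2))

end Pool.Agent.MP_2a1f0e_nt.GM4
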