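import Pool.Agent.MP_2a1f0e_nt.GM4.Basic
import Pool.Agent.MP_2a1f0e_nt.GM2.Exp

set_option autoImplicit false

open Finset

namespace Pool.Agent.MP_2a1f0e_nt.GM4

open GM GM2 GM3

lemma ft_GY4 (L : ℕ) (ν : ℤ → ℝ) {n : ℕ} (hn : 1 ≤ n) :
    TP L (fun x => FT (Io L) ν (x * n)) (fun a => ν a * pw n a) := by
  intro x hx
  have h0 : (n : ℝ) ≠ 0 := by positivity
  refine sum_congr rfl fun a _ => ?_
  rw [pw_mul hx.ne' h0]
  ring

lemma conj_GY4 {R : ℕ} {U : ℝ → ℂ} {c : ℤ → ℂ} (h : TP R U c) :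
    TP R (fun x => (starRingEnd ℂ) (U x)) (fun a => (starRingEnd ℂ) (c (-a))) := by
  intro x hx
  simp only [h x hx, map_sum, map_mul, conj_pw]
  refine sum_nbij' (fun a => -a) (fun a => -a) ?_ ?_ ?_ ?_ ?_
  · intro a ha
    simp only [Io, mem_Ioo] at ha ⊢
    omega
  · intro a ha
    simp only [Io, mem_Ioo] at ha ⊢
    omega
  · intro a _
    exact neg_neg a
  · intro a _
    exact neg_neg a
  · intro a _
    rw [neg_neg, Int.cast_neg]

lemma dbl_GY4 {ι : Type} (s : Finset ι) (A : ι → ℝ → ℂ) (hA : ∀ i ∈ s, Continuous (A i))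
    (K : ℝ → ℝ → ℝ) (hK : Continuous (Function.uncurry K))
    (h : ∀ θ θ', ‖∑ i ∈ s, A i θ * (starRingEnd ℂ) (A i θ')‖ ≤ K θ θ') {a b : ℝ} (hab : a ≤ b) :
    ∑ i ∈ s, ‖∫ θ in a..b, A i θ‖ ^ 2 ≤ ∫ θ in a..b, ∫ θ' in a..b, K θ θ' := by
  have e1 : ∀ θ, ∫ θ' in a..b, ∑ i ∈ s, A i θ * (starRingEnd ℂ) (A i θ') =
      ∑ i ∈ s, A i θ * (starRingEnd ℂ) (∫ θ' in a..b, A i θ') := fun θ => by
    refine (intervalIntegral.integral_finsetSum fun i hi =>
      (continuous_const.mul (Complex.continuous_conj.comp (hA i hi))).intervalIntegrable _ _).trans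
      (sum_congr rfl fun i _ => ?_)
    rw [← intervalIntegral.intervalIntegral_conj]
    exact intervalIntegral.integral_const_mul _ _
  have e2 : ∫ θ in a..b, ∫ θ' in a..b, ∑ i ∈ s, A i θ * (starRingEnd ℂ) (A i θ') =
      ((∑ i ∈ s, ‖∫ θ in a..b, A i θ‖ ^ 2 : ℝ) : ℂ) := by
    simp only [e1]
    rw [Complex.ofReal_sum]
    refine (intervalIntegral.integral_finsetSum fun i hi =>
      ((hA i hi).mul continuous_const).intervalIntegrable _ _).trans (sum_congr rfl fun i _ => ?_)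
    refine (intervalIntegral.integral_mul_const _ _).trans ?_
    rw [Complex.mul_conj, Complex.normSq_eq_norm_sq]
  have e3 : ∑ i ∈ s, ‖∫ θ in a..b, A i θ‖ ^ 2 =
      ‖∫ θ in a..b, ∫ θ' in a..b, ∑ i ∈ s, A i θ * (starRingEnd ℂ) (A i θ')‖ := by
    rw [e2, Complex.norm_real, Real.norm_of_nonneg (sum_nonneg fun _ _ => sq_nonneg _)]
  rw [e3]
  refine intervalIntegral.norm_integral_le_of_norm_le hab (Filter.Eventually.of_forall fun θ _ => ?_)
    ((intervalIntegral.continuous_parametric_intervalIntegral_of_continuous' hK a b).intervalIntegrable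
      _ _)
  exact intervalIntegral.norm_integral_le_of_norm_le hab
    (Filter.Eventually.of_forall fun θ' _ => h θ θ')
    ((hK.comp (Continuous.prodMk_right θ)).intervalIntegrable _ _)

lemma pt_GY4 (S : Finset ℕ) (f g : ℕ → ℂ) (c c' e e' : ℂ) (hc : ‖c‖ ≤ 1) (hc' : ‖c'‖ ≤ 1)
    (he : ‖e‖ = 1) (he' : ‖e'‖ = 1) :
    ‖∑ i ∈ S ×ˢ S, c * (f i.1 * (starRingEnd ℂ) (f i.2)) * e *
        (starRingEnd ℂ) (c' * (g i.1 * (starRingEnd ℂ) (g i.2)) * e')‖ ≤
      ‖∑ n ∈ S, f n * (starRingEnd ℂ) (g n)‖ ^ 2 := by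
  have e1 : ∑ i ∈ S ×ˢ S, c * (f i.1 * (starRingEnd ℂ) (f i.2)) * e *
        (starRingEnd ℂ) (c' * (g i.1 * (starRingEnd ℂ) (g i.2)) * e') =
      c * (starRingEnd ℂ) c' * e * (starRingEnd ℂ) e' * ((∑ n ∈ S, f n * (starRingEnd ℂ) (g n)) *
        (starRingEnd ℂ) (∑ n ∈ S, f n * (starRingEnd ℂ) (g n))) := by
    rw [map_sum, sum_mul_sum, sum_product, mul_sum]
    refine sum_congr rfl fun n _ => ?_
    rw [mul_sum]
    refine sum_congr rfl fun m _ => ?_
    simp only [map_mul, Complex.conj_conj]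
    ring
  rw [e1]
  simp only [norm_mul, Complex.norm_conj, he, he', mul_one]
  rw [← sq]
  exact mul_le_of_le_one_left (sq_nonneg _) (mul_le_one₀ hc (norm_nonneg _) hc')

lemma cf_GY4 (L : ℕ) (ν : ℤ → ℝ) {n : ℕ} (hn : 1 ≤ n) :
    Continuous fun θ => FT (Io L) ν (Real.exp θ * n) :=
  (ft_GY4 L ν hn).cont.comp_continuous Real.continuous_exp fun θ => Real.exp_pos θ

theorem gy4_stmt (hm : TPmStmt) (hp : TPpStmt) (hE : EEpStmt) (hM : MoStmt) : GY4Stmt := by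
  intro L ν S H X χ h1 hW hX
  obtain ⟨⟨c, hc⟩, hχ⟩ := hW
  have hpi : 0 < 2 * Real.pi := by positivity
  have hu : ∀ i : ℕ × ℕ, ∃ u : ℤ → ℂ, i ∈ S ×ˢ S →
      TP (6 * L) (fun x => (χ x : ℂ) * (FT (Io L) ν (x * i.1) *
        (starRingEnd ℂ) (FT (Io L) ν (x * i.2)))) u := fun i => by
    by_cases hi : i ∈ S ×ˢ S
    · obtain ⟨d, hd⟩ := hm _ _ _ _ _ _ (ft_GY4 L ν (h1 _ (mem_product.1 hi).1))
        (conj_GY4 (ft_GY4 L ν (h1 _ (mem_product.1 hi).2)))
      obtain ⟨d', hd'⟩ := hm _ _ _ _ _ _ hc hd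
      rw [show 4 * L + (L + L) = 6 * L by ring] at hd'
      exact ⟨d', fun _ => hd'⟩
    · exact ⟨0, fun h => absurd h hi⟩
  choose u hu using hu
  have hcont : ∀ i ∈ S ×ˢ S, Continuous fun θ => (χ (Real.exp θ) : ℂ) *
      (FT (Io L) ν (Real.exp θ * i.1) * (starRingEnd ℂ) (FT (Io L) ν (Real.exp θ * i.2))) :=
    fun i hi => (hu i hi).cont.comp_continuous Real.continuous_exp fun θ => Real.exp_pos θ
  refine ⟨u, hu, ?_, fun ρ hρ => ?_⟩
  · have hH : 0 ≤ H := le_trans (mul_nonneg (sq_nonneg _) (hS_nonneg L ν S 1)) (hχ 1 one_pos).2.2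
    have e1 : mo (hS L ν S) = S.card * (2 * Real.pi * ∑ a ∈ Io L, ν a ^ 2) := by
      have hn : ∀ n ∈ S, (0 : ℝ) < n := fun n hn => by exact_mod_cast h1 n hn
      refine (mo_sum S (g := fun n v => ph L ν (v * n) ^ 2)
        fun n h => ((per_ph L ν).pow 2).scale (hn n h)).trans ?_
      rw [sum_congr rfl fun n h => mo_scale ((per_ph L ν).pow 2) (hn n h), sum_const, nsmul_eq_mul,
        (hM L ν).2]
    refine le_of_mul_le_mul_left ?_ hpi
    rw [mul_sum, sum_congr rfl fun i hi => (hp _ _ _ (hu i hi)).1]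
    unfold mo at e1 ⊢
    refine le_of_eq_of_le (intervalIntegral.integral_finsetSum fun i hi =>
      ((hcont i hi).norm.pow 2).intervalIntegrable _ _).symm ?_
    refine (intervalIntegral.integral_mono_on (g := fun θ => H * hS L ν S (Real.exp θ)) neg_pi_le
      ((continuous_finsetSum _ fun i hi => (hcont i hi).norm.pow 2).intervalIntegrable _ _)
      ((continuous_const.mul (per_hS L ν h1).cont).intervalIntegrable _ _) fun θ _ => ?_).trans ?_
    · have e2 : ∑ i ∈ S ×ˢ S, ‖(χ (Real.exp θ) : ℂ) * (FT (Io L) ν (Real.exp θ * i.1) *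
          (starRingEnd ℂ) (FT (Io L) ν (Real.exp θ * i.2)))‖ ^ 2 =
          χ (Real.exp θ) ^ 2 * hS L ν S (Real.exp θ) * hS L ν S (Real.exp θ) := by
        unfold hS ph
        rw [mul_assoc, sum_mul_sum, sum_product, mul_sum]
        refine sum_congr rfl fun n _ => ?_
        rw [mul_sum]
        refine sum_congr rfl fun m _ => ?_
        rw [norm_mul, norm_mul, Complex.norm_conj, Complex.norm_real, Real.norm_eq_abs, mul_pow,
          mul_pow, sq_abs]
      exact e2.le.trans (mul_le_mul_of_nonneg_right (hχ _ (Real.exp_pos θ)).2.2 (hS_nonneg _ _ _ _))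
    · rw [intervalIntegral.integral_const_mul, e1]
      calc H * (S.card * (2 * Real.pi * ∑ a ∈ Io L, ν a ^ 2))
          ≤ H * (S.card * (2 * Real.pi * X)) := by gcongr
        _ = _ := by ring
  · refine le_of_mul_le_mul_left ?_ (pow_pos hpi 2)
    rw [← hE L ν S h1, mul_sum]
    have e1 : ∀ i ∈ S ×ˢ S, (2 * Real.pi) ^ 2 * ‖u i ρ‖ ^ 2 =
        ‖∫ θ in (-Real.pi)..Real.pi, (χ (Real.exp θ) : ℂ) * (FT (Io L) ν (Real.exp θ * i.1) *
          (starRingEnd ℂ) (FT (Io L) ν (Real.exp θ * i.2))) *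
            Complex.exp (-(Complex.I * ρ * θ))‖ ^ 2 := fun i hi => by
      rw [← (hp _ _ _ (hu i hi)).2 ρ hρ, norm_mul, norm_mul, Complex.norm_real,
        Real.norm_of_nonneg Real.pi_pos.le, Complex.norm_two, ← mul_pow]
    have hn : ∀ θ : ℝ, ‖Complex.exp (-(Complex.I * ρ * θ))‖ = 1 := fun θ => by
      rw [Complex.norm_exp]
      simp
    have hx : ∀ θ : ℝ, ‖(χ (Real.exp θ) : ℂ)‖ ≤ 1 := fun θ => by
      rw [Complex.norm_real, Real.norm_of_nonneg (hχ _ (Real.exp_pos θ)).1.le]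
      exact (hχ _ (Real.exp_pos θ)).2.1
    rw [sum_congr rfl e1]
    have he : Continuous fun θ : ℝ => Complex.exp (-(Complex.I * ρ * θ)) := by fun_prop
    refine dbl_GY4 (S ×ˢ S) (fun i θ => (χ (Real.exp θ) : ℂ) * (FT (Io L) ν (Real.exp θ * i.1) *
          (starRingEnd ℂ) (FT (Io L) ν (Real.exp θ * i.2))) *
            Complex.exp (-(Complex.I * ρ * θ))) (fun i hi => (hcont i hi).mul he)
      (fun θ θ' => ‖∑ n ∈ S, FT (Io L) ν (Real.exp θ * n) *
        (starRingEnd ℂ) (FT (Io L) ν (Real.exp θ' * n))‖ ^ 2) ?_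
      (fun θ θ' => pt_GY4 S (fun n => FT (Io L) ν (Real.exp θ * n))
        (fun n => FT (Io L) ν (Real.exp θ' * n)) _ _ _ _ (hx θ) (hx θ') (hn θ) (hn θ')) neg_pi_le
    exact (continuous_finsetSum _ fun n h => ((cf_GY4 L ν (h1 n h)).comp continuous_fst).mul
      (Complex.continuous_conj.comp ((cf_GY4 L ν (h1 n h)).comp continuous_snd))).norm.pow 2

end Pool.Agent.MP_2a1f0e_nt.GM4
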