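import Pool.Agent.MP_2a1f0e_nt.GM4.Basic
import Pool.Agent.MP_2a1f0e_nt.GM2.Gam
import Pool.Agent.MP_2a1f0e_nt.GM2.CV

set_option autoImplicit false

open Finset

namespace Pool.Agent.MP_2a1f0e_nt.GM4

open GM GM2 GM3

lemma len_Gam4 {a b κ σ z₀ z₁ : ℝ} (hl : Line a b κ σ z₀ z₁) (ρ₁ ρ₂ : ℝ) :
    ‖Gam κ σ z₀ z₁ ρ₁ ρ₂‖ ≤ 6 * a := by
  obtain ⟨a0, a1, -, -, -, -, hz, h⟩ := hl
  have h0 := (h z₀ ⟨le_rfl, hz⟩).1.1
  have h1 := (h z₁ ⟨hz, le_rfl⟩).1.2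
  have : ‖Gam κ σ z₀ z₁ ρ₁ ρ₂‖ ≤ 1 * |z₁ - z₀| :=
    intervalIntegral.norm_integral_le_of_norm_le_const fun z _ => by
      rw [norm_mul, norm_pw, norm_pw, mul_one]
  rw [one_mul, abs_of_nonneg (by linarith)] at this
  linarith

lemma two_Gam4 (h : VdcStmt) {a b κ σ z₀ z₁ : ℝ} (hl : Line a b κ σ z₀ z₁) (ρ₁ ρ₂ : ℝ) :
    ‖Gam κ σ z₀ z₁ ρ₁ ρ₂‖ ^ 2 * |ρ₂| ≤ 36 * 44 ^ 2 * 432 * (a * b) := by
  rcases eq_or_ne ρ₂ 0 with rfl | r0
  · rw [abs_zero, mul_zero]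
    exact mul_nonneg (by norm_num) (mul_pos hl.1 hl.2.2.1).le
  have hr : 0 < |ρ₂| := abs_pos.2 r0
  have hl' := hl
  obtain ⟨a0, a1, b0, b1, hσ, hκ, hz, hb⟩ := hl'
  have p0 := (hl.pos ⟨le_rfl, hz⟩).1
  have p1 := (hl.pos ⟨hz, le_rfl⟩).1
  have hlog : Real.log z₀ ≤ Real.log z₁ := Real.log_le_log p0 hz
  have hm : ∀ x ∈ Set.Icc (Real.log z₀) (Real.log z₁), Real.exp x ∈ Set.Icc z₀ z₁ := fun x hx =>
    ⟨(Real.log_le_iff_le_exp p0).1 hx.1, (Real.le_log_iff_exp_le p1).1 hx.2⟩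
  have hw : ∀ x ∈ Set.Icc (Real.log z₀) (Real.log z₁), κ + σ * Real.exp x ≠ 0 := fun x hx =>
    (hl.pos (hm x hx)).2.ne'
  obtain ⟨ε, hε, he⟩ : ∃ ε : ℝ, Sg ε ∧ ε * -(ρ₂ * σ * κ) = |ρ₂| * |κ| := by
    have e : |-(ρ₂ * σ * κ)| = |ρ₂| * |κ| := by
      rw [abs_neg, abs_mul, abs_mul]
      rcases hσ with rfl | rfl <;> simp
    rcases le_total 0 (-(ρ₂ * σ * κ)) with h | h
    · exact ⟨1, Or.inl rfl, by rw [one_mul, ← e, abs_of_nonneg h]⟩
    · exact ⟨-1, Or.inr rfl, by rw [← e, abs_of_nonpos h]; ring⟩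
  set K : ℝ := |ρ₂| * a / (432 * b ^ 2) with hK
  have K0 : 0 < K := by positivity
  have hd : ∀ x, HasDerivAt (fun x => κ + σ * Real.exp x) (σ * Real.exp x) x := fun x =>
    ((Real.hasDerivAt_exp x).const_mul σ).const_add κ
  have key := h (fun x => ρ₁ * x - ρ₂ * Real.log (κ + σ * Real.exp x))
    (fun x => ρ₁ - ρ₂ * (σ * Real.exp x / (κ + σ * Real.exp x)))
    (fun x => -(ρ₂ * σ * κ) * Real.exp x / (κ + σ * Real.exp x) ^ 2)
    (fun x => ((Real.exp x : ℝ) : ℂ)) (fun x => ((Real.exp x : ℝ) : ℂ)) (6 * a) (√K) ε _ _ hlog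
    (Real.sqrt_pos.2 K0) hε
    (fun x hx => by
      have := ((hasDerivAt_id x).const_mul ρ₁).sub (((hd x).log (hw x hx)).const_mul ρ₂)
      rw [mul_one] at this
      exact this)
    (fun x hx => by
      have := ((((Real.hasDerivAt_exp x).const_mul σ).div (hd x) (hw x hx)).const_mul
        ρ₂).const_sub ρ₁
      refine this.congr_deriv ?_
      have := hw x hx
      field_simp
      ring)
    (ContinuousOn.div (by fun_prop) (by fun_prop) fun x hx => pow_ne_zero 2 (hw x hx))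
    (fun x _ => (Real.hasDerivAt_exp x).ofReal_comp)
    (Complex.continuous_ofReal.comp Real.continuous_exp).continuousOn
    (fun x hx => by
      rw [Complex.norm_real, Real.norm_eq_abs, abs_of_pos (Real.exp_pos x)]
      exact (hb _ (hm x hx)).1.2)
    (fun x hx => by
      rw [Complex.norm_real, Real.norm_eq_abs, abs_of_pos (Real.exp_pos x)]
      exact (hb _ (hm x hx)).1.2)
    (fun x hx => by
      obtain ⟨⟨u1, -⟩, -, u2⟩ := hb _ (hm x hx)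
      have w0 := (hl.pos (hm x hx)).2
      rw [Real.sq_sqrt K0.le, ← mul_div_assoc, ← mul_assoc, he, hK,
        div_le_div_iff₀ (by positivity) (by positivity)]
      have v1 : (κ + σ * Real.exp x) ^ 2 ≤ (6 * b) ^ 2 := pow_le_pow_left₀ w0.le u2 2
      have v2 : 1 / 2 * (a / 6) ≤ |κ| * Real.exp x :=
        mul_le_mul hκ u1 (by positivity) (abs_nonneg _)
      calc |ρ₂| * a * (κ + σ * Real.exp x) ^ 2 ≤ |ρ₂| * a * (6 * b) ^ 2 := by gcongr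
        _ = |ρ₂| * (1 / 2 * (a / 6)) * (432 * b ^ 2) := by ring
        _ ≤ |ρ₂| * (|κ| * Real.exp x) * (432 * b ^ 2) := by gcongr
        _ = _ := by ring)
  rw [← subst_Gam hl] at key
  have hlen : Real.log z₁ - Real.log z₀ ≤ 35 := by
    rw [← Real.log_div p1.ne' p0.ne']
    have := Real.log_le_sub_one_of_pos (div_pos p1 p0)
    have h2 : z₁ / z₀ ≤ 36 := by
      rw [div_le_iff₀ p0]
      linarith [(hb z₀ ⟨le_rfl, hz⟩).1.1, (hb z₁ ⟨hz, le_rfl⟩).1.2]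
    linarith
  have k2 : ‖Gam κ σ z₀ z₁ ρ₁ ρ₂‖ ≤ 6 * a * 44 / √K := by
    refine key.trans ?_
    have := Real.pi_le_four
    gcongr
    linarith
  have k3 : ‖Gam κ σ z₀ z₁ ρ₁ ρ₂‖ ^ 2 ≤ (6 * a * 44) ^ 2 / K := by
    have := pow_le_pow_left₀ (norm_nonneg _) k2 2
    rwa [div_pow, Real.sq_sqrt K0.le] at this
  have k4 : (6 * a * 44) ^ 2 / K * |ρ₂| = 36 * 44 ^ 2 * 432 * (a * b ^ 2) := by
    rw [hK]
    field_simp
    ring
  have k5 : a * b ^ 2 ≤ a * b := by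
    rw [sq, ← mul_assoc]
    exact mul_le_of_le_one_right (mul_pos a0 b0).le b1
  calc _ ≤ (6 * a * 44) ^ 2 / K * |ρ₂| := by gcongr
    _ ≤ _ := by rw [k4]; linarith

theorem gam4_stmt (h : VdcStmt) : Gam4Stmt := by
  refine ⟨36 + 2 * (36 * 44 ^ 2 * 432), by norm_num, fun a b κ σ z₀ z₁ hl ρ₁ ρ₂ => ?_⟩
  have h2 := two_Gam4 h hl ρ₁ ρ₂
  have h3 := len_Gam4 hl ρ₁ ρ₂
  obtain ⟨κ', w₀, w₁, hl', e⟩ := swap_Gam hl ρ₁ ρ₂
  have h1 := two_Gam4 h hl' (-ρ₂) (-ρ₁)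
  have h4 := len_Gam4 hl' (-ρ₂) (-ρ₁)
  rw [← e] at h4
  rw [← e, abs_neg, mul_comm b] at h1
  have h0 := mul_le_mul h3 h4 (norm_nonneg _) (by linarith [hl.1])
  rw [mul_add, mul_add, mul_one]
  linarith

lemma cv_Gam4 {a b κ σ z₀ z₁ : ℝ} (hL : Line a b κ σ z₀ z₁) (D : Finset ℤ) (c : ℤ → ℂ) :
    ∫ z in z₀..z₁, ‖∑ ρ ∈ D, c ρ * pw z ρ‖ ^ 2 ≤ 4 * Real.pi * (6 * a) * N2 D c ∧
    ∫ z in z₀..z₁, ‖∑ ρ ∈ D, c ρ * pw (κ + σ * z) (-(ρ : ℝ))‖ ^ 2 ≤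
      4 * Real.pi * (6 * b) * N2 D c := by
  have hp := fun z (hz : z ∈ Set.Icc z₀ z₁) => hL.pos hz
  obtain ⟨a0, a1, b0, b1, hσ, hκ, hz, hm⟩ := hL
  have m0 := hm z₀ ⟨le_rfl, hz⟩
  have m1 := hm z₁ ⟨hz, le_rfl⟩
  have l1 := log_CV a0 m0.1 m1.1
  have l2 := log_CV a0 m1.1 m0.1
  have l3 := log_CV b0 m0.2 m1.2
  have l4 := log_CV b0 m1.2 m0.2
  have hw : ∀ z, HasDerivAt (fun z => κ + σ * z) σ z := fun z => by
    simpa using ((hasDerivAt_id z).const_mul σ).const_add κ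
  have cw : ContinuousOn (fun z => κ + σ * z) (Set.Icc z₀ z₁) := by fun_prop
  refine ⟨?_, ?_⟩
  · refine sub_CV D c (ε := 1) hz (fun z h => Real.hasDerivAt_log (hp z h).1.ne')
      (continuousOn_id.inv₀ fun z h => (hp z h).1.ne') abs_one.le (by positivity) (fun z h => ?_)
      (abs_le.2 ⟨by linarith, by linarith⟩)
    rw [one_mul, ← div_eq_mul_inv, one_le_div (hp z h).1]
    linarith [(hm z h).1.2]
  · have := sub_CV D c (ε := -σ) (m := 6 * b) hz (fun z h => ((hw z).log (hp z h).2.ne').fun_neg)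
      (continuousOn_const.div cw fun z h => (hp z h).2.ne').neg
      (by rcases hσ with rfl | rfl <;> simp) (by positivity) (fun z h => by
        have e : σ * σ = 1 := by rcases hσ with rfl | rfl <;> simp
        rw [neg_mul_neg, ← mul_div_assoc, e, mul_one_div, one_le_div (hp z h).2]
        linarith [(hm z h).2.2]) (abs_le.2 ⟨by linarith, by linarith⟩)
    refine le_of_eq_of_le (intervalIntegral.integral_congr fun z _ => ?_) this
    simp only [P_CV, pw, Complex.ofReal_neg, mul_neg, neg_mul]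

theorem gl4_stmt : GL4Stmt := by
  refine ⟨24 * Real.pi, by positivity, fun a b κ σ z₀ z₁ hL D u v => ?_⟩
  have hz := hL.2.2.2.2.2.2.1
  have c1 : ∀ ρ : ℝ, ContinuousOn (fun z => pw z ρ) (Set.Icc z₀ z₁) := fun ρ =>
    (continuousOn_pw ρ).mono fun z hz => (hL.pos hz).1
  have c2 : ∀ ρ : ℝ, ContinuousOn (fun z => pw (κ + σ * z) ρ) (Set.Icc z₀ z₁) := fun ρ =>
    (continuousOn_pw ρ).comp (by fun_prop) fun z hz => (hL.pos hz).2
  have c3 : ∀ ρ₁ ρ₂ : ℤ, ContinuousOn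
      (fun z => u ρ₁ * pw z ρ₁ * (v ρ₂ * pw (κ + σ * z) (-(ρ₂ : ℝ)))) (Set.Icc z₀ z₁) :=
    fun _ _ => (continuousOn_const.mul (c1 _)).mul (continuousOn_const.mul (c2 _))
  have e : Bil D u v (fun ρ₁ ρ₂ => Gam κ σ z₀ z₁ ρ₁ ρ₂) = ∫ z in z₀..z₁,
      (∑ ρ ∈ D, u ρ * pw z ρ) * ∑ ρ ∈ D, v ρ * pw (κ + σ * z) (-(ρ : ℝ)) := by
    simp only [sum_mul_sum]
    rw [intervalIntegral.integral_finsetSum fun ρ _ =>
      (continuousOn_finsetSum _ fun _ _ => c3 _ _).intervalIntegrable_of_Icc hz]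
    refine sum_congr rfl fun ρ₁ _ => ?_
    rw [intervalIntegral.integral_finsetSum fun ρ _ => (c3 _ _).intervalIntegrable_of_Icc hz]
    refine sum_congr rfl fun ρ₂ _ => ?_
    simp only [Gam]
    rw [← intervalIntegral.integral_const_mul]
    exact intervalIntegral.integral_congr fun z _ => mul_mul_mul_comm _ _ _ _
  rw [e]
  refine (intervalIntegral.norm_integral_le_integral_norm hz).trans ?_
  simp only [norm_mul]
  refine (cs_CV hz (continuousOn_finsetSum _ fun _ _ => continuousOn_const.mul (c1 _)).norm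
    (continuousOn_finsetSum _ fun _ _ => continuousOn_const.mul (c2 _)).norm
    (cv_Gam4 hL D u).1 (cv_Gam4 hL D v).2).trans_eq ?_
  have p0 : 0 ≤ 24 * Real.pi := by positivity
  rw [show 4 * Real.pi * (6 * a) * N2 D u = 24 * Real.pi * (a * N2 D u) by ring,
    show 4 * Real.pi * (6 * b) * N2 D v = 24 * Real.pi * (b * N2 D v) by ring,
    Real.sqrt_mul p0, Real.sqrt_mul p0, mul_mul_mul_comm, Real.mul_self_sqrt p0,
    Real.sqrt_mul hL.1.le, Real.sqrt_mul hL.1.le, Real.sqrt_mul hL.2.2.1.le]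
  ring

end Pool.Agent.MP_2a1f0e_nt.GM4
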