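import Pool.Agent.MP_2a1f0e_nt.GM4.Basic
import Pool.Agent.MP_2a1f0e_nt.GM2.CV

set_option autoImplicit false

open Finset

namespace Pool.Agent.MP_2a1f0e_nt.GM4

open GM GM2 GM3

lemma col_Htp {ι : Type} (s : Finset ι) (k : ι → ℤ) (a : ι → ℂ) (R : ℕ) (U : ℝ → ℂ)
    (hk : ∀ i ∈ s, k i ∈ Io R) (h : ∀ x : ℝ, 0 < x → U x = ∑ i ∈ s, a i * pw x (k i)) :
    ∃ d : ℤ → ℂ, TP R U d := by
  refine ⟨fun ρ => ∑ i ∈ s with k i = ρ, a i, fun x hx => ?_⟩
  rw [h x hx, ← sum_fiberwise_of_maps_to hk]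
  refine sum_congr rfl fun ρ _ => ?_
  rw [sum_mul]
  exact sum_congr rfl fun i hi => by rw [(mem_filter.1 hi).2]

theorem tpm_stmt : TPmStmt := by
  intro R R' U U' c c' h h'
  refine col_Htp (Io R ×ˢ Io R') (fun p => p.1 + p.2) (fun p => c p.1 * c' p.2) _ _
    (fun p hp => ?_) fun x hx => ?_
  · simp only [mem_product, mem_Io] at hp ⊢
    push_cast
    omega
  · rw [h x hx, h' x hx, sum_mul_sum, sum_product]
    refine sum_congr rfl fun a _ => sum_congr rfl fun b _ => ?_
    push_cast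
    rw [pw_add]
    ring

lemma orth_Htp (k : ℤ) :
    ∫ θ in (-Real.pi)..Real.pi, Complex.exp (Complex.I * (k : ℂ) * (θ : ℂ)) =
      if k = 0 then (2 * Real.pi : ℂ) else 0 := by
  split_ifs with h
  · subst h
    simp [two_mul]
  · rw [integral_exp_mul_complex (mul_ne_zero Complex.I_ne_zero (Int.cast_ne_zero.2 h))]
    have e : Complex.I * (k : ℂ) * ((Real.pi : ℝ) : ℂ) =
        Complex.I * (k : ℂ) * ((-Real.pi : ℝ) : ℂ) + k * (2 * Real.pi * Complex.I) := by
      push_cast
      ring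
    rw [e, Complex.exp_add, Complex.exp_int_mul_two_pi_mul_I, mul_one, sub_self, zero_div]

lemma coef_Htp (D : Finset ℤ) (c : ℤ → ℂ) {t : ℤ} (k : ℤ → ℤ) (ht : t ∈ D)
    (hk : ∀ u, k u = 0 ↔ u = t) :
    ∫ θ in (-Real.pi)..Real.pi, ∑ u ∈ D, c u * Complex.exp (Complex.I * (k u : ℂ) * (θ : ℂ)) =
      2 * Real.pi * c t := by
  rw [intervalIntegral.integral_finsetSum fun u _ =>
    Continuous.intervalIntegrable (by fun_prop) _ _, sum_eq_single_of_mem t ht]
  · rw [intervalIntegral.integral_const_mul, orth_Htp, if_pos ((hk t).2 rfl), mul_comm]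
  · intro u _ hu
    rw [intervalIntegral.integral_const_mul, orth_Htp, if_neg fun e => hu ((hk u).1 e), mul_zero]

theorem tpp_stmt : TPpStmt := by
  intro R U c h
  refine ⟨?_, fun ρ hρ => ?_⟩
  · have e : mo (fun x => ‖U x‖ ^ 2) = ∫ θ in (-Real.pi)..Real.pi, P_CV (Io R) c θ := by
      unfold mo P_CV
      simp only [h _ (Real.exp_pos _), pw_exp]
    rw [e]
    apply Complex.ofReal_injective
    rw [← intervalIntegral.integral_ofReal, N2]
    simp only [sq_CV]
    rw [intervalIntegral.integral_finsetSum fun t _ =>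
      Continuous.intervalIntegrable (by fun_prop) _ _, sum_congr rfl fun t ht =>
        coef_Htp (Io R) (fun u => c t * (starRingEnd ℂ) (c u)) (fun u => t - u) ht
          fun u => by omega]
    push_cast
    rw [mul_sum]
    exact sum_congr rfl fun t _ => by rw [Complex.mul_conj']
  · rw [← coef_Htp (Io R) c (fun u => u - ρ) hρ fun u => by omega]
    refine intervalIntegral.integral_congr fun θ _ => ?_
    simp only [h _ (Real.exp_pos _), pw_exp, sum_mul]
    refine sum_congr rfl fun u _ => ?_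
    rw [mul_assoc (c u), ← Complex.exp_add]
    congr 2
    push_cast
    ring

theorem htp_stmt : HtpStmt := by
  intro L ν S hS1
  refine ⟨per_hS L ν hS1, col_Htp (S ×ˢ Io L ×ˢ Io L) (fun p => p.2.1 - p.2.2)
    (fun p => (ν p.2.1 : ℂ) * ν p.2.2 * pw p.1 ((p.2.1 : ℝ) - p.2.2)) _ _ (fun p hp => ?_)
    fun x hx => ?_, fun D x hx => ?_⟩
  · simp only [mem_product, mem_Io] at hp ⊢
    push_cast
    omega
  · unfold hS ph
    rw [Complex.ofReal_sum, sum_product]
    refine sum_congr rfl fun n hn => ?_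
    have h0 : (n : ℝ) ≠ 0 := by exact_mod_cast (Nat.one_le_iff_ne_zero.1 (hS1 n hn))
    rw [Complex.ofReal_pow, ← Complex.mul_conj', FT, map_sum, sum_mul_sum, sum_product]
    refine sum_congr rfl fun a _ => sum_congr rfl fun b _ => ?_
    rw [map_mul, Complex.conj_ofReal, mul_mul_mul_comm, ← pw_sub, pw_mul hx.ne' h0]
    push_cast
    ring
  · unfold cv hS
    simp only [mul_sum]
    rw [intervalIntegral.integral_finsetSum
      (f := fun (n : ℕ) t => kc D t * ph L ν (x * Real.exp (-t) * n) ^ 2) fun n hn =>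
      Continuous.intervalIntegrable ((continuous_kc D).mul ((((per_ph L ν).scale (c := (n : ℝ))
        (by exact_mod_cast hS1 n hn)).pow 2).cont_mul hx)) _ _]
    refine sum_congr rfl fun n _ => ?_
    simp only [mul_right_comm x]

end Pool.Agent.MP_2a1f0e_nt.GM4
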