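import Pool.Agent.MP_2a1f0e_nt.GM4.Basic
import Pool.Agent.MP_2a1f0e_nt.GM2.Blk2

set_option autoImplicit false

open Finset

namespace Pool.Agent.MP_2a1f0e_nt.GM4

open GM GM2 GM3

lemma inn_I4 (L : ℕ) (ν : ℤ → ℝ) {S : Finset ℕ} {γ : ℕ → ℂ} (hγ : ∀ n ∈ S, ‖γ n‖ ≤ 1) (z w : ℝ)
    (n₁ n₂ : ℕ) : ‖Inn (Io L) ν S γ z w n₁ n₂‖ ^ 2 ≤ hS L ν S (z / n₁) * hS L ν S (w / n₂) := by
  refine le_trans (pow_le_pow_left₀ (norm_nonneg _) ?_ 2) (sum_mul_sq_le_sq_mul_sq S _ _)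
  refine (norm_sum_le _ _).trans (sum_le_sum fun n hn => ?_)
  have e1 : z * n / n₁ = z / n₁ * n := by ring
  have e2 : (n₂ : ℝ) / (w * n) = (w / n₂ * n)⁻¹ := by
    rw [div_mul_eq_mul_div, inv_div]
  rw [norm_mul, norm_mul, e1, e2, norm_FT_inv, mul_assoc]
  exact mul_le_of_le_one_left (mul_nonneg (norm_nonneg _) (norm_nonneg _)) (hγ n hn)

lemma row_I4 {L M₃ M : ℕ} {ν : ℤ → ℝ} {S : Finset ℕ} {K F : ℝ} {χ : ℝ → ℝ} (hM : 1 ≤ M)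
    (hS3 : S.card ≤ M₃) (hF : ∀ v, ph L ν v ≤ F) (h : Wg L ν S (K / M) χ) {x : ℝ} (hx : 0 < x) :
    M * (χ x * hS L ν S x) ^ 2 ≤ K * (M₃ * F ^ 2) := by
  have h1 := (h.2 x hx).2.2
  have h0 := hS_nonneg L ν S x
  have hM' : (0 : ℝ) < M := by exact_mod_cast hM
  have h2 : hS L ν S x ≤ M₃ * F ^ 2 := by
    refine (sum_le_card_nsmul S _ (F ^ 2) fun n _ =>
      pow_le_pow_left₀ (ph_nonneg _ _ _) (hF _) 2).trans ?_
    rw [nsmul_eq_mul]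
    exact mul_le_mul_of_nonneg_right (by exact_mod_cast hS3) (sq_nonneg _)
  rw [le_div_iff₀ hM'] at h1
  calc _ = χ x ^ 2 * hS L ν S x * M * hS L ν S x := by ring
    _ ≤ _ := mul_le_mul h1 h2 h0 (le_trans (by positivity) h1)

lemma am_I4 {a b c p q W : ℝ} (ha : 0 < a) (hb : 0 < b) (hac : a ≤ c) (hbc : b ≤ c)
    (h1 : a * p ^ 2 ≤ W) (h2 : b * q ^ 2 ≤ W) : p * q ≤ c * W / (a * b) := by
  have hW : 0 ≤ W := le_trans (by positivity) h1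
  have hc : 0 < c := ha.trans_le hac
  rw [le_div_iff₀ (by positivity)]
  refine le_of_sq_le_sq (a := _) ?_ (by positivity)
  calc _ = a * b * (a * p ^ 2 * (b * q ^ 2)) := by ring
    _ ≤ c * c * (W * W) := by gcongr
    _ = _ := by ring

lemma top_I4 {L M₁ M₂ M₃ : ℕ} {ν : ℤ → ℝ} {S₁ S₂ S₃ : Finset ℕ} {K F : ℝ} {χ₁ χ₂ : ℝ → ℝ}
    {γ : ℕ → ℂ} (d1 : Dy M₁ S₁) (d2 : Dy M₂ S₂) (d3 : Dy M₃ S₃) (l1 : M₁ ≤ M₃) (l2 : M₂ ≤ M₃)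
    (hγ : ∀ n ∈ S₃, ‖γ n‖ ≤ 1) (hF : ∀ v, ph L ν v ≤ F) (hK : 0 ≤ K)
    (w1 : Wg L ν S₃ (K / M₁) χ₁) (w2 : Wg L ν S₃ (K / M₂) χ₂) {z w : ℝ} (hz : 0 < z)
    (hw : 0 < w) : Sq2 L ν S₁ S₂ S₃ γ χ₁ χ₂ z w ≤ M₃ * (K * (M₃ * F ^ 2)) := by
  have a1 : (0 : ℝ) < M₁ := by exact_mod_cast d1.1
  have a2 : (0 : ℝ) < M₂ := by exact_mod_cast d2.1
  have c1 : (S₁.card : ℝ) ≤ M₁ := by exact_mod_cast d1.card_le
  have c2 : (S₂.card : ℝ) ≤ M₂ := by exact_mod_cast d2.card_le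
  calc _ ≤ ∑ n₁ ∈ S₁, ∑ n₂ ∈ S₂, M₃ * (K * (M₃ * F ^ 2)) / (M₁ * M₂) := by
        refine sum_le_sum fun n₁ h1 => sum_le_sum fun n₂ h2 => ?_
        have x1 := div_pos hz (Dy.pos d1 h1)
        have x2 := div_pos hw (Dy.pos d2 h2)
        refine le_trans ?_ (am_I4 a1 a2 (by exact_mod_cast l1) (by exact_mod_cast l2)
          (row_I4 d1.1 d3.card_le hF w1 x1) (row_I4 d2.1 d3.card_le hF w2 x2))
        rw [mul_mul_mul_comm]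
        exact mul_le_mul_of_nonneg_left (inn_I4 L ν hγ z w n₁ n₂)
          (mul_pos (w1.2 _ x1).1 (w2.2 _ x2).1).le
    _ = S₁.card * (S₂.card * (M₃ * (K * (M₃ * F ^ 2)) / (M₁ * M₂))) := by
        simp only [sum_const, nsmul_eq_mul]
    _ ≤ M₁ * (M₂ * (M₃ * (K * (M₃ * F ^ 2)) / (M₁ * M₂))) := by gcongr
    _ = _ := by field_simp

lemma seg_I4 {a b c k X Δ Q : ℝ} (ha : 0 < a) (hb : 0 < b) (hac : a ≤ c) (hbc : b ≤ c)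
    (hk : 1 ≤ k) (hX : 0 < X) (hΔ : 1 ≤ Δ) (hQ : 0 ≤ Q) :
    Δ * √(a / c * (b / c)) * (Q * (√(k * (c ^ 2 * X / a) * (c * X)) *
      √(k * (c ^ 2 * X / b) * (c * X))) + a * b * (Δ * Q * X ^ 2)) ≤
      2 * k * Δ ^ 2 * Q * (c ^ 2 * X ^ 2) := by
  have hc : 0 < c := ha.trans_le hac
  have e1 : √(a / c * (b / c)) * (√(k * (c ^ 2 * X / a) * (c * X)) *
      √(k * (c ^ 2 * X / b) * (c * X))) = k * (c ^ 2 * X ^ 2) := by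
    rw [← Real.sqrt_mul (by positivity), ← Real.sqrt_mul (by positivity),
      Real.sqrt_eq_iff_mul_self_eq (by positivity) (by positivity)]
    field_simp
  have e2 : √(a / c * (b / c)) ≤ 1 := Real.sqrt_le_one.2
    (mul_le_one₀ ((div_le_one hc).2 hac) (by positivity) ((div_le_one hc).2 hbc))
  calc _ = Δ * Q * (√(a / c * (b / c)) * (√(k * (c ^ 2 * X / a) * (c * X)) *
      √(k * (c ^ 2 * X / b) * (c * X)))) + Δ ^ 2 * Q * X ^ 2 * (√(a / c * (b / c)) * (a * b)) := by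
        ring
    _ ≤ Δ ^ 2 * Q * (k * (c ^ 2 * X ^ 2)) + Δ ^ 2 * Q * X ^ 2 * (k * (c * c)) := by
        rw [e1]
        gcongr
        · nlinarith
        · exact e2.trans hk
    _ = _ := by ring

lemma end_I4 {a b c k X Δ m t B N : ℝ} (ha : 0 < a) (hb : 0 < b) (hac : a ≤ c) (hbc : b ≤ c)
    (hk : 1 ≤ k) (hX : 0 < X) (hΔ : 1 ≤ Δ) (ht : 1 ≤ t) (hN : 0 < N) (hm : c ≤ m)
    (h : m * t ^ 2 * B ^ 2 ≤ Δ * N * X) :
    4 * (2 * k * Δ ^ 2 * (m ^ 2 / t ^ 2) * (c ^ 2 * X ^ 2)) / (N * c) +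
      144 * (a / c * (b / c)) * (c * (k * (c ^ 2 * X) * (c * (Δ * m * B) ^ 2))) / (N * c) ^ 2 ≤
      152 * k * Δ ^ 3 * (m ^ 2 / t ^ 2 * (c * X ^ 2 / N)) := by
  have hc : 0 < c := ha.trans_le hac
  have e2 : a / c * (b / c) ≤ 1 :=
    mul_le_one₀ ((div_le_one hc).2 hac) (by positivity) ((div_le_one hc).2 hbc)
  have e3 : c * t ^ 2 * B ^ 2 ≤ Δ * N * X := le_trans (by gcongr) h
  calc _ = 8 * k * Δ ^ 2 * (m ^ 2 / t ^ 2 * (c * X ^ 2 / N)) * 1 +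
        144 * k * Δ ^ 2 * (m ^ 2 / t ^ 2 * (c * X / N ^ 2)) *
          (a / c * (b / c) * (c * t ^ 2 * B ^ 2)) := by
        field_simp
        ring
    _ ≤ 8 * k * Δ ^ 2 * (m ^ 2 / t ^ 2 * (c * X ^ 2 / N)) * Δ +
        144 * k * Δ ^ 2 * (m ^ 2 / t ^ 2 * (c * X / N ^ 2)) * (1 * (Δ * N * X)) := by gcongr
    _ = _ := by
        field_simp
        ring

theorem i4_stmt (hS : ShearStmt) (hE : Exp4Stmt) (hG : GY4Stmt) : I4Stmt := by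
  refine ⟨152, by norm_num, ?_⟩
  intro N L M₁ M₂ M₃ S₁ S₂ S₃ e₁ e₂ e₃ m t Δ B X k ν γ χ₁ χ₂ bk hm dat bb gh hγ hk w1 w2
  obtain ⟨d1, d2, d3, l1, l2, s1, s2, s3⟩ := bk
  obtain ⟨hN, -, ht, -, hΔ, -, hX, hν, -, -, hF, hB, -⟩ := dat
  have a1 : (0 : ℝ) < M₁ := by exact_mod_cast d1.1
  have a2 : (0 : ℝ) < M₂ := by exact_mod_cast d2.1
  have a3 : (0 : ℝ) < M₃ := by exact_mod_cast d3.1
  have a0 : (0 : ℝ) < N := by exact_mod_cast hN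
  have b1 : (M₁ : ℝ) ≤ M₃ := by exact_mod_cast l1
  have b2 : (M₂ : ℝ) ≤ M₃ := by exact_mod_cast l2
  have c3 : (S₃.card : ℝ) ≤ M₃ := by exact_mod_cast d3.card_le
  obtain ⟨u, u1, u2, u3⟩ := hG L ν S₃ _ X χ₁ d3.one_le w1 hν
  obtain ⟨v, v1, v2, v3⟩ := hG L ν S₃ _ X χ₂ d3.one_le w2 hν
  have g := gh S₃ fun n hn => ⟨d3.one_le n hn, by
    have : (n : ℝ) ≤ 2 * M₃ := by exact_mod_cast (mem_Ico.1 (d3.2 hn)).2.le
    linarith⟩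
  have cq := cq_Sq2 d1 d2 d3 L ν γ w1.cont w2.cont
  refine le_trans ?_ (end_I4 a1 a2 b1 b2 hk hX hΔ ht a0 hm hB)
  rw [BX_congr d1.1 d2.1 d3.1 (G := fun z w =>
    if 0 < z ∧ 0 < w then Sq2 L ν S₁ S₂ S₃ γ χ₁ χ₂ z w else 0) fun z w hz hw =>
      (if_pos ⟨hz, hw⟩).symm]
  refine hS _ _ _ _ _ e₁ e₂ e₃ _ (by positivity) ((div_le_one a3).2 b1) (by positivity)
    ((div_le_one a3).2 b2) (by positivity) s1 s2 s3 (by positivity)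
    (ContinuousOn.congr cq fun p hp => if_pos hp) (fun z w => ?_) (fun z w => ?_)
    fun κ σ z₀ z₁ ln => ?_
  · split_ifs with h
    · exact sum_nonneg fun n₁ h1 => sum_nonneg fun n₂ h2 => mul_nonneg (mul_pos
        (w1.2 _ (div_pos h.1 (Dy.pos d1 h1))).1 (w2.2 _ (div_pos h.2 (Dy.pos d2 h2))).1).le
        (sq_nonneg _)
    · exact le_rfl
  · split_ifs with h
    · rw [← mul_div_assoc] at w1 w2
      exact top_I4 d1 d2 d3 l1 l2 hγ hF (by positivity) w1 w2 h.1 h.2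
    · positivity
  · have e : ∫ z in z₀..z₁, (if 0 < z ∧ 0 < κ + σ * z then
        Sq2 L ν S₁ S₂ S₃ γ χ₁ χ₂ z (κ + σ * z) else 0) =
        ∫ z in z₀..z₁, Sq2 L ν S₁ S₂ S₃ γ χ₁ χ₂ z (κ + σ * z) := by
      refine intervalIntegral.integral_congr fun z hz => ?_
      rw [Set.uIcc_of_le ln.2.2.2.2.2.2.1] at hz
      exact if_pos (ln.pos hz)
    rw [e]
    refine (hE _ _ κ σ z₀ z₁ L (6 * L) M₁ M₂ S₁ S₂ S₃ γ ν χ₁ χ₂ u v ln d1 d2 d3.one_le hγ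
      (fun x hx => (w1.2 x hx).1.le) (fun x hx => (w2.2 x hx).1.le) w1.cont w2.cont u1
      v1).trans ?_
    refine le_trans (bb M₁ M₂ _ _ κ σ z₀ z₁ _ _ _ _ u v d1.1 (b1.trans hm) d2.1 (b2.trans hm) ln
      (by positivity) (u2.trans ?_) (v2.trans ?_) (fun ρ h => (u3 ρ h).trans g)
      fun ρ h => (v3 ρ h).trans g) (seg_I4 a1 a2 b1 b2 hk hX hΔ (by positivity))
    · gcongr
    · gcongr

end Pool.Agent.MP_2a1f0e_nt.GM4
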