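import Pool.Agent.MP_2a1f0e_nt.GM4.Basic
import Pool.Agent.MP_2a1f0e_nt.GM2.CV
import Pool.Agent.MP_2a1f0e_nt.GM.Par
import Pool.Agent.MP_2a1f0e_nt.GM.Pt
import Pool.Agent.MP_2a1f0e_nt.GM.PhExp

set_option autoImplicit false

open Finset

namespace Pool.Agent.MP_2a1f0e_nt.GM4

open GM GM2 GM3

lemma period_IWs {F : ℝ → ℝ} (h : Function.Periodic F (2 * Real.pi)) (s : ℝ) :
    ∫ θ in s..(s + 2 * Real.pi), F θ = ∫ θ in (-Real.pi)..Real.pi, F θ := by
  have := h.intervalIntegral_add_eq s (-Real.pi)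
  rwa [show -Real.pi + 2 * Real.pi = Real.pi by ring] at this

lemma three_IWs {g : ℝ → ℝ} (h : Per g) :
    ∫ θ in (-(3 * Real.pi))..(3 * Real.pi), g (Real.exp θ) = 3 * mo g := by
  have a1 := period_IWs h.periodic (-(3 * Real.pi))
  have a2 := period_IWs h.periodic Real.pi
  rw [show -(3 * Real.pi) + 2 * Real.pi = -Real.pi by ring] at a1
  rw [show Real.pi + 2 * Real.pi = 3 * Real.pi by ring] at a2
  rw [← intervalIntegral.integral_add_adjacent_intervals (b := -Real.pi)
      (h.cont.intervalIntegrable _ _) (h.cont.intervalIntegrable _ _),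
    ← intervalIntegral.integral_add_adjacent_intervals (a := -Real.pi) (b := Real.pi)
      (h.cont.intervalIntegrable _ _) (h.cont.intervalIntegrable _ _), a1, a2, mo]
  ring

lemma exp_pow_IWs (k : ℕ) : (2.7 : ℝ) ^ k ≤ Real.exp k := by
  have h := Real.exp_one_gt_d9
  have : Real.exp k = Real.exp 1 ^ k := by rw [← Real.exp_nat_mul, mul_one]
  rw [this]
  exact pow_le_pow_left₀ (by norm_num) (by linarith) k

lemma iw_le_IWs {g : ℝ → ℝ} (h : Per g) : IW g ≤ 435 * mo g := by
  have hpi := Real.pi_gt_three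
  have e9 : (145 : ℝ) ≤ Real.exp 9 := by
    have := exp_pow_IWs 9
    push_cast at this
    linarith [show (145 : ℝ) ≤ 2.7 ^ 9 by norm_num]
  obtain ⟨α, hα⟩ : ∃ α : ℝ, α = Real.log (1 / 144) := ⟨_, rfl⟩
  obtain ⟨β, hβ⟩ : ∃ β : ℝ, β = Real.log (1 / 144 + 144) := ⟨_, rfl⟩
  have eα : Real.exp α = 1 / 144 := by rw [hα, Real.exp_log (by norm_num)]
  have eβ : Real.exp β = 1 / 144 + 144 := by rw [hβ, Real.exp_log (by norm_num)]
  have hαβ : α ≤ β := by
    rw [← Real.exp_le_exp, eα, eβ]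
    norm_num
  have hβ9 : β ≤ 9 := by
    rw [← Real.exp_le_exp, eβ]
    linarith
  have hα9 : -9 ≤ α := by
    rw [← Real.exp_le_exp, eα, Real.exp_neg, one_div]
    exact inv_anti₀ (by norm_num) (by linarith)
  have k1 : IW g = ∫ θ in α..β, g (Real.exp θ) * Real.exp θ := by
    have := intervalIntegral.integral_comp_mul_deriv' (a := α) (b := β) (f := Real.exp)
      (f' := Real.exp) (g := g) (fun x _ => Real.hasDerivAt_exp x)
      Real.continuous_exp.continuousOn
      (h.1.mono fun y hy => by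
        obtain ⟨x, -, rfl⟩ := hy
        exact Real.exp_pos x)
    rw [eα, eβ] at this
    exact this.symm
  have k2 : ∫ θ in α..β, g (Real.exp θ) * Real.exp θ ≤ ∫ θ in α..β, 145 * g (Real.exp θ) := by
    refine intervalIntegral.integral_mono_on hαβ
      ((h.cont.mul Real.continuous_exp).intervalIntegrable _ _)
      ((continuous_const.mul h.cont).intervalIntegrable _ _) fun θ hθ => ?_
    have := Real.exp_le_exp.2 hθ.2
    rw [mul_comm]
    exact mul_le_mul_of_nonneg_right (by linarith) (h.2.1 _)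
  have k3 : ∫ θ in α..β, g (Real.exp θ) ≤
      ∫ θ in (-(3 * Real.pi))..(3 * Real.pi), g (Real.exp θ) :=
    intervalIntegral.integral_mono_interval (by linarith) hαβ (by linarith)
      (Filter.Eventually.of_forall fun θ => h.2.1 _) (h.cont.intervalIntegrable _ _)
  rw [three_IWs h] at k3
  rw [intervalIntegral.integral_const_mul] at k2
  linarith

theorem iw_stmt : IWStmt := by
  refine ⟨435, by norm_num, fun g h => ⟨iw_le_IWs h, ?_⟩⟩
  have := iw_le_IWs h.inv
  rwa [mo_inv] at this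

theorem mo_stmt : MoStmt := by
  intro L ν
  refine ⟨per_ph L ν, ?_⟩
  have hp := (per_ph L ν).pow 2
  have e : ∀ θ : ℝ, ph L ν (Real.exp θ) ^ 2 = P_CV (Io L) (fun t => (ν t : ℂ)) θ := fun θ => by
    simp only [ph, FT, P_CV, pw_exp]
  have a1 := period_IWs hp.periodic (-Real.pi)
  have a2 := period_IWs hp.periodic (-Real.pi + 2 * Real.pi)
  have a3 := pars_CV (Io L) (fun t => (ν t : ℂ)) (-Real.pi)
  simp only [← e] at a3
  rw [← intervalIntegral.integral_add_adjacent_intervals (b := -Real.pi + 2 * Real.pi)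
    (hp.cont.intervalIntegrable _ _) (hp.cont.intervalIntegrable _ _),
    show -Real.pi + 4 * Real.pi = -Real.pi + 2 * Real.pi + 2 * Real.pi by ring, a1, a2] at a3
  have a4 : N2 (Io L) (fun t => (ν t : ℂ)) = ∑ a ∈ Io L, ν a ^ 2 :=
    sum_congr rfl fun a _ => by rw [Complex.norm_real, Real.norm_eq_abs, sq_abs]
  rw [a4] at a3
  unfold mo
  linarith

lemma gs_le_IWs (L : ℕ) {x : ℝ} (h1 : 1 / 8 ≤ x) (h2 : x ≤ 7 / 8) : ‖gs L x‖ ≤ 4 := by
  have k1 : 1 / 2 ≤ ‖ex x - 1‖ := by
    rcases le_total x (1 / 2) with h | h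
    · have := norm_ex_sub_one (x := x) (by rw [abs_of_pos (by linarith)]; exact h)
      rw [abs_of_pos (by linarith)] at this
      linarith
    · have := norm_ex_sub_one (x := x + ((-1 : ℤ) : ℝ)) (by
        push_cast
        rw [abs_of_neg (by linarith)]
        linarith)
      rw [ex_add, ex_int, mul_one] at this
      push_cast at this
      rw [abs_of_neg (by linarith)] at this
      linarith
  have k2 : ‖gs L x‖ * ‖ex x - 1‖ ≤ 2 := by
    rw [← norm_mul, gs_mul]
    refine (norm_sub_le _ _).trans ?_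
    rw [norm_ex, norm_one]
    norm_num
  have := mul_le_mul_of_nonneg_left k1 (norm_nonneg (gs L x))
  linarith

lemma theta_IWs {N a a' : ℕ} (hN : 1 ≤ N) (ha : a ∈ Icc N (2 * N)) (ha' : a' ∈ Icc N (2 * N))
    {v : ℝ} (hv : v ∈ Set.Icc (9 : ℝ) 24) :
    1 ≤ Real.log v + Real.log a - Real.log a' ∧ Real.log v + Real.log a - Real.log a' ≤ 4 := by
  obtain ⟨h1, h2⟩ := mem_Icc.1 ha
  obtain ⟨h3, h4⟩ := mem_Icc.1 ha'
  have hN' : (1 : ℝ) ≤ N := by exact_mod_cast hN
  have h1' : (N : ℝ) ≤ a := by exact_mod_cast h1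
  have h2' : (a : ℝ) ≤ 2 * N := by exact_mod_cast h2
  have h3' : (N : ℝ) ≤ a' := by exact_mod_cast h3
  have h4' : (a' : ℝ) ≤ 2 * N := by exact_mod_cast h4
  obtain ⟨hv1, hv2⟩ := hv
  have hvp : 0 < v := by linarith
  have hap : (0 : ℝ) < a := by linarith
  have hap' : (0 : ℝ) < a' := by linarith
  have e4 : (48 : ℝ) ≤ Real.exp 4 := by
    have := exp_pow_IWs 4
    push_cast at this
    linarith [show (48 : ℝ) ≤ 2.7 ^ 4 by norm_num]
  have e1 := Real.exp_one_lt_d9
  have k1 : Real.log (v * a) ≤ Real.log (Real.exp 4 * a') :=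
    Real.log_le_log (by positivity) (by nlinarith)
  have k2 : Real.log (Real.exp 1 * a') ≤ Real.log (v * a) :=
    Real.log_le_log (by positivity) (by nlinarith)
  rw [Real.log_mul hvp.ne' hap.ne', Real.log_mul (Real.exp_pos _).ne' hap'.ne', Real.log_exp]
    at k1 k2
  constructor <;> linarith

theorem ptW_stmt : PtWStmt := by
  refine ⟨64, by norm_num, fun N L hN hL b hb v hv => ?_⟩
  have e := expand_Pt triang_stmt N L b 0 v
  simp only [zero_add] at e
  rw [e]
  have hL' : (1 : ℝ) ≤ L := by exact_mod_cast hL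
  have hN' : (1 : ℝ) ≤ N := by exact_mod_cast hN
  have hpi := Real.pi_gt_three
  have hpi' := Real.pi_lt_four
  have key : ∀ a ∈ Icc N (2 * N), ∀ a' ∈ Icc N (2 * N),
      ‖(b a * pw (a : ℝ) ((0 : ℤ) : ℝ)) * (starRingEnd ℂ) (b a' * pw (a' : ℝ) ((0 : ℤ) : ℝ)) /
        (L : ℂ) * ((‖gs L ((Real.log v + Real.log a - Real.log a') / (2 * Real.pi))‖ ^ 2 : ℝ) : ℂ)‖
        ≤ 16 := by
    intro a ha a' ha'
    obtain ⟨t1, t2⟩ := theta_IWs hN ha ha' hv
    have g1 := gs_le_IWs L (x := (Real.log v + Real.log a - Real.log a') / (2 * Real.pi))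
      (by rw [le_div_iff₀ (by positivity)]; linarith)
      (by rw [div_le_iff₀ (by positivity)]; linarith)
    have g2 := pow_le_pow_left₀ (norm_nonneg _) g1 2
    rw [norm_mul, norm_div, norm_mul, Complex.norm_conj, norm_mul, norm_mul, norm_pw, norm_pw,
      mul_one, mul_one, Complex.norm_natCast, Complex.norm_real, Real.norm_eq_abs,
      abs_of_nonneg (sq_nonneg _)]
    have g3 : ‖b a‖ * ‖b a'‖ / (L : ℝ) ≤ 1 := by
      rw [div_le_one (by positivity)]
      exact (mul_le_one₀ (hb a) (norm_nonneg _) (hb a')).trans hL'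
    have g4 := mul_le_mul g3 g2 (sq_nonneg _) zero_le_one
    linarith
  have hc : ((Icc N (2 * N)).card : ℝ) ≤ 2 * N := by
    rw [Nat.card_Icc, show 2 * N + 1 - N = N + 1 by omega]
    push_cast
    linarith
  refine (norm_sum_le _ _).trans ((sum_le_card_nsmul _ _ (2 * (N : ℝ) * 16) fun a ha =>
    (norm_sum_le _ _).trans ((sum_le_card_nsmul _ _ 16 (key a ha)).trans ?_)).trans ?_)
  · rw [nsmul_eq_mul]
    linarith
  · rw [nsmul_eq_mul]
    nlinarith

end Pool.Agent.MP_2a1f0e_nt.GM4
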