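import Pool.Agent.MP_2a1f0e_nt.GM4.Basic
import Pool.Agent.MP_2a1f0e_nt.GM3.Int3
set_option autoImplicit false
open Finset
namespace Pool.Agent.MP_2a1f0e_nt.GM4
open GM GM2 GM3

lemma small_Int4 {y V T T₁ : ℝ} (hy : 1 ≤ y) (hV : 0 < V) (h4 : V ^ 2 ≤ y ^ 34)
    (h1 : T₁ ≤ y ^ 26) (h2 : y ^ 26 ≤ 2 * T₁) (h3 : T₁ ≤ T) :
    (T / T₁ + 1) * ((y ^ 21) ^ 2 + √T₁ * (y ^ 21) ^ 3 / V ^ 2) ≤ 8 * (T * y ^ 50 / V ^ 2) := by
  have hy0 : 0 < y := by linarith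
  have h6 : 0 < y ^ 26 := by positivity
  have hT₁ : 0 < T₁ := by linarith
  have a1 : √T₁ ≤ y ^ 13 := Real.sqrt_le_iff.2 ⟨by positivity, by rw [← pow_mul]; exact h1⟩
  have a2 : (y ^ 21) ^ 2 ≤ y ^ 76 / V ^ 2 := by
    rw [le_div_iff₀ (by positivity)]
    calc (y ^ 21) ^ 2 * V ^ 2 ≤ (y ^ 21) ^ 2 * y ^ 34 := by gcongr
      _ = y ^ 76 := by rw [← pow_mul, ← pow_add]
  have a3 : √T₁ * (y ^ 21) ^ 3 / V ^ 2 ≤ y ^ 76 / V ^ 2 := by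
    calc √T₁ * (y ^ 21) ^ 3 / V ^ 2 ≤ y ^ 13 * (y ^ 21) ^ 3 / V ^ 2 := by gcongr
      _ = y ^ 76 / V ^ 2 := by rw [← pow_mul, ← pow_add]
  have hT : 0 < T := by linarith
  have a4 : T / T₁ + 1 ≤ 4 * T / y ^ 26 := by
    have b1 : 1 ≤ T / T₁ := (one_le_div hT₁).2 h3
    have b2 : T / T₁ ≤ 2 * T / y ^ 26 := by
      rw [div_le_div_iff₀ hT₁ h6]
      calc T * y ^ 26 ≤ T * (2 * T₁) := by gcongr
        _ = 2 * T * T₁ := by ring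
    have b3 : 4 * T / y ^ 26 = 2 * (2 * T / y ^ 26) := by ring
    linarith
  have e : y ^ 76 = y ^ 26 * y ^ 50 := by rw [← pow_add]
  calc (T / T₁ + 1) * ((y ^ 21) ^ 2 + √T₁ * (y ^ 21) ^ 3 / V ^ 2)
      ≤ (4 * T / y ^ 26) * (y ^ 76 / V ^ 2 + y ^ 76 / V ^ 2) := by gcongr
    _ = 8 * (T * y ^ 50 / V ^ 2) := by
      rw [e]
      generalize y ^ 26 = p at h6
      generalize y ^ 50 = q
      field_simp
      ring

lemma quart_Int4 {y V : ℝ} (hy : 1 ≤ y) (hV : 0 < V) (h4 : y ^ 34 ≤ V ^ 2) :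
    (y ^ 21) ^ 4 / V ^ 4 ≤ y ^ 50 / V ^ 2 := by
  have hy0 : 0 < y := by linarith
  rw [div_le_div_iff₀ (by positivity) (by positivity)]
  have e : (y ^ 21) ^ 4 = y ^ 50 * y ^ 34 := by rw [← pow_mul, ← pow_add]
  calc (y ^ 21) ^ 4 * V ^ 2 = y ^ 50 * V ^ 2 * y ^ 34 := by
        rw [e]; exact mul_right_comm _ _ _
    _ ≤ y ^ 50 * V ^ 2 * V ^ 2 := by gcongr
    _ = y ^ 50 * V ^ 4 := by rw [mul_assoc, ← pow_add]

lemma long_Int4 {y V T : ℝ} (hy : 1 ≤ y) (hV : 0 < V) (h4 : y ^ 34 ≤ V ^ 2)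
    (h5 : V ≤ 2 * y ^ 21) (hT : (y ^ 21) ^ 2 ≤ T) :
    (T / (y ^ 21) ^ 2 + 1) * ((y ^ 21) ^ 2 + (y ^ 21) ^ 2 * (y ^ 21) ^ 4 / V ^ 4) ≤
      10 * (T * y ^ 50 / V ^ 2) := by
  have hy0 : 0 < y := by linarith
  have hT0 : 0 < T := lt_of_lt_of_le (by positivity) hT
  have a1 : T / (y ^ 21) ^ 2 + 1 ≤ 2 * (T / (y ^ 21) ^ 2) := by
    have : 1 ≤ T / (y ^ 21) ^ 2 := (one_le_div (by positivity)).2 hT
    linarith
  have a2 := quart_Int4 hy hV h4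
  have a3 : 1 ≤ 4 * (y ^ 50 / V ^ 2) := by
    rw [← mul_div_assoc, one_le_div (by positivity)]
    calc V ^ 2 ≤ (2 * y ^ 21) ^ 2 := by gcongr
      _ = 4 * y ^ 42 := by rw [mul_pow, ← pow_mul]; norm_num
      _ ≤ 4 * y ^ 50 := by gcongr; norm_num
  have hp : 0 < y ^ 21 := by positivity
  have hq : 0 < y ^ 50 := by positivity
  generalize y ^ 21 = p at *
  generalize y ^ 50 = q at *
  calc (T / p ^ 2 + 1) * (p ^ 2 + p ^ 2 * p ^ 4 / V ^ 4)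
      ≤ 2 * (T / p ^ 2) * (p ^ 2 + p ^ 2 * p ^ 4 / V ^ 4) := by gcongr
    _ = 2 * T * (1 + p ^ 4 / V ^ 4) := by field_simp
    _ ≤ 2 * T * (4 * (q / V ^ 2) + q / V ^ 2) := by gcongr
    _ = 10 * (T * q / V ^ 2) := by ring

theorem int4_stmt (h5 : B5Stmt) (h2 : B2Stmt) (hB : BlkStmt) : Int4Stmt := by
  intro ε hε
  obtain ⟨K₁, hK₁, h1⟩ := h5 ε hε
  obtain ⟨K₂, hK₂, h2⟩ := h2 ε hε
  refine ⟨8 * K₁ + 10 * K₂, by positivity, fun N T hN hT b hb V hV => ?_⟩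
  have hN' : (1 : ℝ) ≤ N := by exact_mod_cast hN
  have hN0 : (0 : ℝ) < N := by linarith
  obtain ⟨y, hy, hNy, h12⟩ :
      ∃ y : ℝ, 1 ≤ y ∧ (N : ℝ) = y ^ 21 ∧ (N : ℝ) ^ (50 / 21 : ℝ) = y ^ 50 := by
    refine ⟨(N : ℝ) ^ (1 / 21 : ℝ), Real.one_le_rpow hN' (by norm_num), ?_, ?_⟩
    · rw [← Real.rpow_natCast, ← Real.rpow_mul hN0.le]; norm_num
    · rw [← Real.rpow_natCast, ← Real.rpow_mul hN0.le]; norm_num
  have hy0 : 0 < y := by linarith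
  have hP : 0 < (N : ℝ) ^ ε := Real.rpow_pos_of_pos hN0 ε
  rw [h12, add_div]
  have hG : 0 ≤ (T : ℝ) * y ^ 50 / V ^ 2 := by positivity
  have hA : 0 ≤ √(T : ℝ) * (N : ℝ) ^ 3 / V ^ 2 := by positivity
  have hN2 : 0 ≤ (N : ℝ) ^ 2 := by positivity
  have key : ∀ k Z : ℝ, 0 ≤ k → k ≤ 8 * K₁ + 10 * K₂ →
      Z ≤ (N : ℝ) ^ 2 + (√T * (N : ℝ) ^ 3 / V ^ 2 + T * y ^ 50 / V ^ 2) →
      k * (N : ℝ) ^ ε * Z ≤ (8 * K₁ + 10 * K₂) * (N : ℝ) ^ ε *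
        ((N : ℝ) ^ 2 + (√T * (N : ℝ) ^ 3 / V ^ 2 + T * y ^ 50 / V ^ 2)) := by
    intro k Z hk hk' hZ
    refine (mul_le_mul_of_nonneg_left hZ (by positivity)).trans ?_
    gcongr
  by_cases c1 : T ^ 21 ≤ N ^ 26
  · exact (h1 N T hN hT c1 b hb V hV).trans (key _ _ hK₁.le (by linarith) (by linarith))
  have hT6 : y ^ 26 < T := by
    refine lt_of_pow_lt_pow_left₀ 21 (Nat.cast_nonneg T) ?_
    have : ((N : ℝ)) ^ 26 < (T : ℝ) ^ 21 := by exact_mod_cast not_le.1 c1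
    rw [hNy] at this
    calc (y ^ 26) ^ 21 = (y ^ 21) ^ 26 := by rw [← pow_mul, ← pow_mul]
      _ < _ := this
  rcases le_total (V ^ 2) (y ^ 34) with c2 | c2
  · have a1 : N ≤ ⌊y ^ 26⌋₊ := Nat.le_floor (by rw [hNy]; gcongr; norm_num)
    have a2 : (⌊y ^ 26⌋₊ : ℝ) ≤ y ^ 26 := Nat.floor_le (by positivity)
    have a3 : ⌊y ^ 26⌋₊ ^ 21 ≤ N ^ 26 := by
      have : (⌊y ^ 26⌋₊ : ℝ) ^ 21 ≤ (N : ℝ) ^ 26 := by
        calc (⌊y ^ 26⌋₊ : ℝ) ^ 21 ≤ (y ^ 26) ^ 21 := by gcongr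
          _ = (N : ℝ) ^ 26 := by rw [hNy, ← pow_mul, ← pow_mul]
      exact_mod_cast this
    have a4 : y ^ 26 ≤ 2 * (⌊y ^ 26⌋₊ : ℝ) := by
      have b1 := Nat.lt_floor_add_one (y ^ 26)
      have b2 : (1 : ℝ) ≤ ⌊y ^ 26⌋₊ := by exact_mod_cast hN.trans a1
      linarith
    refine (hB N T _ V _ hN (hN.trans a1) (fun b hb => h1 N _ hN a1 a3 b hb V hV) b hb).trans ?_
    refine le_trans ?_ (key (8 * K₁) (T * y ^ 50 / V ^ 2) (by positivity) (by linarith)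
      (by linarith))
    have := mul_le_mul_of_nonneg_left (small_Int4 hy hV c2 a2 a4 (a2.trans hT6.le))
      (mul_pos hK₁ hP).le
    rw [← hNy] at this
    linarith
  by_cases c3 : T ≤ N ^ 2
  · refine (h2 N T hN hT c3 b hb V hV).trans (key _ _ hK₂.le (by linarith) ?_)
    have := mul_le_mul_of_nonneg_left (quart_Int4 hy hV c2) (Nat.cast_nonneg (α := ℝ) T)
    rw [← hNy, ← mul_div_assoc, ← mul_div_assoc] at this
    linarith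
  by_cases c4 : V ≤ 2 * y ^ 21
  · have a1 : N ≤ N ^ 2 := Nat.le_self_pow two_ne_zero N
    refine (hB N T _ V _ hN (hN.trans a1)
      (fun b hb => h2 N _ hN a1 le_rfl b hb V hV) b hb).trans ?_
    refine le_trans ?_ (key (10 * K₂) (T * y ^ 50 / V ^ 2) (by positivity) (by linarith)
      (by linarith))
    have a2 : (y ^ 21) ^ 2 ≤ (T : ℝ) := by
      rw [← hNy]; exact_mod_cast (not_le.1 c3).le
    have := mul_le_mul_of_nonneg_left (long_Int4 hy hV c2 c4 a2) (mul_pos hK₂ hP).le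
    rw [← hNy] at this
    push_cast
    linarith
  · have : Mass N b (Icc 0 (T : ℤ)) V = 0 := by
      unfold Mass
      rw [filter_false_of_mem, sum_empty]
      intro t _ h
      have := norm_DP_le N b hb t
      rw [← hNy] at c4
      exact c4 (by linarith)
    rw [this]
    positivity

theorem final4_stmt (hI : Int4Stmt) (hT : TayStmt) : Final4Stmt := by
  intro ε hε
  obtain ⟨K, hK, h⟩ := hI ε hε
  refine ⟨36 * 36 * K, fun N T V hN hNT hV b hb W hW hsep hWV => ?_⟩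
  have hT0 : 0 ≤ T := (Nat.cast_nonneg N).trans hNT
  have h1 : (⌊T⌋₊ : ℝ) ≤ T := Nat.floor_le hT0
  have h2 := hT N ⌊T⌋₊ V _ hN hV
    (fun b hb => h N ⌊T⌋₊ hN (Nat.le_floor hNT) b hb (V / 6) (by positivity)) b hb W
    (fun t ht => ⟨(hW t ht).1, (hW t ht).2.trans_lt (Nat.lt_floor_add_one T)⟩) hsep hWV
  have h3 : (W.card : ℝ) * V ^ 2 ≤ ∑ t ∈ W, ‖DP N b t‖ ^ 2 := by
    rw [← nsmul_eq_mul]
    exact card_nsmul_le_sum W _ _ fun t ht => pow_le_pow_left₀ hV.le (hWV t ht) 2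
  have h4 : √(⌊T⌋₊ : ℝ) * (N : ℝ) ^ 3 + ⌊T⌋₊ * (N : ℝ) ^ (50 / 21 : ℝ) ≤
      √T * (N : ℝ) ^ 3 + T * (N : ℝ) ^ (50 / 21 : ℝ) := by gcongr
  have h5 : (N : ℝ) ^ 2 +
      (√(⌊T⌋₊ : ℝ) * (N : ℝ) ^ 3 + ⌊T⌋₊ * (N : ℝ) ^ (50 / 21 : ℝ)) / (V / 6) ^ 2
      ≤ 36 * ((N : ℝ) ^ 2 + (√T * (N : ℝ) ^ 3 + T * (N : ℝ) ^ (50 / 21 : ℝ)) / V ^ 2) := by
    have e : (V / 6) ^ 2 = V ^ 2 / 36 := by ring
    rw [e, div_div_eq_mul_div, mul_div_right_comm]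
    have := div_le_div_of_nonneg_right h4 (sq_nonneg V)
    nlinarith [sq_nonneg (N : ℝ)]
  have h6 : 0 ≤ K * (N : ℝ) ^ ε := by positivity
  have h7 := (h3.trans h2).trans
    (mul_le_mul_of_nonneg_left (mul_le_mul_of_nonneg_left h5 h6) (by norm_num))
  rw [← le_div_iff₀ (by positivity)] at h7
  refine h7.trans_eq ?_
  field_simp
  ring

end Pool.Agent.MP_2a1f0e_nt.GM4
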