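import Pool.Agent.MP_2a1f0e_nt.GM4.Basic
import Pool.Agent.MP_2a1f0e_nt.GM2.Core
import Pool.Agent.MP_2a1f0e_nt.GM2.Blk2

set_option autoImplicit false

open Finset

namespace Pool.Agent.MP_2a1f0e_nt.GM4

open GM GM2 GM3

lemma opt_J0 {x p q : ℝ} (hp : 0 ≤ p) (hq : 0 ≤ q)
    (h : ∀ τ : ℝ, 0 < τ → x ≤ (τ * p + q / τ) / 2) : x ≤ √p * √q := by
  refine le_of_forall_pos_le_add fun ε hε => ?_
  have a0 := Real.sqrt_nonneg p
  have b0 := Real.sqrt_nonneg q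
  have a2 := Real.mul_self_sqrt hp
  have b2 := Real.mul_self_sqrt hq
  generalize √p = a at *
  generalize √q = b at *
  subst a2 b2
  obtain ⟨δ, hδ, hd⟩ : ∃ δ : ℝ, 0 < δ ∧ δ * (a + b) ≤ ε := by
    refine ⟨ε / (a + b + 1), by positivity, ?_⟩
    rw [div_mul_eq_mul_div, div_le_iff₀ (by positivity)]
    nlinarith
  have h1 := h ((b + δ) / (a + δ)) (by positivity)
  have h2 : (b + δ) / (a + δ) * (a * a) ≤ (b + δ) * a := by
    rw [div_mul_eq_mul_div, div_le_iff₀ (by positivity)]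
    have : 0 ≤ (b + δ) * a * δ := by positivity
    nlinarith
  have h3 : b * b / ((b + δ) / (a + δ)) ≤ (a + δ) * b := by
    rw [div_div_eq_mul_div, div_le_iff₀ (by positivity)]
    have : 0 ≤ (a + δ) * b * δ := by positivity
    nlinarith
  nlinarith

theorem cs_stmt : CSStmt := by
  intro N M₁ M₂ M₃ e₁ e₂ e₃ F G H K h1 h2 h3 hF hG hH hK h
  have hF' : CQ F := hF
  have hG' : CQ G := hG
  have hH' : CQ H := hH
  have hK' : CQ K := hK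
  rw [← sub_le_iff_le_add]
  refine opt_J0 (BX_nonneg h1 h2 h3 fun z w hz hw => (h z w 1 hz hw one_pos).1)
    (BX_nonneg h1 h2 h3 fun z w hz hw => (h z w 1 hz hw one_pos).2.1) fun τ hτ => ?_
  have c1 : CQ fun z w => τ / 2 * G z w := (cq_const _).mul hG'
  have c2 : CQ fun z w => 1 / (2 * τ) * H z w := (cq_const _).mul hH'
  have k := BX_mono (N := N) (e₁ := e₁) (e₂ := e₂) (e₃ := e₃) h1 h2 h3 hF' ((c1.add c2).add hK')
    fun z w hz hw => (h z w τ hz hw hτ).2.2.trans (le_of_eq (by field_simp))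
  rw [BX_add h1 h2 h3 (c1.add c2) hK', BX_add h1 h2 h3 c1 c2, BX_const_mul, BX_const_mul] at k
  rw [sub_le_iff_le_add]
  refine k.trans (le_of_eq ?_)
  field_simp

lemma line_J0 {C a b κ σ z₀ z₁ X p q : ℝ} (hC : 0 < C) (hL : Line a b κ σ z₀ z₁) (L : ℕ)
    (ν : ℤ → ℝ) (hp : 0 < p) (hq : 0 < q) (hX : ∑ t ∈ Io L, ν t ^ 2 ≤ X)
    (h : ∀ (D : Finset ℤ) (c : ℤ → ℂ),
      ∫ z in z₀..z₁, ‖∑ ρ ∈ D, c ρ * pw ((κ + σ * z) / z) ρ‖ ^ 2 ≤ C * (a * b) * N2 D c) :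
    ∫ z in z₀..z₁, ph L ν ((κ + σ * z) / z * p / q) ^ 2 ≤ C * (a * b) * X := by
  have hz : z₀ ≤ z₁ := hL.2.2.2.2.2.2.1
  have ha : 0 < a := hL.1
  have hb : 0 < b := hL.2.2.1
  refine le_of_eq_of_le ?_ ((h (Io L) fun t => (ν t : ℂ) * pw (p / q) t).trans
    (mul_le_mul_of_nonneg_left (le_of_eq_of_le ?_ hX) (by positivity)))
  · refine intervalIntegral.integral_congr fun z hz' => ?_
    rw [Set.uIcc_of_le hz] at hz'
    simp only [ph, FT]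
    congr 2
    refine sum_congr rfl fun t _ => ?_
    rw [mul_div_assoc _ p, pw_mul (div_pos (hL.pos hz').2 (hL.pos hz').1).ne' (div_pos hp hq).ne']
    ring
  · exact sum_congr rfl fun t _ => by
      rw [norm_mul, norm_pw, mul_one, Complex.norm_real, Real.norm_eq_abs, sq_abs]

lemma dsum_J0 {M₁ M₂ : ℕ} {S₁ S₂ : Finset ℕ} (h1 : Dy M₁ S₁) (h2 : Dy M₂ S₂) {f : ℕ → ℕ → ℝ}
    {Y : ℝ} (hY : 0 ≤ Y) (h : ∀ n₁ ∈ S₁, ∀ n₂ ∈ S₂, f n₁ n₂ ≤ Y) :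
    ∑ n₁ ∈ S₁, ∑ n₂ ∈ S₂, f n₁ n₂ ≤ M₁ * M₂ * Y := by
  have c1 : (S₁.card : ℝ) ≤ M₁ := by exact_mod_cast h1.card_le
  have c2 : (S₂.card : ℝ) ≤ M₂ := by exact_mod_cast h2.card_le
  refine (sum_le_card_nsmul _ _ (M₂ * Y) fun n₁ a =>
    (sum_le_card_nsmul _ _ Y (h n₁ a)).trans ?_).trans ?_
  · rw [nsmul_eq_mul]
    exact mul_le_mul_of_nonneg_right c2 hY
  · rw [nsmul_eq_mul, mul_assoc]
    exact mul_le_mul_of_nonneg_right c1 (by positivity)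

theorem j0_stmt (hS : ShearStmt) (hC : CVStmt) : J0Stmt := by
  obtain ⟨C, hC0, hC⟩ := hC
  refine ⟨4 * C + 144, by positivity, fun N L M₁ M₂ M₃ S₁ S₂ S₃ e₁ e₂ e₃ A X ν hN hB hA hX => ?_⟩
  obtain ⟨o1, o2, o3⟩ := hB.one
  obtain ⟨d1, d2, -, l1, l2, s1, s2, s3⟩ := hB
  have hX0 : 0 ≤ X := (sum_nonneg fun _ _ => sq_nonneg _).trans hX
  have m1 : (0 : ℝ) < M₁ := by exact_mod_cast o1
  have m2 : (0 : ℝ) < M₂ := by exact_mod_cast o2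
  have m3 : (0 : ℝ) < M₃ := by exact_mod_cast o3
  have n0 : (0 : ℝ) < N := by exact_mod_cast hN
  have hP : Per fun v => min (ph L ν v) A ^ 2 := ((per_ph L ν).min hA).pow 2
  have hQ : Per fun v => ph L ν v ^ 2 := (per_ph L ν).pow 2
  have hm : ∀ v, 0 ≤ min (ph L ν v) A := fun v => le_min (ph_nonneg L ν v) hA
  have cq : CQ fun z w => ∑ n₁ ∈ S₁, ∑ n₂ ∈ S₂, min (ph L ν (w / z * n₁ / n₂)) A ^ 2 :=
    cq_sum _ fun _ a => cq_sum _ fun _ b => cq_u hP.1 (Dy.pos d1 a) (Dy.pos d2 b)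
  have key := hS ((M₁ : ℝ) / M₃) ((M₂ : ℝ) / M₃) ((N : ℝ) * M₃) (M₁ * M₂ * A ^ 2)
    (M₁ * M₂ * (C * ((M₁ : ℝ) / M₃ * ((M₂ : ℝ) / M₃)) * X)) e₁ e₂ e₃
    (fun z w => ∑ n₁ ∈ S₁, ∑ n₂ ∈ S₂, min (ph L ν (w / z * n₁ / n₂)) A ^ 2) (by positivity)
    ((div_le_one m3).2 (by exact_mod_cast l1)) (by positivity)
    ((div_le_one m3).2 (by exact_mod_cast l2)) (by positivity) s1 s2 s3 (by positivity) cq
    (fun z w => sum_nonneg fun _ _ => sum_nonneg fun _ _ => sq_nonneg _)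
    (fun z w => dsum_J0 d1 d2 (sq_nonneg _) fun _ _ _ _ =>
      pow_le_pow_left₀ (hm _) (min_le_right _ _) 2) fun κ σ z₀ z₁ hL => ?_
  · refine key.trans ?_
    have e1 : 4 * (M₁ * M₂ * (C * ((M₁ : ℝ) / M₃ * ((M₂ : ℝ) / M₃)) * X)) / ((N : ℝ) * M₃) =
        4 * C * (ab M₁ M₂ M₃ ^ 2 * (M₃ * X / N)) := by
      unfold ab
      field_simp
    have e2 : 144 * ((M₁ : ℝ) / M₃ * ((M₂ : ℝ) / M₃)) * (M₁ * M₂ * A ^ 2) / ((N : ℝ) * M₃) ^ 2 =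
        144 * (ab M₁ M₂ M₃ ^ 2 * (A ^ 2 / (N : ℝ) ^ 2)) := by
      unfold ab
      field_simp
    rw [e1, e2, mul_assoc (4 * C + 144), mul_add]
    have p1 : 0 ≤ ab M₁ M₂ M₃ ^ 2 * (M₃ * X / N) := by positivity
    have p2 : 0 ≤ ab M₁ M₂ M₃ ^ 2 * (A ^ 2 / (N : ℝ) ^ 2) := by positivity
    nlinarith [mul_nonneg hC0.le p2]
  · have hz : z₀ ≤ z₁ := hL.2.2.2.2.2.2.1
    have ci : ∀ {g : ℝ → ℝ}, Per g → ∀ n₁ ∈ S₁, ∀ n₂ ∈ S₂, IntervalIntegrable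
        (fun z => g ((κ + σ * z) / z * n₁ / n₂)) MeasureTheory.volume z₀ z₁ := by
      intro g hg n₁ a n₂ b
      refine ContinuousOn.intervalIntegrable_of_Icc hz (hg.1.comp ?_ fun p hp => ?_)
      · have cz : ContinuousOn (fun z : ℝ => z) (Set.Icc z₀ z₁) := continuousOn_id
        have cw : ContinuousOn (fun z : ℝ => κ + σ * z) (Set.Icc z₀ z₁) := by fun_prop
        exact ((cw.div cz fun p hp => (hL.pos hp).1.ne').mul continuousOn_const).div_const _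
      · exact div_pos (mul_pos (div_pos (hL.pos hp).2 (hL.pos hp).1) (Dy.pos d1 a)) (Dy.pos d2 b)
    rw [intervalIntegral.integral_finsetSum fun n₁ a => by
      have := IntervalIntegrable.sum S₂ fun n₂ b => ci hP n₁ a n₂ b
      rwa [Finset.sum_fn] at this]
    refine (sum_le_sum fun n₁ a => le_of_eq
      (intervalIntegral.integral_finsetSum fun n₂ b => ci hP n₁ a n₂ b)).trans
      (dsum_J0 d1 d2 (by positivity) fun n₁ a n₂ b => ?_)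
    refine (intervalIntegral.integral_mono_on hz (ci hP n₁ a n₂ b) (ci hQ n₁ a n₂ b)
      fun z _ => pow_le_pow_left₀ (hm _) (min_le_left _ _) 2).trans ?_
    exact line_J0 hC0 hL L ν (Dy.pos d1 a) (Dy.pos d2 b) hX fun D c => (hC _ _ _ _ _ _ hL D c).2.2

end Pool.Agent.MP_2a1f0e_nt.GM4
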