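import Pool.Agent.MP_2a1f0e_nt.GM4.Basic

set_option autoImplicit false

open Finset

namespace Pool.Agent.MP_2a1f0e_nt.GM4

open GM GM2 GM3

lemma num1_J4 {P Q R α s r t x B Δ N C g₁ a₁ g₂ a₂ : ℝ} (hP : 0 < P) (hQ : 0 < Q) (hR : 0 < R)
    (hα : α = P * Q / R ^ 2) (hs : 0 ≤ s) (hr0 : 0 ≤ r) (hr : r * s ≤ Q) (hx : 0 < x) (ht : 0 ≤ t)
    (hB : 0 ≤ B) (hΔ : 1 ≤ Δ) (hN : 0 < N) (hC : 0 ≤ C) (b1 : 0 ≤ a₁) (b2 : 0 ≤ a₂)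
    (h1 : g₁ ≤ 9 * x ^ 2) (h2 : a₁ ≤ C * (9 * x ^ 2)) (h3 : g₂ ≤ s * (t * x) * (3 * x))
    (h4 : a₂ ≤ C * (6 * B * x)) :
    P / (R ^ 2 * x ^ 2) * (α / N * (Q * R * g₁ * a₁ + r * Δ * g₂ * a₂)) ≤
      81 * C * (Δ * α ^ 2 * ((R * x ^ 2 + t * x * B) / N)) := by
  have h0 : 0 < α := by
    rw [hα]
    positivity
  have hΔ0 : 0 ≤ Δ := by linarith
  calc _ ≤ P / (R ^ 2 * x ^ 2) * (α / N * (Q * R * (9 * x ^ 2) * (C * (9 * x ^ 2)) +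
          r * Δ * (s * (t * x) * (3 * x)) * (C * (6 * B * x)))) := by gcongr
    _ = C * α / N * (81 * (P * Q / R ^ 2) * 1 * (R * x ^ 2) +
          18 * (P * (r * s) / R ^ 2) * Δ * (t * x * B)) := by field_simp; ring
    _ ≤ C * α / N * (81 * (P * Q / R ^ 2) * Δ * (R * x ^ 2) +
          81 * (P * Q / R ^ 2) * Δ * (t * x * B)) := by gcongr; norm_num
    _ = _ := by rw [← hα]; ring

lemma num2_J4 {P R α s t x B Δ N C m b : ℝ} (hP : 0 < P) (hPR : P ≤ R) (h0 : 0 ≤ α)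
    (hs : s ^ 2 = α) (hx : 0 < x) (ht : 0 ≤ t) (htm : t ^ 2 ≤ m)
    (hB : 0 ≤ B) (hΔ : 1 ≤ Δ) (hN : 0 < N) (hC : 0 ≤ C) (b0 : 0 ≤ b) (hb : m * b ≤ C * (Δ * x ^ 2)) :
    P / (R ^ 2 * x ^ 2) * (s * (t * x)) ^ 2 * (α / N * (P * R * b)) ≤
      C * (Δ * α ^ 2 * ((R * x ^ 2 + t * x * B) / N)) := by
  have hR : 0 < R := hP.trans_le hPR
  have hΔ0 : 0 ≤ Δ := by linarith
  calc _ = α ^ 2 / N * ((P / R) ^ 2 * R * (t ^ 2 * b)) := by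
        rw [mul_pow, hs]
        field_simp
    _ ≤ α ^ 2 / N * (1 ^ 2 * R * (C * (Δ * x ^ 2))) := by
        have h1 := (mul_le_mul_of_nonneg_right htm b0).trans hb
        have h2 := (div_le_one hR).2 hPR
        gcongr α ^ 2 / N * (?_ ^ 2 * R * ?_)
    _ = C * (Δ * α ^ 2 * ((R * x ^ 2 + 0) / N)) := by ring
    _ ≤ _ := by gcongr; positivity

lemma num0_J4 {R α s t x B Δ N : ℝ} (hR : 1 ≤ R) (h1 : α ≤ 1) (hs : s ^ 2 = α) (hx : 0 < x)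
    (ht : 0 ≤ t) (htN : t ^ 2 ≤ Δ * N) (hB : 0 ≤ B) (hΔ : 1 ≤ Δ) (hN : 0 < N) :
    α ^ 2 * (R * x ^ 2 / N + (s * (t * x)) ^ 2 / N ^ 2) ≤
      2 * (Δ * α ^ 2 * ((R * x ^ 2 + t * x * B) / N)) := by
  have h0 : 0 ≤ α := hs ▸ sq_nonneg s
  have hΔ0 : 0 ≤ Δ := by linarith
  calc _ = α ^ 2 * (1 * (R * x ^ 2 / N) + α * t ^ 2 * (1 * x ^ 2) / N ^ 2) := by
        rw [mul_pow, hs]
        ring
    _ ≤ α ^ 2 * (Δ * (R * x ^ 2 / N) + 1 * (Δ * N) * (R * x ^ 2) / N ^ 2) := by gcongr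
    _ = 2 * (Δ * α ^ 2 * ((R * x ^ 2 + 0) / N)) := by field_simp; ring
    _ ≤ _ := by gcongr; positivity

lemma root_J4 {P Q R α : ℝ} (hP : 0 < P) (hQ : 0 < Q) (hPR : P ≤ R) (hα : α = P * Q / R ^ 2) :
    √(Q * R) * √α ≤ Q := by
  have hR : 0 < R := hP.trans_le hPR
  rw [← Real.sqrt_mul (by positivity), Real.sqrt_le_left hQ.le, hα]
  calc Q * R * (P * Q / R ^ 2) = P / R * Q ^ 2 := by field_simp
    _ ≤ 1 * Q ^ 2 := by gcongr; exact (div_le_one hR).2 hPR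
    _ = _ := one_mul _

lemma sq_mo_J4 {g : ℝ → ℝ} (hg : Per g) {β μ y : ℝ} (hβ : ∀ v, 0 < v → g v ≤ β) (h0 : 0 ≤ β)
    (hμ : mo g ≤ μ) (hy : 0 ≤ y) (h : β * μ ≤ y ^ 2) : √(mo fun v => g v ^ 2) ≤ y := by
  rw [Real.sqrt_le_left hy]
  refine (mo_mono (hg.pow 2) ((per_const h0).mul hg) fun v hv => ?_).trans ?_
  · rw [sq]
    exact mul_le_mul_of_nonneg_right (hβ v hv) (hg.2.1 v)
  · rw [mo_const_mul]
    exact (mul_le_mul_of_nonneg_left hμ h0).trans h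

lemma cq_div_J4 {F : ℝ → ℝ → ℝ} (hF : CQ F) (c : ℝ) : CQ fun z w => F z w / c :=
  ContinuousOn.div_const hF c

lemma pt_J4 (S : Finset ℕ) {g A H₁ H₂ : ℝ} {a b a' b' : ℕ → ℝ} (hg : g ≤ A)
    (h1 : 0 ≤ H₁) (h2 : 0 ≤ H₂) (hb : ∀ n, 0 ≤ b n) (hb' : ∀ n, 0 ≤ b' n) :
    g * (1 + (∑ n ∈ S, (a n + b n)) / H₁ + (∑ n ∈ S, (a' n + b' n)) / H₂) ≤
      g + H₁⁻¹ * ∑ n ∈ S, g * a n * 1 + H₁⁻¹ * A * ∑ n ∈ S, 1 * b n * 1 +
        H₂⁻¹ * ∑ n ∈ S, g * 1 * a' n + H₂⁻¹ * A * ∑ n ∈ S, 1 * 1 * b' n := by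
  simp only [mul_one, one_mul, sum_add_distrib, ← mul_sum]
  have c1 := mul_le_mul_of_nonneg_right hg
    (mul_nonneg (inv_nonneg.2 h1) (sum_nonneg fun n (_ : n ∈ S) => hb n))
  have c2 := mul_le_mul_of_nonneg_right hg
    (mul_nonneg (inv_nonneg.2 h2) (sum_nonneg fun n (_ : n ∈ S) => hb' n))
  rw [div_eq_inv_mul, div_eq_inv_mul]
  linarith

theorem j4_stmt (h0 : J0Stmt) (hB : BPStmt) (hC : CvStmt) (hH : HtpStmt) (hM : MoStmt) :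
    J4Stmt := by
  obtain ⟨C0, p0, h0⟩ := h0
  obtain ⟨CB, pB, hB⟩ := hB
  obtain ⟨Cc, pC, hC⟩ := hC
  refine ⟨2 * C0 + 164 * CB * Cc, by positivity, ?_⟩
  intro N L M₁ M₂ M₃ S₁ S₂ S₃ e₁ e₂ e₃ m t Δ B X ν hk hm hD hd
  obtain ⟨a1, a2, a3, a4, a5, a6, a7, a8, -, a10, -, -, a13⟩ := hD
  obtain ⟨m1, m2, m3⟩ := hk.one
  have k0 := h0 N L M₁ M₂ M₃ S₁ S₂ S₃ e₁ e₂ e₃ (√(ab M₁ M₂ M₃) * (t * √X)) X ν a1 hk
    (by positivity) a8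
  have kB := fun g h => hB N M₁ M₂ M₃ S₁ S₂ S₃ e₁ e₂ e₃ Δ g h a1 hk hd
  obtain ⟨d1, d2, d3, l1, l2, -⟩ := hk
  obtain ⟨x, hx, rfl⟩ : ∃ x, 0 < x ∧ X = x ^ 2 :=
    ⟨√X, Real.sqrt_pos.2 a7, (Real.sq_sqrt a7.le).symm⟩
  rw [Real.sqrt_sq hx.le] at k0 ⊢
  have r1 : (0 : ℝ) < M₁ := by exact_mod_cast m1
  have r2 : (0 : ℝ) < M₂ := by exact_mod_cast m2
  have r3 : (1 : ℝ) ≤ M₃ := by exact_mod_cast m3
  have r4 : (M₁ : ℝ) ≤ M₃ := by exact_mod_cast l1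
  have r5 : (M₂ : ℝ) ≤ M₃ := by exact_mod_cast l2
  have rN : (0 : ℝ) < N := by exact_mod_cast a1
  have t0 : 0 ≤ t := by linarith
  have hα : ab M₁ M₂ M₃ = M₁ * M₂ / (M₃ : ℝ) ^ 2 := by
    rw [ab]
    ring
  have hα' : ab M₁ M₂ M₃ = M₂ * M₁ / (M₃ : ℝ) ^ 2 := by rw [hα, mul_comm]
  have α0 := (ab_pos m1 m2 m3).le
  have α1 : ab M₁ M₂ M₃ ≤ 1 := by
    rw [hα, div_le_one (by positivity), sq]
    gcongr
  have hs := Real.sq_sqrt α0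
  have s0 := Real.sqrt_nonneg (ab M₁ M₂ M₃)
  have q1 := root_J4 r1 r2 r4 hα
  have q2 := root_J4 r2 r1 r5 hα'
  generalize √(ab M₁ M₂ M₃) = s at *
  have A0 : 0 ≤ s * (t * x) := by positivity
  have B0 : 0 ≤ 4 * B ^ 2 := by positivity
  have pφ := (per_ph L ν).pow 2
  have mφ : mo (fun v => ph L ν v ^ 2) ≤ 9 * x ^ 2 := by
    rw [(hM L ν).2]
    exact mul_le_mul (by linarith [Real.pi_lt_four]) a8 (sum_nonneg fun _ _ => sq_nonneg _)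
      (by norm_num)
  have pg := ((per_ph L ν).min A0).pow 2
  have hg : ∀ v, min (ph L ν v) (s * (t * x)) ^ 2 ≤ (s * (t * x)) ^ 2 := fun v =>
    pow_le_pow_left₀ (le_min (ph_nonneg L ν v) A0) (min_le_right _ _) 2
  have mg : mo (fun v => min (ph L ν v) (s * (t * x)) ^ 2) ≤ 9 * x ^ 2 :=
    (mo_mono pg pφ fun v _ =>
      pow_le_pow_left₀ (le_min (ph_nonneg L ν v) A0) (min_le_left _ _) 2).trans mφ
  have sg := sq_mo_J4 pg (fun v _ => hg v) (sq_nonneg _) mg (y := s * (t * x) * (3 * x))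
    (by positivity) (le_of_eq (by ring))
  obtain ⟨pa, ma, ha⟩ := hC (2 * L) _ (pφ.min B0)
  obtain ⟨pb, mb, -⟩ := hC (2 * L) _ (pφ.max (4 * B ^ 2))
  have ma' := ma.trans (mul_le_mul_of_nonneg_left
    ((mo_mono (pφ.min B0) pφ fun v _ => min_le_left _ _).trans mφ) pC.le)
  have sa := sq_mo_J4 pa (ha _ fun v _ => min_le_right _ _) (by positivity) ma'
    (y := Cc * (6 * B * x)) (by positivity) (le_of_eq (by ring))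
  have mb' := (mul_le_mul_of_nonneg_left mb ((sq_nonneg t).trans a4)).trans
    ((mul_left_comm _ _ _).trans_le (mul_le_mul_of_nonneg_left a10 pC.le))
  obtain ⟨ph1, -, hcv⟩ := hH L ν S₃ d3.one_le
  have pc := (hC (2 * L) _ ph1).1
  have hsp : ∀ y : ℝ, 0 < y → cv (2 * L) (fun v => ph L ν v ^ 2) y =
      cv (2 * L) (fun v => min (ph L ν v ^ 2) (4 * B ^ 2)) y +
        cv (2 * L) (fun v => max (ph L ν v ^ 2 - 4 * B ^ 2) 0) y := fun y hy => by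
    rw [← cv_add _ (pφ.min B0) (pφ.max _) hy]
    congr 1
    funext v
    rcases le_total (ph L ν v ^ 2) (4 * B ^ 2) with h | h
    · rw [min_eq_left h, max_eq_right (sub_nonpos.2 h), add_zero]
    · rw [min_eq_right h, max_eq_left (sub_nonneg.2 h), add_sub_cancel]
  have hrow : ∀ (y : ℝ) (n : ℕ), 0 < y → (0 : ℝ) < n → cv (2 * L) (hS L ν S₃) (y / n) =
      ∑ k ∈ S₃, (cv (2 * L) (fun v => min (ph L ν v ^ 2) (4 * B ^ 2)) (y * k / n) +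
        cv (2 * L) (fun v => max (ph L ν v ^ 2 - 4 * B ^ 2) 0) (y * k / n)) := fun y n hy hn => by
    rw [hcv _ _ (div_pos hy hn)]
    refine sum_congr rfl fun k hk => ?_
    rw [div_mul_eq_mul_div, hsp _ (div_pos (mul_pos hy (Dy.pos d3 hk)) hn)]
  generalize cv (2 * L) (fun v => min (ph L ν v ^ 2) (4 * B ^ 2)) = ga at *
  generalize cv (2 * L) (fun v => max (ph L ν v ^ 2 - 4 * B ^ 2) 0) = gb at *
  have c0 : CQ fun z w => ∑ n₁ ∈ S₁, ∑ n₂ ∈ S₂,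
      min (ph L ν (w / z * n₁ / n₂)) (s * (t * x)) ^ 2 :=
    cq_sum _ fun _ a => cq_sum _ fun _ b => cq_u pg.1 (Dy.pos d1 a) (Dy.pos d2 b)
  have c1 := (cq_const ((M₃ : ℝ) ^ 2 * x ^ 2 / M₁)⁻¹).mul (cq_TB d1 d2 d3 pg pa per_one)
  have c2 := (cq_const (((M₃ : ℝ) ^ 2 * x ^ 2 / M₁)⁻¹ * (s * (t * x)) ^ 2)).mul
    (cq_TB d1 d2 d3 per_one pb per_one)
  have c3 := (cq_const ((M₃ : ℝ) ^ 2 * x ^ 2 / M₂)⁻¹).mul (cq_TB d1 d2 d3 pg per_one pa)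
  have c4 := (cq_const (((M₃ : ℝ) ^ 2 * x ^ 2 / M₂)⁻¹ * (s * (t * x)) ^ 2)).mul
    (cq_TB d1 d2 d3 per_one per_one pb)
  refine (BX_mono m1 m2 m3 (cq_sum _ fun _ a => cq_sum _ fun _ b =>
    (cq_u pg.1 (Dy.pos d1 a) (Dy.pos d2 b)).mul (((cq_const 1).add
      (cq_div_J4 (cq_z' pc.1 (Dy.pos d1 a)) _)).add
      (cq_div_J4 (cq_w' pc.1 (Dy.pos d2 b)) _)))
    ((((c0.add c1).add c2).add c3).add c4) fun z w hz hw => ?_).trans ?_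
  · simp only [mul_sum S₁, mul_sum S₂, ← sum_add_distrib (s := S₁), ← sum_add_distrib (s := S₂)]
    refine sum_le_sum fun n₁ a => sum_le_sum fun n₂ b => ?_
    rw [hrow z n₁ hz (Dy.pos d1 a), hrow w n₂ hw (Dy.pos d2 b)]
    exact pt_J4 S₃ (hg _) (by positivity) (by positivity) (fun _ => pb.2.1 _) fun _ => pb.2.1 _
  rw [BX_add m1 m2 m3 (((c0.add c1).add c2).add c3) c4, BX_add m1 m2 m3 ((c0.add c1).add c2) c3,
    BX_add m1 m2 m3 (c0.add c1) c2, BX_add m1 m2 m3 c0 c1, BX_const_mul, BX_const_mul,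
    BX_const_mul, BX_const_mul, inv_div, inv_div]
  obtain ⟨-, k1, k3, -⟩ := kB _ _ pg pa
  obtain ⟨-, -, -, k2, k4⟩ := kB _ _ pg pb
  have n0 := mul_le_mul_of_nonneg_left (num0_J4 r3 α1 hs hx t0 a13 a6 a5 rN) p0.le
  have n1 := mul_le_mul_of_nonneg_left (num1_J4 r1 r2 (by linarith) hα s0 (Real.sqrt_nonneg _) q1
    hx t0 a6 a5 rN pC.le pa.mo_nonneg (Real.sqrt_nonneg _) mg ma' sg sa) pB.le
  have n3 := mul_le_mul_of_nonneg_left (num1_J4 r2 r1 (by linarith) hα' s0 (Real.sqrt_nonneg _) q2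
    hx t0 a6 a5 rN pC.le pa.mo_nonneg (Real.sqrt_nonneg _) mg ma' sg sa) pB.le
  have n2 := mul_le_mul_of_nonneg_left
    (num2_J4 r1 r4 α0 hs hx t0 a4 a6 a5 rN pC.le pb.mo_nonneg mb') pB.le
  have n4 := mul_le_mul_of_nonneg_left
    (num2_J4 r2 r5 α0 hs hx t0 a4 a6 a5 rN pC.le pb.mo_nonneg mb') pB.le
  have j1 := mul_le_mul_of_nonneg_left k1 (show 0 ≤ M₁ / ((M₃ : ℝ) ^ 2 * x ^ 2) by positivity)
  have j3 := mul_le_mul_of_nonneg_left k3 (show 0 ≤ M₂ / ((M₃ : ℝ) ^ 2 * x ^ 2) by positivity)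
  have j2 := mul_le_mul_of_nonneg_left k2
    (show 0 ≤ M₁ / ((M₃ : ℝ) ^ 2 * x ^ 2) * (s * (t * x)) ^ 2 by positivity)
  have j4 := mul_le_mul_of_nonneg_left k4
    (show 0 ≤ M₂ / ((M₃ : ℝ) ^ 2 * x ^ 2) * (s * (t * x)) ^ 2 by positivity)
  rw [mul_left_comm _ CB] at j1 j2 j3 j4
  rw [mul_assoc C0] at k0
  refine (add_le_add (add_le_add (add_le_add (add_le_add (k0.trans n0) (j1.trans n1))
    (j2.trans n2)) (j3.trans n3)) (j4.trans n4)).trans_eq ?_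
  ring

end Pool.Agent.MP_2a1f0e_nt.GM4
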