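import Pool.Agent.MP_2a1f0e_nt.GM4.Basic
import Pool.Agent.MP_2a1f0e_nt.GM.PhExp

set_option autoImplicit false

open Finset

namespace Pool.Agent.MP_2a1f0e_nt.GM4

open GM GM2 GM3

/-- the Fejer kernel without normalisation -/
noncomputable def G_Jack (D : ℕ) (t : ℝ) : ℝ := ‖gs D (t / (2 * Real.pi))‖ ^ 2

lemma ex_Jack (u t : ℝ) : ex (u * (t / (2 * Real.pi))) = Complex.exp (Complex.I * u * t) := by
  have : (Real.pi : ℂ) ≠ 0 := by exact_mod_cast Real.pi_ne_zero
  unfold ex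
  congr 1
  push_cast
  field_simp

lemma exp_Jack (D : ℕ) (t : ℝ) : (G_Jack D t : ℂ) =
    ∑ u ∈ Io D, ((((D : ℝ) - |(u : ℝ)|) : ℝ) : ℂ) * Complex.exp (Complex.I * u * t) := by
  rw [G_Jack, ← triang_stmt D]
  refine sum_congr rfl fun u _ => ?_
  rw [ex_Jack, Complex.ofReal_intCast]

lemma cont_Jack (D : ℕ) : Continuous (G_Jack D) :=
  ((continuous_gs D).comp (continuous_id.div_const _)).norm.pow 2

lemma orth_Jack {u : ℤ} (hu : u ≠ 0) :
    ∫ t in (-Real.pi)..Real.pi, Complex.exp (Complex.I * u * t) = 0 := by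
  rw [integral_exp_mul_complex (mul_ne_zero Complex.I_ne_zero (Int.cast_ne_zero.2 hu)),
    show Complex.I * u * (Real.pi : ℝ) =
      Complex.I * u * ((-Real.pi : ℝ) : ℂ) + u * (2 * Real.pi * Complex.I) by push_cast; ring,
    Complex.exp_add, Complex.exp_int_mul_two_pi_mul_I, mul_one, sub_self, zero_div]

lemma int_Jack {D : ℕ} (hD : 1 ≤ D) :
    ∫ t in (-Real.pi)..Real.pi, G_Jack D t = 2 * Real.pi * D := by
  apply Complex.ofReal_injective
  rw [← intervalIntegral.integral_ofReal]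
  simp only [exp_Jack]
  rw [intervalIntegral.integral_finsetSum fun u _ => Continuous.intervalIntegrable (by fun_prop) _ _,
    sum_eq_single_of_mem 0 (mem_Io.2 (by omega)) fun u _ hu => by
      rw [intervalIntegral.integral_const_mul, orth_Jack hu, mul_zero]]
  simp [two_mul]

lemma le_Jack (D : ℕ) (t : ℝ) : G_Jack D t * (1 + (D : ℝ) ^ 2 * ch t) ≤ 5 * (D : ℝ) ^ 2 := by
  have h1 : G_Jack D t ≤ (D : ℝ) ^ 2 := pow_le_pow_left₀ (norm_nonneg _) (norm_gs_le _ _) 2
  have h2 : ‖ex (t / (2 * Real.pi)) - 1‖ ^ 2 = ch t := by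
    have := ex_Jack 1 t
    rw [one_mul, Complex.ofReal_one, mul_one, mul_comm Complex.I] at this
    rw [this, Complex.sq_norm, Complex.normSq_apply, Complex.sub_re, Complex.sub_im,
      Complex.exp_ofReal_mul_I_re, Complex.exp_ofReal_mul_I_im, Complex.one_re, Complex.one_im, ch]
    linear_combination Real.sin_sq_add_cos_sq t
  have h3 : G_Jack D t * ch t ≤ 2 ^ 2 := by
    rw [G_Jack, ← h2, ← mul_pow, ← norm_mul, gs_mul]
    refine pow_le_pow_left₀ (norm_nonneg _) ((norm_sub_le _ _).trans ?_) 2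
    rw [norm_ex, norm_one]
    norm_num
  nlinarith [mul_le_mul_of_nonneg_left h3 (sq_nonneg (D : ℝ))]

lemma ge_Jack {D : ℕ} (hD : 1 ≤ D) {t : ℝ} (ht : |t| ≤ 1 / D) :
    ((D : ℝ) / 2) ^ 2 ≤ G_Jack D t := by
  have d0 : (0 : ℝ) < D := by exact_mod_cast hD
  refine pow_le_pow_left₀ (by positivity) (le_trans ?_ (Complex.re_le_norm _)) 2
  rw [gs, Complex.re_sum]
  refine le_trans (le_of_eq ?_) (card_nsmul_le_sum _ _ (1 / 2) fun r hr => ?_)
  · rw [card_range, nsmul_eq_mul]
    ring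
  · have h1 : (r : ℝ) ≤ D := by exact_mod_cast (mem_range.1 hr).le
    have h2 : |r * t| ≤ 1 := by
      rw [abs_mul, Nat.abs_cast]
      exact (mul_le_mul h1 ht (abs_nonneg _) d0.le).trans (le_of_eq (by field_simp))
    rw [ex_Jack, mul_assoc, mul_comm, ← Complex.ofReal_mul, Complex.exp_ofReal_mul_I_re]
    have h3 := Real.one_sub_sq_div_two_le_cos (x := r * t)
    have h4 : (r * t) ^ 2 ≤ 1 := (sq_le_one_iff_abs_le_one _).2 h2
    linarith

lemma low_Jack {D : ℕ} (hD : 1 ≤ D) :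
    (D : ℝ) ^ 3 / 8 ≤ ∫ t in (-Real.pi)..Real.pi, G_Jack D t ^ 2 := by
  have d1 : (1 : ℝ) ≤ D := by exact_mod_cast hD
  have h0 : (0 : ℝ) < 1 / D := by positivity
  have h1 : 1 / (D : ℝ) ≤ Real.pi :=
    ((div_le_one (by linarith)).2 d1).trans (by linarith [Real.pi_gt_three])
  have hc := (cont_Jack D).pow 2
  refine le_trans ?_ (intervalIntegral.integral_mono_interval (neg_le_neg h1) (by linarith) h1
    (Filter.Eventually.of_forall fun t => sq_nonneg _) (hc.intervalIntegrable _ _))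
  refine le_trans (le_of_eq ?_) (intervalIntegral.integral_mono_on (by linarith)
    (continuous_const.intervalIntegrable _ _) (hc.intervalIntegrable _ _) fun t ht =>
      pow_le_pow_left₀ (sq_nonneg _) (ge_Jack hD (abs_le.2 ht)) 2)
  rw [intervalIntegral.integral_const, smul_eq_mul]
  field_simp
  ring

theorem jack_stmt : JackStmt := by
  refine ⟨80 * Real.pi, by positivity, fun D hD => ?_⟩
  have d0 : (0 : ℝ) < D := by exact_mod_cast hD
  have h1 := low_Jack hD
  obtain ⟨c, hc⟩ : ∃ c, c = ∫ t in (-Real.pi)..Real.pi, G_Jack D t ^ 2 := ⟨_, rfl⟩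
  rw [← hc] at h1
  have c0 : 0 < c := lt_of_lt_of_le (by positivity) h1
  refine ⟨fun t => c⁻¹ * G_Jack D t ^ 2, fun j => (c⁻¹ : ℝ) *
    ∑ p ∈ Io D ×ˢ Io D with p.1 + p.2 = j,
      ((((D : ℝ) - |(p.1 : ℝ)|) : ℝ) : ℂ) * ((((D : ℝ) - |(p.2 : ℝ)|) : ℝ) : ℂ),
    fun t => ?_, fun t => by positivity, ?_, ?_⟩
  · simp only [mul_assoc _ _ (Complex.exp _), ← mul_sum, sum_mul]
    rw [Complex.ofReal_mul, Complex.ofReal_pow, exp_Jack, pow_two, sum_mul_sum, ← sum_product',
      ← sum_fiberwise_of_maps_to (t := Io (2 * D)) (g := fun p : ℤ × ℤ => p.1 + p.2)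
        fun p hp => by
          have h1 := mem_Io.1 (mem_product.1 hp).1
          have h2 := mem_Io.1 (mem_product.1 hp).2
          exact mem_Io.2 (by push_cast; omega)]
    congr 1
    refine sum_congr rfl fun j _ => sum_congr rfl fun p hp => ?_
    rw [← (mem_filter.1 hp).2, Int.cast_add, mul_add, add_mul, Complex.exp_add]
    ring
  · rw [intervalIntegral.integral_const_mul, ← hc, inv_mul_cancel₀ c0.ne']
  · have hG := cont_Jack D
    have hch := continuous_ch
    refine (intervalIntegral.integral_mono_on (g := fun t => c⁻¹ * (5 * (D : ℝ) ^ 2) * G_Jack D t)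
      neg_pi_le (Continuous.intervalIntegrable (by fun_prop) _ _)
      (Continuous.intervalIntegrable (by fun_prop) _ _) fun t _ => ?_).trans ?_
    · have h2 : 0 ≤ c⁻¹ * G_Jack D t := mul_nonneg (by positivity) (sq_nonneg _)
      exact le_trans (le_of_eq (by ring))
        ((mul_le_mul_of_nonneg_left (le_Jack D t) h2).trans (le_of_eq (by ring)))
    · rw [intervalIntegral.integral_const_mul, int_Jack hD, mul_assoc, inv_mul_le_iff₀ c0]
      nlinarith [mul_le_mul_of_nonneg_right h1 Real.pi_pos.le]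

end Pool.Agent.MP_2a1f0e_nt.GM4
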