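import Pool.Agent.MP_2a1f0e_nt.GM4.Basic
import Pool.Agent.MP_2a1f0e_nt.DH.PowZ
import Pool.Agent.MP_2a1f0e_nt.GM2.BThree
set_option autoImplicit false
open Finset
namespace Pool.Agent.MP_2a1f0e_nt.GM4
open GM GM2 GM3

lemma four_Jut4 {A : ℕ} {Δ : ℝ} (hD : DivB (A ^ 4) Δ) (S : Finset ℕ)
    (hS : ∀ n ∈ S, 1 ≤ n ∧ n ≤ A) : ∃ d : ℕ → ℂ,
      (∀ l ∈ Icc 1 (A ^ 4), ‖d l‖ ≤ (A : ℝ) ^ 2 * Δ ^ 3 * DH.hf l) ∧
      (fun u => SS S u ^ 4) = DH.PP (A ^ 4) d := by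
  classical
  have h24 : A ^ 2 ≤ A ^ 4 := by
    rcases Nat.eq_zero_or_pos A with h | h
    · simp [h]
    · exact Nat.pow_le_pow_right h (by norm_num)
  have hΔ : 0 ≤ Δ := zero_le_one.trans hD.1
  have hc : ∀ l ∈ Icc 1 A, ‖(if l ∈ S then (1 : ℂ) else 0)‖ ≤ √A * DH.hf l := fun l hl => by
    obtain ⟨h1, h2⟩ := Finset.mem_Icc.1 hl
    have l0 : (0 : ℝ) < l := by exact_mod_cast h1
    have h3 : 1 ≤ √A * DH.hf l := by
      rw [DH.hf, mul_one_div, one_le_div (Real.sqrt_pos.2 l0)]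
      exact Real.sqrt_le_sqrt (by exact_mod_cast h2)
    refine le_trans ?_ h3
    split_ifs <;> simp
  have e : ∀ u, SS S u = DH.PP A (fun l => if l ∈ S then (1 : ℂ) else 0) u := fun u => by
    simp only [SS, DH.PP, ite_mul, one_mul, zero_mul, Finset.sum_ite_mem]
    rw [Finset.inter_eq_right.2 fun n hn => Finset.mem_Icc.2 (hS n hn)]
  obtain ⟨c, h1, h2⟩ := DH.prod_PowZ (A := A) (B := A) (L := A ^ 2) (pow_two A).ge
    (DH.DivB_mono hD h24) (Real.sqrt_nonneg _) (Real.sqrt_nonneg _) hc hc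
  rw [Real.mul_self_sqrt (Nat.cast_nonneg _)] at h1
  obtain ⟨d, h3, h4⟩ := DH.prod_PowZ (A := A ^ 2) (B := A ^ 2) (by rw [← pow_add]) hD
    (by positivity) (by positivity) h1 h1
  refine ⟨d, fun l hl => (h3 l hl).trans_eq (by ring), funext fun u => ?_⟩
  rw [← h4, ← h2, ← e]
  ring

theorem jut4_stmt (hP : DH.PosStmt) (hJ : DH.JutStmt) : Jut4Stmt := by
  intro δ hδ
  have hε : 0 < δ / 140 := by positivity
  obtain ⟨CJ, cj, hJ⟩ := hJ _ hε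
  obtain ⟨Cd, cd, hd⟩ := DH.exists_DivB hε
  refine ⟨1 + 256 * Cd ^ 6 * CJ * 16 ^ (δ / 20), le_add_of_nonneg_right (by positivity),
    fun y M L hy hM hL S hS g hg => ?_⟩
  have y0 : 0 < y := by linarith
  have eL : (((2 * M) ^ 4 : ℕ) : ℝ) = 16 * y ^ 20 := by
    push_cast
    rw [← hM]
    ring
  have y20 : 1 ≤ y ^ 20 := one_le_pow₀ hy
  have L1 : 1 ≤ (2 * M) ^ 4 := by
    have : (1 : ℝ) ≤ (((2 * M) ^ 4 : ℕ) : ℝ) := by rw [eL]; linarith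
    exact_mod_cast this
  obtain ⟨d, h1, h2⟩ := four_Jut4 (hd _ L1) S fun n hn => ⟨(hS n hn).1, by
    have := (hS n hn).2
    rw [hM] at this
    exact_mod_cast this⟩
  have hD : (2 * L) ^ 2 ≤ ((2 * M) ^ 4) ^ 3 := by
    have : (((2 * L) ^ 2 : ℕ) : ℝ) ≤ ((((2 * M) ^ 4) ^ 3 : ℕ) : ℝ) := by
      rw [Nat.cast_pow ((2 * M) ^ 4), eL]
      push_cast
      calc (2 * (L : ℝ)) ^ 2 ≤ (2 * y ^ 30) ^ 2 := by gcongr
        _ = 4 * y ^ 60 := by ring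
        _ ≤ 4096 * y ^ 60 := by gcongr; norm_num
        _ = _ := by ring
    exact_mod_cast this
  have hdi : DH.Diam (Io L) (2 * L) := fun a ha b hb => by
    have := Finset.mem_Ioo.1 ha
    have := Finset.mem_Ioo.1 hb
    push_cast
    exact abs_le.2 ⟨by omega, by omega⟩
  have h3 := hJ _ _ (Io L) g L1 hD hdi fun x _ => hg x
  have h4 := DH.EE_le_ZZ hP (by positivity) le_rfl h1 (Io L) g
  have e2 : ((2 * M : ℕ) : ℝ) ^ 2 = 4 * y ^ 10 := by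
    push_cast
    rw [← hM]
    ring
  have e3 : ((16 * y ^ 20) ^ (δ / 140)) ^ 7 = 16 ^ (δ / 20) * y ^ δ := by
    rw [← Real.rpow_mul_natCast (by positivity), Real.mul_rpow (by norm_num) (by positivity),
      ← Real.rpow_natCast y, ← Real.rpow_mul y0.le]
    congr 2 <;> push_cast <;> ring
  rw [eL] at h3 h4
  rw [e2] at h4
  rw [h2]
  have s1 : 0 ≤ ∑ a ∈ Io L, g a ^ 2 := Finset.sum_nonneg fun _ _ => sq_nonneg _
  generalize ∑ a ∈ Io L, g a ^ 2 = P at *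
  generalize ∑ a ∈ Io L, g a = Q at *
  have w0 : 0 ≤ (16 * y ^ 20) ^ (δ / 140) := by positivity
  generalize (16 * y ^ 20) ^ (δ / 140) = w at *
  have c0 : 0 ≤ Cd := by linarith
  calc _ ≤ (4 * y ^ 10 * (Cd * w) ^ 3) ^ 2 * (CJ * w * (16 * y ^ 20 * P + Q ^ 2)) :=
        h4.trans (mul_le_mul_of_nonneg_left h3 (sq_nonneg _))
    _ = Cd ^ 6 * CJ * w ^ 7 * (256 * (y ^ 40 * P) + 16 * (y ^ 20 * Q ^ 2)) := by ring
    _ ≤ Cd ^ 6 * CJ * w ^ 7 * (256 * (y ^ 40 * P) + 256 * (y ^ 20 * Q ^ 2)) := by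
        gcongr; norm_num
    _ = 256 * Cd ^ 6 * CJ * 16 ^ (δ / 20) * y ^ δ * (y ^ 40 * P + y ^ 20 * Q ^ 2) := by
        rw [e3]; ring
    _ ≤ _ := by gcongr; linarith

theorem set4_stmt (hO : Osc4Stmt) (hJ : Jut4Stmt) : Set4Stmt := by
  intro δ C₀ hδ hδ1 c0
  obtain ⟨CO, co, hO⟩ := hO δ hδ
  obtain ⟨CJ, cj, hJ⟩ := hJ δ hδ
  obtain ⟨Cd, cd, hd⟩ := DH.exists_DivB (ε := δ / 6) (by positivity)
  have c00 : 0 < C₀ := by linarith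
  obtain ⟨C, a1, a2, a3, a4⟩ : ∃ C : ℝ, Cd * (731 * C₀ ^ 6) ^ (δ / 6) ≤ C ∧ CO * C₀ ^ δ ≤ C ∧
      CJ * C₀ ^ δ ≤ C ∧ C₀ ^ 2 ≤ C := by
    have b1 : 0 ≤ Cd * (731 * C₀ ^ 6) ^ (δ / 6) := by positivity
    have b2 : 0 ≤ CO * C₀ ^ δ := by positivity
    have b3 : 0 ≤ CJ * C₀ ^ δ := by positivity
    have b4 : 0 ≤ C₀ ^ 2 := by positivity
    exact ⟨Cd * (731 * C₀ ^ 6) ^ (δ / 6) + CO * C₀ ^ δ + CJ * C₀ ^ δ + C₀ ^ 2, by linarith,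
      by linarith, by linarith, by linarith⟩
  refine ⟨C, (one_le_pow₀ c0).trans a4, fun N T M y hN hNT hT hy hM hMT hTy => ?_⟩
  have n1 : (1 : ℝ) ≤ N := by exact_mod_cast hN
  have n0 : (0 : ℝ) < N := by linarith
  have p0 : 0 < (N : ℝ) ^ δ := by positivity
  have t1 : (1 : ℝ) ≤ T / N := (one_le_div n0).2 (by exact_mod_cast hNT)
  have t2 : ((T : ℝ) / N) ^ 21 ≤ (N : ℝ) ^ 5 := by
    rw [div_pow, div_le_iff₀ (by positivity), ← pow_add]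
    exact_mod_cast hT
  have p4 : ((N : ℝ) ^ δ) ^ 4 ≤ N := by
    rw [← Real.rpow_mul_natCast n0.le]
    exact (Real.rpow_le_rpow_of_exponent_le n1 (by push_cast; linarith)).trans_eq
      (Real.rpow_one _)
  have k2 : (N : ℝ) ^ δ * (T / N) ^ 2 ≤ N := by
    refine le_of_pow_le_pow_left₀ (n := 84) (by norm_num) n0.le ?_
    calc ((N : ℝ) ^ δ * (T / N) ^ 2) ^ 84
        = (((N : ℝ) ^ δ) ^ 4) ^ 21 * (((T : ℝ) / N) ^ 21) ^ 8 := by ring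
      _ ≤ (N : ℝ) ^ 21 * ((N : ℝ) ^ 5) ^ 8 := by gcongr
      _ = (N : ℝ) ^ 61 := by ring
      _ ≤ _ := pow_le_pow_right₀ n1 (by norm_num)
  have k1 : (N : ℝ) ^ δ * (T / N) ≤ N :=
    (mul_le_mul_of_nonneg_left (le_self_pow₀ t1 two_ne_zero) p0.le).trans k2
  have m1 : (M : ℝ) ≤ C₀ * N := by
    refine hMT.trans ?_
    rw [mul_assoc]
    exact mul_le_mul_of_nonneg_left k1 c00.le
  have y5 : y ≤ M := hM ▸ le_self_pow₀ hy (by norm_num)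
  have yd : y ^ δ ≤ C₀ ^ δ * (N : ℝ) ^ δ := by
    rw [← Real.mul_rpow c00.le n0.le]
    exact Real.rpow_le_rpow (by linarith) (y5.trans m1) hδ.le
  have up : ∀ c : ℝ, 1 ≤ c → c * C₀ ^ δ ≤ C → c * y ^ δ ≤ C * (N : ℝ) ^ δ := fun c h1 h2 => by
    calc c * y ^ δ ≤ c * (C₀ ^ δ * (N : ℝ) ^ δ) := mul_le_mul_of_nonneg_left yd (by linarith)
      _ = c * C₀ ^ δ * (N : ℝ) ^ δ := by ring
      _ ≤ _ := mul_le_mul_of_nonneg_right h2 p0.le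
  have M1 : 1 ≤ M := by exact_mod_cast hy.trans y5
  refine ⟨DivB_up (hd _ (le_add_left (Nat.mul_pos (by norm_num) (Nat.pow_pos M1)))) ?_,
    (hO y hy).up (up _ co a2), (hJ y M _ hy hM hTy).up (up _ cj a3), ?_⟩
  · have x1 : ((N * (2 * M) + 729 * M ^ 6 : ℕ) : ℝ) ≤ 731 * C₀ ^ 6 * (N : ℝ) ^ 6 := by
      have m2 : (M : ℝ) ^ 6 ≤ C₀ ^ 6 * (N : ℝ) ^ 6 :=
        (pow_le_pow_left₀ (Nat.cast_nonneg _) m1 6).trans_eq (mul_pow _ _ _)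
      have m3 : (N : ℝ) * M ≤ C₀ ^ 6 * (N : ℝ) ^ 6 := by
        calc (N : ℝ) * M ≤ N * (C₀ * N) := by gcongr
          _ = C₀ ^ 1 * (N : ℝ) ^ 2 := by ring
          _ ≤ C₀ ^ 6 * (N : ℝ) ^ 6 := by gcongr <;> first | assumption | norm_num
      push_cast
      linarith
    have x2 := Real.rpow_le_rpow (Nat.cast_nonneg _) x1 (by positivity : 0 ≤ δ / 6)
    rw [Real.mul_rpow (by positivity) (by positivity), ← Real.rpow_natCast (N : ℝ) 6,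
      ← Real.rpow_mul n0.le, show ((6 : ℕ) : ℝ) * (δ / 6) = δ by push_cast; ring] at x2
    calc _ ≤ Cd * ((731 * C₀ ^ 6) ^ (δ / 6) * (N : ℝ) ^ δ) :=
          mul_le_mul_of_nonneg_left x2 (by linarith)
      _ = Cd * (731 * C₀ ^ 6) ^ (δ / 6) * (N : ℝ) ^ δ := by ring
      _ ≤ _ := mul_le_mul_of_nonneg_right a1 p0.le
  · calc (M : ℝ) ^ 2 ≤ (C₀ * (N : ℝ) ^ δ * (T / N)) ^ 2 := by gcongr
      _ = C₀ ^ 2 * (N : ℝ) ^ δ * ((N : ℝ) ^ δ * (T / N) ^ 2) := by ring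
      _ ≤ _ := by
          have : 0 ≤ C := (sq_nonneg _).trans a4
          gcongr

end Pool.Agent.MP_2a1f0e_nt.GM4
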