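import Pool.Agent.MP_2a1f0e_nt.GM4.Basic

set_option autoImplicit false

open Finset

namespace Pool.Agent.MP_2a1f0e_nt.GM4

open GM GM2 GM3

lemma ch_sub_Mod (s t : ℝ) : ch (s - t) ≤ 2 * ch s + 2 * ch t := by
  unfold ch
  rw [Real.cos_sub]
  nlinarith [sq_nonneg (Real.cos s + Real.cos t - 2), sq_nonneg (Real.sin s + Real.sin t),
    Real.sin_sq_add_cos_sq s, Real.sin_sq_add_cos_sq t]

lemma kc_le_Mod (D : ℕ) (s t : ℝ) : kc D s ≤ 2 * (1 + (D : ℝ) ^ 2 * ch t) * kc D (s - t) := by
  have h1 := ch_nonneg s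
  have h2 := ch_nonneg t
  have h3 := ch_nonneg (s - t)
  have h4 := mul_le_mul_of_nonneg_left (ch_sub_Mod s t) (sq_nonneg (D : ℝ))
  have h5 : 0 ≤ (D : ℝ) ^ 2 * ch t * ((D : ℝ) ^ 2 * ch s) := by positivity
  have h6 : 1 + (D : ℝ) ^ 2 * ch (s - t) ≤
      2 * (1 + (D : ℝ) ^ 2 * ch t) * (1 + (D : ℝ) ^ 2 * ch s) := by linarith
  unfold kc
  rw [← mul_div_assoc, div_le_div_iff₀ (by positivity) (by positivity)]
  have := mul_le_mul_of_nonneg_left h6 (Nat.cast_nonneg (α := ℝ) D)
  linarith

theorem mod_stmt : ModStmt := by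
  intro D h hp x hx t
  have hper : Function.Periodic (fun s => kc D (s - t) * h (x * Real.exp (-s))) (2 * Real.pi) := by
    intro s
    have e := hp.2.2 (x * Real.exp (-(s + 2 * Real.pi))) (by positivity)
    rw [mul_assoc, ← Real.exp_add, show -(s + 2 * Real.pi) + 2 * Real.pi = -s by ring] at e
    simp only [← e, add_sub_right_comm s, kc_periodic D (s - t)]
  have e : cv D h (x * Real.exp (-t)) =
      ∫ s in (-Real.pi)..Real.pi, kc D (s - t) * h (x * Real.exp (-s)) := by
    rw [← shift_per hper t, cv]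
    simp only [add_sub_cancel_right, mul_assoc, ← Real.exp_add, neg_add_rev]
  rw [e, ← intervalIntegral.integral_const_mul]
  refine intervalIntegral.integral_mono_on neg_pi_le
    (((continuous_kc D).mul (hp.cont_mul hx)).intervalIntegrable _ _)
    ((continuous_const.mul (((continuous_kc D).comp (continuous_sub_right t)).mul
      (hp.cont_mul hx))).intervalIntegrable _ _) fun s _ => ?_
  rw [← mul_assoc]
  exact mul_le_mul_of_nonneg_right (kc_le_Mod D s t) (hp.2.1 _)

open MeasureTheory in
lemma int_kc_Mod (D : ℕ) : ∫ t in (-Real.pi)..Real.pi, kc D t ≤ 8 := by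
  rcases Nat.eq_zero_or_pos D with rfl | h
  · simp [kc]
  have d0 : (0 : ℝ) < D := by exact_mod_cast h
  have l0 : (0 : ℝ) < D / 2 := by positivity
  have k1 : Integrable fun t : ℝ => (1 + ((D : ℝ) / 2 * t) ^ 2)⁻¹ :=
    integrable_inv_one_add_sq.comp_mul_left' l0.ne'
  have k2 : ∫ t : ℝ, (1 + ((D : ℝ) / 2 * t) ^ 2)⁻¹ = ((D : ℝ) / 2)⁻¹ * Real.pi := by
    rw [Measure.integral_comp_mul_left fun x : ℝ => (1 + x ^ 2)⁻¹, integral_univ_inv_one_add_sq,
      abs_of_pos (inv_pos.2 l0), smul_eq_mul]
  calc ∫ t in (-Real.pi)..Real.pi, kc D t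
      ≤ ∫ t in (-Real.pi)..Real.pi, (D : ℝ) * (1 + ((D : ℝ) / 2 * t) ^ 2)⁻¹ := by
        refine intervalIntegral.integral_mono_on neg_pi_le
          ((continuous_kc D).intervalIntegrable _ _) (k1.const_mul _).intervalIntegrable
          fun t ht => ?_
        have h1 := Real.cos_le_one_sub_mul_cos_sq (abs_le.2 ht)
        have h2 : 1 / 8 ≤ 2 / Real.pi ^ 2 := by
          rw [div_le_div_iff₀ (by norm_num) (by positivity)]
          nlinarith [Real.pi_le_four, Real.pi_pos]
        have h3 : t ^ 2 / 4 ≤ ch t := by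
          unfold ch
          nlinarith [mul_le_mul_of_nonneg_right h2 (sq_nonneg t)]
        rw [kc, ← div_eq_mul_inv]
        refine div_le_div_of_nonneg_left d0.le (by positivity) ?_
        nlinarith [mul_le_mul_of_nonneg_left h3 (sq_nonneg (D : ℝ))]
    _ ≤ D * (((D : ℝ) / 2)⁻¹ * Real.pi) := by
        rw [intervalIntegral.integral_const_mul, intervalIntegral.integral_of_le neg_pi_le, ← k2]
        exact mul_le_mul_of_nonneg_left
          (setIntegral_le_integral k1 (Filter.Eventually.of_forall fun t => by positivity)) d0.le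
    _ = 2 * Real.pi := by field_simp
    _ ≤ 8 := by linarith [Real.pi_le_four]

theorem cv4_stmt : CvStmt := by
  refine ⟨8, by norm_num, fun D F hF => ?_⟩
  have hc : Continuous (Function.uncurry fun θ t : ℝ =>
      kc D t * F (Real.exp θ * Real.exp (-t))) :=
    ((continuous_kc D).comp continuous_snd).mul (hF.1.comp_continuous (by fun_prop)
      fun p => mul_pos (Real.exp_pos _) (Real.exp_pos _))
  refine ⟨⟨?_, cv_nonneg D hF.2.1, fun v hv => ?_⟩, ?_, fun β hβ v hv => ?_⟩
  · have h1 : Continuous fun θ => cv D F (Real.exp θ) :=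
      intervalIntegral.continuous_parametric_intervalIntegral_of_continuous' hc _ _
    refine (h1.comp_continuousOn (Real.continuousOn_log.mono fun x hx => ne_of_gt hx)).congr
      fun x hx => ?_
    simp only [Function.comp, Real.exp_log hx]
  · unfold cv
    simp only [mul_right_comm v (Real.exp (2 * Real.pi)),
      hF.2.2 _ (mul_pos hv (Real.exp_pos _))]
  · have e : mo (cv D F) = (∫ t in (-Real.pi)..Real.pi, kc D t) * mo F := by
      unfold mo cv
      rw [MeasureTheory.intervalIntegral_intervalIntegral_swap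
        (((hc.continuousOn.integrableOn_compact (isCompact_uIcc.prod isCompact_uIcc))).mono_set
          (Set.prod_mono Set.uIoc_subset_uIcc Set.uIoc_subset_uIcc)),
        ← intervalIntegral.integral_mul_const]
      refine intervalIntegral.integral_congr fun t _ => ?_
      simp only [intervalIntegral.integral_const_mul]
      exact congrArg _ (mo_scale hF (Real.exp_pos (-t)))
    rw [e]
    exact mul_le_mul_of_nonneg_right (int_kc_Mod D) hF.mo_nonneg
  · have b0 : 0 ≤ β := (hF.2.1 v).trans (hβ v hv)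
    refine (cv_mono D hF (per_const b0) hβ hv).trans ?_
    unfold cv
    rw [intervalIntegral.integral_mul_const]
    exact mul_le_mul_of_nonneg_right (int_kc_Mod D) b0

end Pool.Agent.MP_2a1f0e_nt.GM4
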