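import Pool.Agent.MP_2a1f0e_nt.GM4.Basic
import Pool.Agent.MP_2a1f0e_nt.GM3.Num3
set_option autoImplicit false
open Finset
namespace Pool.Agent.MP_2a1f0e_nt.GM4
open GM GM2 GM3

theorem one_Num4 {W τ n y : ℝ} (hW : 1 ≤ W) (hn : 1 ≤ n) (hτ : 1 ≤ τ) (h : τ ^ 21 ≤ n ^ 13)
    (hy : 0 ≤ y) (hM : y ^ 5 * n ≤ W * τ ^ 2) : y ^ 8 * τ ≤ W ^ 2 * n := by
  refine le_of_pow_le_pow_left₀ (n := 5) (by norm_num) (by positivity)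
    (le_of_mul_le_mul_right ?_ (show 0 < n ^ 8 by positivity))
  calc _ = (y ^ 5 * n) ^ 8 * τ ^ 5 := by ring
    _ ≤ (W * τ ^ 2) ^ 8 * τ ^ 5 := by gcongr
    _ = W ^ 8 * τ ^ 21 := by ring
    _ ≤ W ^ 10 * n ^ 13 := by gcongr; norm_num
    _ = _ := by ring

theorem two_Num4 {W τ n M Δ B : ℝ} (hW : 1 ≤ W) (hn : 1 ≤ n) (hτ : 1 ≤ τ) (h : τ ^ 21 ≤ n ^ 13)
    (hM0 : 0 ≤ M) (hM : M * n ≤ W * τ ^ 2) (hΔ0 : 0 ≤ Δ) (hΔ : Δ ≤ W) (hB0 : 0 ≤ B)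
    (hB : B ≤ W * n ^ 2) :
    M * B ^ 2 * (M ^ 2 / n ^ 2 + M * Δ / n) ≤ 2 * W ^ 5 * (τ * n ^ 3) := by
  have hn0 : 0 < n := by linarith
  have h5 : τ ^ 5 ≤ n ^ 4 :=
    le_of_pow_le_pow_left₀ (n := 21) (by norm_num) (by positivity) (by
      calc _ = (τ ^ 21) ^ 5 := by rw [← pow_mul, ← pow_mul]
        _ ≤ (n ^ 13) ^ 5 := by gcongr
        _ ≤ _ := by
          rw [← pow_mul, ← pow_mul]
          exact pow_le_pow_right₀ hn (by norm_num))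
  have h3 : τ ^ 3 ≤ n ^ 2 :=
    le_of_pow_le_pow_left₀ (n := 7) (by norm_num) (by positivity) (by
      rw [← pow_mul, ← pow_mul]
      exact h.trans (pow_le_pow_right₀ hn (by norm_num)))
  refine le_of_mul_le_mul_right ?_ (show 0 < n ^ 5 by positivity)
  calc _ = B ^ 2 * (M * n) ^ 3 + B ^ 2 * (M * n) ^ 2 * Δ * n ^ 2 := by field_simp
    _ ≤ (W * n ^ 2) ^ 2 * (W * τ ^ 2) ^ 3 + (W * n ^ 2) ^ 2 * (W * τ ^ 2) ^ 2 * W * n ^ 2 := by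
      gcongr
    _ = W ^ 5 * τ * n ^ 4 * τ ^ 5 + W ^ 5 * τ * n ^ 6 * τ ^ 3 := by ring
    _ ≤ W ^ 5 * τ * n ^ 4 * n ^ 4 + W ^ 5 * τ * n ^ 6 * n ^ 2 := by gcongr
    _ = _ := by ring

theorem three_Num4 {W τ n y u : ℝ} (hW : 1 ≤ W) (hn : 1 ≤ n) (hτ : 1 ≤ τ) (h : τ ^ 21 ≤ n ^ 13)
    (hy : 0 ≤ y) (hM : y ^ 5 * n ≤ W * τ ^ 2) (hu0 : 0 ≤ u) (hu : u ^ 2 = τ * n ^ 3) :
    n ^ 5 * y ^ 9 ≤ W ^ 2 * u ^ 3 := by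
  refine le_of_pow_le_pow_left₀ (n := 10) (by norm_num) (by positivity)
    (le_of_mul_le_mul_right ?_ (show 0 < n ^ 18 by positivity))
  calc _ = n ^ 50 * (y ^ 5 * n) ^ 18 := by ring
    _ ≤ n ^ 50 * (W * τ ^ 2) ^ 18 := by gcongr
    _ = W ^ 18 * (τ ^ 15 * n ^ 50) * τ ^ 21 := by ring
    _ ≤ W ^ 20 * (τ ^ 15 * n ^ 50) * n ^ 13 := by gcongr; norm_num
    _ = W ^ 20 * (τ * n ^ 3) ^ 15 * n ^ 18 := by ring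
    _ = _ := by rw [← hu]; ring

theorem core_Num4 {C P W τ n y z Δ B : ℝ} (hC0 : 0 ≤ C) (hC : C ≤ W) (hP : P ≤ W) (hW : 1 ≤ W)
    (hn : 1 ≤ n) (hτ : 1 ≤ τ) (h21 : τ ^ 21 ≤ n ^ 13) (hy : 0 ≤ y) (hz : 0 ≤ z)
    (hM : y ^ 5 * n ≤ W * τ ^ 2) (hΔ0 : 0 ≤ Δ) (hΔ : Δ ≤ W) (hB0 : 0 ≤ B) (hB : B ≤ W * n ^ 2)
    (h : (z ^ 2) ^ 3 ≤ C * n ^ 3 * (n ^ 2 * (Δ ^ 54 * (y ^ 9 * (z ^ 2 * z) + y ^ 5 * B * z ^ 2)) +
      P * (τ ^ 2 * n ^ 3) * z ^ 2)) :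
    z ^ 2 ≤ 9 * W ^ 38 * (τ * n ^ 3) := by
  have hpos : 0 < τ * n ^ 3 := by positivity
  obtain ⟨u, hu0, hu⟩ : ∃ u : ℝ, 0 < u ∧ u ^ 2 = τ * n ^ 3 :=
    ⟨√(τ * n ^ 3), Real.sqrt_pos.2 hpos, Real.sq_sqrt hpos.le⟩
  have q19 : 1 ≤ W ^ 19 := one_le_pow₀ hW
  have hfin : 9 * W ^ 38 * (τ * n ^ 3) = (3 * W ^ 19 * u) ^ 2 := by rw [← hu]; ring
  rw [hfin]
  refine pow_le_pow_left₀ hz ?_ 2
  by_contra hc
  rw [not_le] at hc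
  have huz : u ≤ z := (le_mul_of_one_le_left hu0.le (by linarith)).trans hc.le
  have hz0 : 0 < z := hu0.trans_le huz
  have x1 := three_Num4 hW hn hτ h21 hy hM hu0.le hu
  have t0 : τ ^ 2 * n ^ 6 * z ^ 2 ≤ u ^ 3 * z ^ 3 :=
    calc _ = (τ * n ^ 3) ^ 2 * z ^ 2 := by ring
      _ = u ^ 3 * (u * z ^ 2) := by rw [← hu]; ring
      _ ≤ u ^ 3 * (z * z ^ 2) := by gcongr
      _ = _ := by ring
  have t1 : Δ ^ 54 * (n ^ 5 * y ^ 9) * z ^ 3 ≤ W ^ 56 * (u ^ 3 * z ^ 3) :=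
    calc _ ≤ W ^ 54 * (W ^ 2 * u ^ 3) * z ^ 3 := by gcongr
      _ = _ := by ring
  have t2 : Δ ^ 54 * (y ^ 5 * n) * B * n ^ 4 * z ^ 2 ≤ W ^ 56 * (u ^ 3 * z ^ 3) :=
    calc _ ≤ W ^ 54 * (W * τ ^ 2) * (W * n ^ 2) * n ^ 4 * z ^ 2 := by gcongr
      _ = W ^ 56 * (τ ^ 2 * n ^ 6 * z ^ 2) := by ring
      _ ≤ _ := by gcongr
  have t3 : P * (τ ^ 2 * n ^ 6 * z ^ 2) ≤ W ^ 56 * (u ^ 3 * z ^ 3) := by
    gcongr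
    exact hP.trans (le_self_pow₀ hW (by norm_num))
  have t8 : z ^ 3 * z ^ 3 ≤ (3 * W ^ 19 * u) ^ 3 * z ^ 3 :=
    calc _ = (z ^ 2) ^ 3 := by ring
      _ ≤ _ := h
      _ = C * (Δ ^ 54 * (n ^ 5 * y ^ 9) * z ^ 3 + Δ ^ 54 * (y ^ 5 * n) * B * n ^ 4 * z ^ 2 +
          P * (τ ^ 2 * n ^ 6 * z ^ 2)) := by ring
      _ ≤ C * (3 * (W ^ 56 * (u ^ 3 * z ^ 3))) :=
        mul_le_mul_of_nonneg_left (by linarith) hC0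
      _ ≤ W * (27 * (W ^ 56 * (u ^ 3 * z ^ 3))) := by gcongr; norm_num
      _ = _ := by ring
  exact absurd (le_of_pow_le_pow_left₀ (by norm_num) (by positivity)
    (le_of_mul_le_mul_right t8 (by positivity))) (not_le.2 hc)

theorem num4_stmt : Num4Stmt := by
  intro δ C hδ hC
  refine ⟨9 * C ^ 40, by positivity,
    fun N T M Δ B X y hN hT h5 hy eyM hM hΔ1 hΔ hB0 hB hX h => ?_⟩
  have hN1 : (1 : ℝ) ≤ N := by exact_mod_cast hN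
  have hT1 : (1 : ℝ) ≤ T := by exact_mod_cast hN.trans hT
  have h5' : (T : ℝ) ^ 21 ≤ (N : ℝ) ^ 26 := by exact_mod_cast h5
  have hP : 1 ≤ (N : ℝ) ^ δ := Real.one_le_rpow hN1 hδ.le
  have e6 : (N : ℝ) ^ (40 * δ) = ((N : ℝ) ^ δ) ^ 40 := by
    rw [mul_comm, Real.rpow_mul (by linarith)]
    exact_mod_cast Real.rpow_natCast _ 40
  rw [e6]
  have hM0 : (0 : ℝ) ≤ M := Nat.cast_nonneg M
  unfold R2 at h
  generalize (N : ℝ) ^ δ = P at *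
  generalize (M : ℝ) = M at *
  generalize (N : ℝ) = n at *
  obtain ⟨τ, hτ, eT⟩ : ∃ τ : ℝ, 1 ≤ τ ∧ (T : ℝ) = τ ^ 2 :=
    ⟨√T, Real.one_le_sqrt.2 hT1, (Real.sq_sqrt (by linarith)).symm⟩
  obtain ⟨z, hz, rfl⟩ : ∃ z : ℝ, 0 ≤ z ∧ X = z ^ 2 :=
    ⟨√X, Real.sqrt_nonneg _, (Real.sq_sqrt hX).symm⟩
  rw [eT] at h hM h5' ⊢
  rw [Real.sqrt_sq hz] at h
  rw [Real.sqrt_sq (by linarith)]
  have hW : 1 ≤ C * P := one_le_mul_of_one_le_of_one_le hC hP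
  have hPW : P ≤ C * P := le_mul_of_one_le_left (by linarith) hC
  have hCW : C ≤ C * P := le_mul_of_one_le_right (by linarith) hP
  have hn0 : 0 < n := by linarith
  have hτ0 : 0 < τ := by linarith
  have hy0 : 0 ≤ y := by linarith
  have h21 : τ ^ 21 ≤ n ^ 13 :=
    le_of_pow_le_pow_left₀ (n := 2) (by norm_num) (by positivity) (by
      rw [← pow_mul] at h5'
      rwa [← pow_mul, ← pow_mul])
  have hM' : M * n ≤ C * P * τ ^ 2 := by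
    rwa [← mul_div_assoc, le_div_iff₀ hn0] at hM
  have hMy : y ^ 5 * n ≤ C * P * τ ^ 2 := eyM ▸ hM'
  have hfin : 9 * C ^ 40 * P ^ 40 * (τ * n ^ 3) = 9 * (C * P) ^ 40 * (τ * n ^ 3) := by ring
  rw [hfin]
  generalize C * P = W at *
  rcases h with h | h | h
  · have x1 := one_Num4 hW hN1 hτ h21 hy0 hMy
    calc _ ≤ _ := h
      _ = y ^ 8 * τ * (τ * n ^ 2) := by ring
      _ ≤ W ^ 2 * n * (τ * n ^ 2) := by gcongr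
      _ = 1 * W ^ 2 * (τ * n ^ 3) := by ring
      _ ≤ _ := by gcongr <;> norm_num
  · calc _ ≤ _ := h
      _ ≤ _ := two_Num4 hW hN1 hτ h21 hM0 hM' (by linarith) hΔ hB0 hB
      _ ≤ _ := by gcongr <;> norm_num
  · calc _ ≤ _ := core_Num4 (by linarith) hCW hPW hW hN1 hτ h21 hy0 hz hMy (by linarith) hΔ hB0
          hB h
      _ ≤ _ := by gcongr; norm_num

end Pool.Agent.MP_2a1f0e_nt.GM4
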