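import Pool.Agent.MP_2a1f0e_nt.GM4.Basic
import Pool.Agent.MP_2a1f0e_nt.GM.Bes
import Pool.Agent.MP_2a1f0e_nt.GM.PairB

set_option autoImplicit false

open Finset

namespace Pool.Agent.MP_2a1f0e_nt.GM4

open GM GM2 GM3

lemma IW_nonneg_PairW {f : ℝ → ℝ} (hf : ∀ v, 0 ≤ f v) : 0 ≤ IW f :=
  intervalIntegral.integral_nonneg (by norm_num) fun v _ => hf v

lemma IW_mono_PairW {f g : ℝ → ℝ} (hf : ContinuousOn f (Set.Icc (1 / 144 : ℝ) (1 / 144 + 144)))
    (hg : ContinuousOn g (Set.Icc (1 / 144 : ℝ) (1 / 144 + 144)))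
    (h : ∀ v ∈ Set.Icc (1 / 144 : ℝ) (1 / 144 + 144), f v ≤ g v) : IW f ≤ IW g :=
  intervalIntegral.integral_mono_on (by norm_num)
    (hf.intervalIntegrable_of_Icc (by norm_num)) (hg.intervalIntegrable_of_Icc (by norm_num)) h

/-- orthogonality of the characters over an interval of length `144` -/
lemma ortho_PairW (k : ℤ) :
    ∫ v in (1 / 144 : ℝ)..(1 / 144 + 144), ex ((k : ℝ) * v) = if k = 0 then 144 else 0 := by
  split_ifs with hk
  · subst hk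
    simp only [Int.cast_zero, zero_mul, ex_zero, intervalIntegral.integral_const]
    rw [show (1 / 144 + 144 - 1 / 144 : ℝ) = 144 by norm_num]
    simp
  · have hc : (2 * Real.pi * Complex.I * ((k : ℝ) : ℂ)) ≠ 0 := by
      have h1 : (Real.pi : ℂ) ≠ 0 := by exact_mod_cast Real.pi_ne_zero
      have h2 : (((k : ℝ)) : ℂ) ≠ 0 := by exact_mod_cast hk
      exact mul_ne_zero (mul_ne_zero (mul_ne_zero two_ne_zero h1) Complex.I_ne_zero) h2
    have hd : ∀ x ∈ Set.uIcc (1 / 144 : ℝ) (1 / 144 + 144),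
        HasDerivAt (fun x : ℝ => (2 * Real.pi * Complex.I * ((k : ℝ) : ℂ))⁻¹ * ex ((k : ℝ) * x))
          (ex ((k : ℝ) * x)) x := by
      intro x _
      refine ((hasDerivAt_ex (k : ℝ) x).const_mul
        (2 * Real.pi * Complex.I * ((k : ℝ) : ℂ))⁻¹).congr_deriv ?_
      rw [← mul_assoc, inv_mul_cancel₀ hc, one_mul]
    have hi : IntervalIntegrable (fun x : ℝ => ex ((k : ℝ) * x)) MeasureTheory.volume
        (1 / 144 : ℝ) (1 / 144 + 144) :=
      (continuous_ex.comp (continuous_const.mul continuous_id)).intervalIntegrable _ _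
    rw [intervalIntegral.integral_eq_sub_of_hasDerivAt hd hi]
    have : ex ((k : ℝ) * (1 / 144 + 144)) = ex ((k : ℝ) * (1 / 144)) := by
      rw [show (k : ℝ) * (1 / 144 + 144) = (k : ℝ) * (1 / 144) + ((144 * k : ℤ) : ℝ) by
        push_cast; ring, ex_add, ex_int, mul_one]
    rw [this, sub_self]

/-- Parseval identity for a trigonometric polynomial -/
lemma parseval_PairW (s : Finset ℤ) (c : ℤ → ℂ) :
    IW (fun v => ‖∑ ξ ∈ s, c ξ * ex ((ξ : ℝ) * v)‖ ^ 2) = 144 * ∑ ξ ∈ s, ‖c ξ‖ ^ 2 := by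
  have key : ((IW (fun v => ‖∑ ξ ∈ s, c ξ * ex ((ξ : ℝ) * v)‖ ^ 2) : ℝ) : ℂ) =
      ((144 * ∑ ξ ∈ s, ‖c ξ‖ ^ 2 : ℝ) : ℂ) := by
    unfold IW
    rw [← intervalIntegral.integral_ofReal]
    have h1 : ∀ v : ℝ, ((‖∑ ξ ∈ s, c ξ * ex ((ξ : ℝ) * v)‖ ^ 2 : ℝ) : ℂ) =
        ∑ ξ ∈ s, ∑ η ∈ s, c ξ * (starRingEnd ℂ) (c η) * ex (((ξ - η : ℤ) : ℝ) * v) := by
      intro v
      rw [Complex.ofReal_pow, ← Complex.mul_conj', map_sum, sum_mul_sum]
      refine sum_congr rfl fun ξ _ => sum_congr rfl fun η _ => ?_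
      rw [map_mul, conj_ex, show (((ξ - η : ℤ) : ℝ) * v) = (ξ : ℝ) * v + -((η : ℝ) * v) by
        push_cast; ring, ex_add]
      ring
    simp_rw [h1]
    rw [intervalIntegral.integral_finsetSum fun ξ _ => Continuous.intervalIntegrable
      (continuous_finsetSum _ fun η _ => cont_mul_ex_Bes _ _) _ _]
    push_cast
    rw [mul_sum]
    refine sum_congr rfl fun ξ hξ => ?_
    rw [intervalIntegral.integral_finsetSum fun η _ =>
      (cont_mul_ex_Bes _ _).intervalIntegrable _ _]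
    have h2 : ∀ η ∈ s, ∫ v in (1 / 144 : ℝ)..(1 / 144 + 144),
        c ξ * (starRingEnd ℂ) (c η) * ex (((ξ : ℝ) - (η : ℝ)) * v) =
        if η = ξ then 144 * (‖c ξ‖ : ℂ) ^ 2 else 0 := by
      intro η _
      have := ortho_PairW (ξ - η)
      rw [Int.cast_sub] at this
      rw [intervalIntegral.integral_const_mul, this]
      by_cases h : η = ξ
      · subst h
        rw [if_pos (sub_self _), if_pos rfl, Complex.mul_conj']
        ring
      · rw [if_neg (fun h' => h (by omega)), if_neg h, mul_zero]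
    rw [sum_congr rfl h2, sum_ite_eq' s ξ, if_pos hξ]
  exact_mod_cast key

theorem besW_stmt : BesWStmt := by
  intro g hg s
  set a : ℤ → ℂ := fun ξ =>
    ∫ v in (1 / 144 : ℝ)..(1 / 144 + 144), (g v : ℂ) * ex ((ξ : ℝ) * v) with ha
  set P : ℝ → ℂ := fun v => ∑ ξ ∈ s, (starRingEnd ℂ) (a ξ) * ex ((ξ : ℝ) * v) with hP
  have hPc : Continuous P :=
    continuous_finsetSum _ fun ξ _ => continuous_const.mul (cont_ex_Bes _)
  have hgc : ContinuousOn (fun v => (g v : ℂ)) (Set.Icc (1 / 144 : ℝ) (1 / 144 + 144)) :=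
    Complex.continuous_ofReal.comp_continuousOn hg
  have hle : (1 / 144 : ℝ) ≤ 1 / 144 + 144 := by norm_num
  have hA : IW (fun v => ‖P v‖ ^ 2) = 144 * ∑ ξ ∈ s, ‖a ξ‖ ^ 2 := by
    have := parseval_PairW s fun ξ => (starRingEnd ℂ) (a ξ)
    simp only [Complex.norm_conj] at this
    exact this
  have hB : ∫ v in (1 / 144 : ℝ)..(1 / 144 + 144), (g v : ℂ) * P v =
      ((∑ ξ ∈ s, ‖a ξ‖ ^ 2 : ℝ) : ℂ) := by
    have h1 : ∀ v : ℝ, (g v : ℂ) * P v =
        ∑ ξ ∈ s, (starRingEnd ℂ) (a ξ) * ((g v : ℂ) * ex ((ξ : ℝ) * v)) := by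
      intro v
      simp only [hP, mul_sum]
      exact sum_congr rfl fun ξ _ => by ring
    simp_rw [h1]
    have h2 : ∀ ξ ∈ s, IntervalIntegrable
        (fun v : ℝ => (starRingEnd ℂ) (a ξ) * ((g v : ℂ) * ex ((ξ : ℝ) * v)))
        MeasureTheory.volume (1 / 144 : ℝ) (1 / 144 + 144) := fun ξ _ =>
      (continuousOn_const.mul (hgc.mul (cont_ex_Bes _).continuousOn)).intervalIntegrable_of_Icc
        hle
    rw [intervalIntegral.integral_finsetSum h2]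
    push_cast
    refine sum_congr rfl fun ξ _ => ?_
    rw [intervalIntegral.integral_const_mul, mul_comm, Complex.mul_conj']
  have hC : ∑ ξ ∈ s, ‖a ξ‖ ^ 2 ≤ IW (fun v => 72 * g v ^ 2 + 1 / 288 * ‖P v‖ ^ 2) := by
    have h1 : ∑ ξ ∈ s, ‖a ξ‖ ^ 2 =
        ‖∫ v in (1 / 144 : ℝ)..(1 / 144 + 144), (g v : ℂ) * P v‖ := by
      rw [hB, Complex.norm_real, Real.norm_eq_abs, abs_of_nonneg (by positivity)]
    rw [h1]
    refine (intervalIntegral.norm_integral_le_integral_norm hle).trans ?_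
    refine IW_mono_PairW (f := fun v => ‖(g v : ℂ) * P v‖) (hgc.mul hPc.continuousOn).norm
      ((continuousOn_const.mul (hg.pow 2)).add
        (continuousOn_const.mul (hPc.norm.pow 2).continuousOn)) fun v _ => ?_
    rw [norm_mul, Complex.norm_real, Real.norm_eq_abs, ← sq_abs (g v)]
    nlinarith [sq_nonneg (144 * |g v| - ‖P v‖)]
  have hD : IW (fun v => 72 * g v ^ 2 + 1 / 288 * ‖P v‖ ^ 2) =
      72 * IW (fun v => g v ^ 2) + 1 / 288 * IW (fun v => ‖P v‖ ^ 2) := by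
    have h1 : IntervalIntegrable (fun v => 72 * g v ^ 2) MeasureTheory.volume
        (1 / 144 : ℝ) (1 / 144 + 144) :=
      (continuousOn_const.mul (hg.pow 2)).intervalIntegrable_of_Icc hle
    have h2 : IntervalIntegrable (fun v => 1 / 288 * ‖P v‖ ^ 2) MeasureTheory.volume
        (1 / 144 : ℝ) (1 / 144 + 144) :=
      (continuous_const.mul (hPc.norm.pow 2)).intervalIntegrable _ _
    unfold IW
    beta_reduce
    rw [intervalIntegral.integral_add h1 h2,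
      intervalIntegral.integral_const_mul, intervalIntegral.integral_const_mul]
  rw [hD, hA] at hC
  change ∑ ξ ∈ s, ‖a ξ‖ ^ 2 ≤ _
  linarith

noncomputable def GG_PairW (g : ℝ → ℝ) (ξ : ℤ) : ℂ :=
  ∫ v in (1 / 144 : ℝ)..(1 / 144 + 144), (g v : ℂ) * ex ((ξ : ℝ) * v)

lemma rho_exp_PairW (hE : PhExpStmt) {N : ℕ} (hN : 1 ≤ N) (P Q : ℕ) (v w : ℝ) :
    ((∑ m ∈ Ms P, ∑ m' ∈ Ms Q, Ph N ((m : ℝ) * v + (m' : ℝ) * w) : ℝ) : ℂ) =
      ∑ l ∈ Ioo (-(N : ℤ)) N, cf N l * (EE_PairB P l v * EE_PairB Q l w) := by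
  unfold EE_PairB
  simp only [Complex.ofReal_sum, (hE N hN).1, sum_mul_sum]
  simp only [mul_sum]
  symm
  rw [sum_comm]
  refine sum_congr rfl fun m _ => ?_
  rw [sum_comm]
  refine sum_congr rfl fun m' _ => sum_congr rfl fun l _ => ?_
  rw [← ex_add]
  congr 2
  push_cast
  ring

lemma int_ex_PairW {g : ℝ → ℝ} (hg : ContinuousOn g (Set.Icc (1 / 144 : ℝ) (1 / 144 + 144)))
    (ξ : ℝ) : IntervalIntegrable (fun v => (g v : ℂ) * ex (ξ * v)) MeasureTheory.volume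
      (1 / 144 : ℝ) (1 / 144 + 144) := by
  refine ContinuousOn.intervalIntegrable_of_Icc (by norm_num) ?_
  exact (Complex.continuous_ofReal.comp_continuousOn hg).mul
    (continuous_ex.comp (continuous_const.mul continuous_id)).continuousOn

lemma int_EE_PairW {g : ℝ → ℝ} (hg : ContinuousOn g (Set.Icc (1 / 144 : ℝ) (1 / 144 + 144)))
    (M : ℕ) (l : ℤ) : IntervalIntegrable (fun v => (g v : ℂ) * EE_PairB M l v)
      MeasureTheory.volume (1 / 144 : ℝ) (1 / 144 + 144) := by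
  refine ContinuousOn.intervalIntegrable_of_Icc (by norm_num) ?_
  refine (Complex.continuous_ofReal.comp_continuousOn hg).mul (Continuous.continuousOn ?_)
  exact continuous_finsetSum _ fun m _ => continuous_ex.comp (continuous_const.mul continuous_id)

lemma integral_EE_PairW {g : ℝ → ℝ}
    (hg : ContinuousOn g (Set.Icc (1 / 144 : ℝ) (1 / 144 + 144))) (M : ℕ) (l : ℤ) :
    ∫ v in (1 / 144 : ℝ)..(1 / 144 + 144), (g v : ℂ) * EE_PairB M l v =
      ∑ m ∈ Ms M, GG_PairW g (l * m) := by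
  unfold EE_PairB GG_PairW
  simp only [mul_sum]
  exact intervalIntegral.integral_finsetSum fun m _ => int_ex_PairW hg _

lemma integral_sum_PairW {g : ℝ → ℝ}
    (hg : ContinuousOn g (Set.Icc (1 / 144 : ℝ) (1 / 144 + 144))) (M : ℕ) (s : Finset ℤ)
    (c : ℤ → ℂ) :
    ∫ v in (1 / 144 : ℝ)..(1 / 144 + 144), ∑ l ∈ s, c l * ((g v : ℂ) * EE_PairB M l v) =
      ∑ l ∈ s, c l * ∑ m ∈ Ms M, GG_PairW g (l * m) := by
  rw [intervalIntegral.integral_finsetSum fun l _ => (int_EE_PairW hg M l).const_mul _]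
  refine sum_congr rfl fun l _ => ?_
  rw [intervalIntegral.integral_const_mul, integral_EE_PairW hg]

lemma pair_exp_PairW (hE : PhExpStmt) {N : ℕ} (hN : 1 ≤ N) (P Q : ℕ) {g h : ℝ → ℝ}
    (hg : ContinuousOn g (Set.Icc (1 / 144 : ℝ) (1 / 144 + 144)))
    (hh : ContinuousOn h (Set.Icc (1 / 144 : ℝ) (1 / 144 + 144))) :
    ((IW (fun v => IW fun w => g v * h w *
        ∑ m ∈ Ms P, ∑ m' ∈ Ms Q, Ph N ((m : ℝ) * v + (m' : ℝ) * w)) : ℝ) : ℂ) =
      ∑ l ∈ Ioo (-(N : ℤ)) N,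
        (cf N l * ∑ m ∈ Ms Q, GG_PairW h (l * m)) * ∑ m ∈ Ms P, GG_PairW g (l * m) := by
  rw [← integral_sum_PairW hg]
  unfold IW
  rw [← intervalIntegral.integral_ofReal]
  refine intervalIntegral.integral_congr fun v _ => ?_
  have e : ∑ l ∈ Ioo (-(N : ℤ)) N,
      (cf N l * ∑ m ∈ Ms Q, GG_PairW h (l * m)) * ((g v : ℂ) * EE_PairB P l v) =
      ∑ l ∈ Ioo (-(N : ℤ)) N, (cf N l * ((g v : ℂ) * EE_PairB P l v)) *
        ∑ m ∈ Ms Q, GG_PairW h (l * m) := sum_congr rfl fun l _ => by ring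
  rw [e, ← integral_sum_PairW hh, ← intervalIntegral.integral_ofReal]
  refine intervalIntegral.integral_congr fun w _ => ?_
  rw [Complex.ofReal_mul, Complex.ofReal_mul, rho_exp_PairW hE hN, mul_sum]
  exact sum_congr rfl fun l _ => by ring

lemma zero_PairW {g : ℝ → ℝ} (hg : ∀ v, 0 ≤ g v) (M : ℕ) :
    ‖∑ m ∈ Ms M, GG_PairW g (0 * m)‖ = 2 * M * IW g := by
  have e : GG_PairW g 0 = (IW g : ℂ) := by
    unfold GG_PairW IW
    rw [← intervalIntegral.integral_ofReal]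
    simp [ex_zero]
  simp only [zero_mul, e, sum_const, card_Ms, nsmul_eq_mul, norm_mul, Complex.norm_real,
    Complex.norm_natCast, Real.norm_eq_abs, abs_of_nonneg (IW_nonneg_PairW hg)]
  push_cast
  ring

lemma sqrt_le_PairW (hB : BesWStmt) (hD : DivStmt) {N M : ℕ} {Δ : ℝ} (hΔ : DivB (N * M) Δ)
    {g : ℝ → ℝ} (hg : ContinuousOn g (Set.Icc (1 / 144 : ℝ) (1 / 144 + 144))) :
    √(∑ l ∈ (Ioo (-(N : ℤ)) N).erase 0, ‖∑ m ∈ Ms M, GG_PairW g (l * m)‖ ^ 2) ≤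
      √(576 * Δ) * (√(M : ℝ) * √(IW fun v => g v ^ 2)) := by
  have h0 : 0 ≤ Δ := le_trans zero_le_one hΔ.1
  rw [← Real.sqrt_mul (by positivity), ← Real.sqrt_mul (by positivity)]
  refine Real.sqrt_le_sqrt ((hD N M Δ hΔ (GG_PairW g)).trans ?_)
  have h1 := hB g hg (Icc (-((N * M : ℕ) : ℤ)) ((N * M : ℕ) : ℤ))
  refine (mul_le_mul_of_nonneg_left h1 (by positivity)).trans (le_of_eq ?_)
  ring

theorem pairW_stmt (hE : PhExpStmt) (hB : BesWStmt) (hD : DivStmt) : PairWStmt := by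
  refine ⟨1160, by norm_num, fun N P Q Δ hN hΔ hΔ' g h hg hh hg0 hh0 => ?_⟩
  have h0 : 0 ≤ Δ := le_trans zero_le_one hΔ.1
  have hN' : (0 : ℝ) < N := by exact_mod_cast hN
  have h1 : IW (fun v => IW fun w => g v * h w *
        ∑ m ∈ Ms P, ∑ m' ∈ Ms Q, Ph N ((m : ℝ) * v + (m' : ℝ) * w)) ≤ ∑ l ∈ Ioo (-(N : ℤ)) N,
      2 / N * (‖∑ m ∈ Ms P, GG_PairW g (l * m)‖ * ‖∑ m ∈ Ms Q, GG_PairW h (l * m)‖) := by
    refine (le_abs_self _).trans ?_
    rw [← Real.norm_eq_abs, ← Complex.norm_real, pair_exp_PairW hE hN P Q hg hh]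
    refine (norm_sum_le _ _).trans (sum_le_sum fun l hl => ?_)
    rw [norm_mul, norm_mul, mul_assoc, mul_comm ‖∑ m ∈ Ms Q, GG_PairW h (l * m)‖]
    exact mul_le_mul_of_nonneg_right ((hE N hN).2 l hl) (by positivity)
  have hz : (0 : ℤ) ∈ Ioo (-(N : ℤ)) N := by
    rw [mem_Ioo]; omega
  rw [← mul_sum, ← add_sum_erase _ _ hz, zero_PairW hg0, zero_PairW hh0] at h1
  have h2 := Real.sum_mul_le_sqrt_mul_sqrt ((Ioo (-(N : ℤ)) N).erase 0)
    (fun l => ‖∑ m ∈ Ms P, GG_PairW g (l * m)‖) fun l => ‖∑ m ∈ Ms Q, GG_PairW h (l * m)‖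
  have h3 := mul_le_mul (sqrt_le_PairW hB hD hΔ hg) (sqrt_le_PairW hB hD hΔ' hh)
    (Real.sqrt_nonneg _) (by positivity)
  rw [mul_mul_mul_comm, Real.mul_self_sqrt (by positivity)] at h3
  refine h1.trans ((mul_le_mul_of_nonneg_left (add_le_add_right (h2.trans h3) _)
    (by positivity)).trans ?_)
  have h4 : 0 ≤ (P : ℝ) * Q / N * IW g * IW h :=
    mul_nonneg (mul_nonneg (by positivity) (IW_nonneg_PairW hg0)) (IW_nonneg_PairW hh0)
  have h5 : 0 ≤ √(P : ℝ) * √(Q : ℝ) * Δ / N * √(IW fun v => g v ^ 2) *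
      √(IW fun v => h v ^ 2) := by positivity
  have e : 2 / (N : ℝ) * (2 * P * IW g * (2 * Q * IW h) +
      576 * Δ * (√(P : ℝ) * √(IW fun v => g v ^ 2) * (√(Q : ℝ) * √(IW fun v => h v ^ 2)))) =
      8 * ((P : ℝ) * Q / N * IW g * IW h) + 1152 * (√(P : ℝ) * √(Q : ℝ) * Δ / N *
        √(IW fun v => g v ^ 2) * √(IW fun v => h v ^ 2)) := by ring
  rw [e, Real.sqrt_mul (Nat.cast_nonneg P)]
  linarith

end Pool.Agent.MP_2a1f0e_nt.GM4
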