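import Pool.Agent.MP_2a1f0e_nt.GM4.Basic

set_option autoImplicit false

open Finset

namespace Pool.Agent.MP_2a1f0e_nt.GM4

open GM GM2 GM3

theorem q5_stmt (hP : PartStmt) (hB : Blk4Stmt) : Q5Stmt := by
  obtain ⟨C, hC, hB⟩ := hB
  refine ⟨8 * C, by positivity, fun N L M m t Δ B X ν hM hD hd hb hg => ?_⟩
  have hN : (0 : ℝ) < N := Nat.cast_pos.2 hD.1
  have ht : 0 < t := one_pos.trans_le hD.2.2.1
  have hm : 0 ≤ m := (Nat.cast_nonneg M).trans hM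
  have hΔ : 0 < Δ := one_pos.trans_le hd.1
  have hB0 : 0 ≤ B := hD.2.2.2.2.2.1
  have hX : 0 < X := hD.2.2.2.2.2.2.1
  have hW : 0 ≤ m ^ 2 / t * (X * √X) + m * B * X := by positivity
  have h1 := hP N M (Io L) ν (C * Δ ^ 3 * ((m ^ 2 / t * (X * √X) + m * B * X) / N)) (by positivity)
    fun M₁ M₂ M₃ S₁ S₂ S₃ e₁ e₂ e₃ a1 a2 a3 a4 a5 a6 a7 a8 a9 =>
      hB N L M₁ M₂ M₃ S₁ S₂ S₃ e₁ e₂ e₃ m t Δ B X ν ⟨a1, a2, a3, a4, a5, a7, a8, a9⟩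
        ((Nat.cast_le.2 a6).trans hM) hD
        (DivB_mono hd (Nat.mul_le_mul_left _ (Nat.mul_le_mul_left _ a6))) hb hg
  have h2 : (Nat.log 2 M : ℝ) + 1 ≤ Δ :=
    DivB_log hd ((Nat.le_mul_of_pos_left M two_pos).trans (Nat.le_mul_of_pos_left _ hD.1))
  refine h1.trans ?_
  generalize m ^ 2 / t * (X * √X) + m * B * X = W at hW
  calc _ ≤ 8 * Δ ^ 3 * (N : ℝ) ^ 3 * (C * Δ ^ 3 * (W / N)) := by gcongr
    _ = _ := by field_simp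

theorem sq_le_Q5 {s y : ℝ} (hy : 0 < y) : s ^ 2 ≤ y ^ 8 + (s ^ 4) ^ 2 / y ^ 24 := by
  rcases le_total (s ^ 2) (y ^ 8) with h | h
  · exact h.trans (le_add_of_nonneg_right (by positivity))
  · refine le_add_of_nonneg_of_le (by positivity) ((le_div_iff₀ (by positivity)).2 ?_)
    calc s ^ 2 * y ^ 24 = s ^ 2 * (y ^ 8) ^ 3 := by ring
      _ ≤ s ^ 2 * (s ^ 2) ^ 3 := by gcongr
      _ = _ := by ring

theorem g4_stmt : G4Stmt := by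
  intro y Δ X L ν hy hΔ hJ hX hν S hS
  have y0 : 0 < y := one_pos.trans_le hy
  have s0 : 0 ≤ ∑ a ∈ Io L, ν a ^ 2 := sum_nonneg fun _ _ => sq_nonneg _
  have X0 : 0 ≤ X := s0.trans hX
  have h1 := hJ S hS (fun a => ν a ^ 2) fun _ => sq_nonneg _
  have h2 : DH.EE (Io L) (fun a => ν a ^ 2) (SS S) ≤ y ^ 8 * (∑ a ∈ Io L, ν a ^ 2) ^ 2 +
      DH.EE (Io L) (fun a => ν a ^ 2) (fun u => SS S u ^ 4) / y ^ 24 := by
    rw [DH.EE, DH.EE, pow_two (∑ a ∈ Io L, ν a ^ 2), sum_mul_sum, mul_sum, sum_div,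
      ← sum_add_distrib]
    refine sum_le_sum fun a _ => ?_
    rw [mul_sum, sum_div, ← sum_add_distrib]
    refine sum_le_sum fun b _ => ?_
    rw [norm_pow, mul_div_assoc, mul_comm (y ^ 8), ← mul_add]
    exact mul_le_mul_of_nonneg_left (sq_le_Q5 y0) (by positivity)
  have h3 : ∑ a ∈ Io L, (ν a ^ 2) ^ 2 ≤ X / y ^ 8 * X := by
    refine le_trans ?_ (mul_le_mul_of_nonneg_left hX (by positivity))
    rw [mul_sum]
    refine sum_le_sum fun a ha => ?_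
    rw [pow_two (ν a ^ 2)]
    refine mul_le_mul_of_nonneg_right ?_ (sq_nonneg _)
    calc ν a ^ 2 = |ν a| ^ 2 := (sq_abs _).symm
      _ ≤ (√X / y ^ 4) ^ 2 := by gcongr; exact hν a ha
      _ = X / y ^ 8 := by rw [div_pow, Real.sq_sqrt X0, ← pow_mul]
  have h4 : y ^ 20 ≤ y ^ 32 := pow_le_pow_right₀ hy (by norm_num)
  have h5 : 0 ≤ y ^ 8 * X ^ 2 := by positivity
  calc _ ≤ y ^ 8 * X ^ 2 + Δ * (y ^ 40 * (X / y ^ 8 * X) + y ^ 32 * X ^ 2) / y ^ 24 := by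
        refine h2.trans (add_le_add (by gcongr) ?_)
        refine div_le_div_of_nonneg_right (h1.trans ?_) (by positivity)
        gcongr
    _ = (1 + 2 * Δ) * (y ^ 8 * X ^ 2) := by field_simp; ring
    _ ≤ 3 * Δ * (y ^ 8 * X ^ 2) := mul_le_mul_of_nonneg_right (by linarith) h5
    _ = _ := by field_simp

theorem q6_stmt (h5 : Q5Stmt) (hD : DatStmt) (hB : BB4Stmt) (hG : G4Stmt) : Q6Stmt := by
  obtain ⟨C, hC, h5⟩ := h5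
  obtain ⟨CD, hCD, hD⟩ := hD
  obtain ⟨CB, hCB, hB⟩ := hB
  refine ⟨C * (CB + CD + 3) ^ 6, by positivity,
    fun N M L Xd Δ B X y ν hN hL hy hM hLy h1 h2 hd ho hJ h3 hB0 hX h4 h6 h7 h8 h9 => ?_⟩
  have y0 : 0 < y := one_pos.trans_le hy
  have hΔ := hd.1
  have d9 : Δ ≤ Δ ^ 9 := le_self_pow₀ hΔ (by norm_num)
  have a1 := hD N M L y Δ B X ν hN hL hy (hM ▸ pow_le_pow_right₀ hy (by norm_num))
    (DivB_mono hd ((Nat.mul_le_mul_left _ (Nat.le_mul_of_pos_left M two_pos)).trans h1)) h3 hB0 hX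
    h4 h6 h7 h9
  have a2 := hB y Δ (6 * L) Xd hy (by push_cast; nlinarith [pow_pos y0 30]) h2 hd ho
  have a3 := hG y Δ X L ν hy hΔ hJ h7 h8
  rw [← hM] at a1
  have a4 := h5 N L M (y ^ 5) y ((CB + CD + 3) * Δ ^ 9) B X ν hM.ge (a1.up (by nlinarith))
    (DivB_up (DivB_mono hd h1) (by nlinarith)) (a2.up (by nlinarith)) (a3.up (by nlinarith))
  refine a4.trans_eq ?_
  field_simp

theorem PB4_inv_Q5 (P Q : ℕ) (Δ : ℝ) (g h : ℝ → ℝ) :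
    PB4 P Q Δ (fun v => g v⁻¹) h = PB4 P Q Δ g h := by
  rw [PB4, PB4, mo_inv g, mo_inv fun v => g v ^ 2]

theorem step_Q5 {T V C C' C'' a W N : ℝ} (h1 : T ≤ C * a * V) (h2 : V ≤ C' * (W / N))
    (hC : 0 ≤ C) (ha : 0 ≤ a) (hW : 0 ≤ W) (hN : 0 ≤ N) (h3 : C' ≤ C'') :
    T ≤ C * C'' * (a / N * W) :=
  calc T ≤ C * a * (C' * (W / N)) := h1.trans (by gcongr)
    _ ≤ C * a * (C'' * (W / N)) := by gcongr
    _ = _ := by ring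

theorem bp_stmt (hC : ChgStmt) (hS : SwpStmt) (ha : TVaStmt) (hb : TVbStmt) (ho : TVoStmt) :
    BPStmt := by
  obtain ⟨C, hC0, hC⟩ := hC
  obtain ⟨Ca, ha0, ha⟩ := ha
  obtain ⟨Cb, hb0, hb⟩ := hb
  obtain ⟨Co, ho0, ho⟩ := ho
  refine ⟨C * (Ca + Cb + Co), by positivity,
    fun N M₁ M₂ M₃ S₁ S₂ S₃ e₁ e₂ e₃ Δ g h hN hk hd hg hh => ?_⟩
  have a0 := (ab_pos hk.one.1 hk.one.2.1 hk.one.2.2).le
  have c := fun g₁ g₂ g₃ => hC N M₁ M₂ M₃ S₁ S₂ S₃ e₁ e₂ e₃ g₁ g₂ g₃ hk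
  obtain ⟨k1, k2, k3, k4, k5, k6, k7, k8⟩ := hk
  have d1 := DivB_mono hd (Nat.mul_le_mul_left N (Nat.mul_le_mul_left 2 k4))
  have d2 := DivB_mono hd (Nat.mul_le_mul_left N (Nat.mul_le_mul_left 2 k5))
  have p := fun P Q => PB4_nonneg P Q (zero_le_one.trans hd.1) hg hh
  have m0 := hh.mo_nonneg
  have n0 := Nat.cast_nonneg (α := ℝ) N
  refine ⟨step_Q5 (c _ _ _ per_one hg hh)
      (ha N M₁ M₂ S₁ S₂ S₃ e₁ e₂ e₃ Δ g h hN k1 k2 k6 k7 k8 d1 d2 hg hh) hC0.le a0 (p _ _) n0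
      (by linarith),
    step_Q5 (c _ _ _ hg hh per_one)
      (hb N M₂ M₃ S₁ S₂ S₃ e₁ e₂ e₃ Δ g h hN k2 k3 k6 k7 k8 d2 hd hg hh) hC0.le a0 (p _ _) n0
      (by linarith),
    step_Q5 (C' := Cb) (c _ _ _ hg per_one hh) ?_ hC0.le a0 (p _ _) n0 (by linarith),
    step_Q5 (c _ _ _ per_one hh per_one)
      (ho N M₁ M₂ M₃ S₁ S₂ S₃ e₁ e₂ e₃ h hN k1 k2 k3 k7 hh) hC0.le a0 (by positivity) n0
      (by linarith),
    step_Q5 (C' := Co) (c _ _ _ per_one per_one hh) ?_ hC0.le a0 (by positivity) n0 (by linarith)⟩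
  · rw [hS _ _ _ _ _ _ _ _ _ _ hg per_one hh, ← PB4_inv_Q5]
    exact hb N M₁ M₃ S₂ S₁ S₃ e₂ e₁ e₃ Δ _ h hN k1 k3 k7 k6 k8 d1 hd hg.inv hh
  · rw [hS _ _ _ _ _ _ _ _ _ _ per_one per_one hh]
    exact ho N M₂ M₁ M₃ S₂ S₁ S₃ e₂ e₁ e₃ h hN k2 k1 k3 k6 hh

end Pool.Agent.MP_2a1f0e_nt.GM4
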