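import Pool.Agent.MP_2a1f0e_nt.GM4.Basic
import Pool.Agent.MP_2a1f0e_nt.GM.PhExp
import Pool.Agent.MP_2a1f0e_nt.GM3.Dir

set_option autoImplicit false

open Finset

namespace Pool.Agent.MP_2a1f0e_nt.GM4

open GM GM2 GM3

lemma cont_Rep (L : ℕ) : Continuous fun t : ℝ => ‖gs L (t / (2 * Real.pi))‖ ^ 2 :=
  ((continuous_gs L).comp (continuous_id.div_const _)).norm.pow 2

lemma bd_Rep (D : ℕ) (t : ℝ) : ‖gs (2 * D) (t / (2 * Real.pi))‖ ^ 2 ≤ 8 * D * kc D t := by
  have h0 := ch_nonneg t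
  have h1 : ‖gs (2 * D) (t / (2 * Real.pi))‖ ≤ 2 * D :=
    (norm_sum_le _ _).trans (by simp [norm_ex])
  have h2 : ‖ex (t / (2 * Real.pi)) - 1‖ ^ 2 = ch t := by
    rw [ex, mul_div_cancel₀ _ (by positivity), Complex.norm_exp_I_mul_ofReal_sub_one,
      Real.norm_eq_abs, sq_abs, mul_pow, Real.sin_sq_eq_half_sub, mul_div_cancel₀ _ two_ne_zero, ch]
    ring
  have h3 : ‖gs (2 * D) (t / (2 * Real.pi))‖ * ‖ex (t / (2 * Real.pi)) - 1‖ ≤ 2 := by
    rw [← norm_mul, gs_mul]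
    refine (norm_sub_le _ _).trans ?_
    rw [norm_ex, norm_one]
    norm_num
  have h4 := pow_le_pow_left₀ (by positivity) h3 2
  have h5 := pow_le_pow_left₀ (norm_nonneg _) h1 2
  rw [mul_pow, h2] at h4
  rw [kc, ← mul_div_assoc, le_div_iff₀ (by positivity)]
  nlinarith [mul_le_mul_of_nonneg_left h4 (sq_nonneg (D : ℝ))]

lemma int_Rep {D L : ℕ} (hL : D ≤ L) {h : ℝ → ℝ} {c : ℤ → ℂ} (hc : TP D (fun x => (h x : ℂ)) c)
    {x : ℝ} (hx : 0 < x) :
    ((∫ t in (-Real.pi)..Real.pi, ‖gs L (t / (2 * Real.pi))‖ ^ 2 * h (x * Real.exp (-t)) : ℝ) : ℂ) =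
      ∑ ρ ∈ Io D, c ρ * pw x ρ * ((L : ℝ) - |(ρ : ℝ)| : ℝ) * (2 * Real.pi) := by
  have e : ∀ t : ℝ, ((‖gs L (t / (2 * Real.pi))‖ ^ 2 * h (x * Real.exp (-t)) : ℝ) : ℂ) =
      ∑ ρ ∈ Io D, ∑ u ∈ Io L, c ρ * pw x ρ * ((L : ℝ) - |(u : ℝ)| : ℝ) *
        Complex.exp (Complex.I * ((u - ρ : ℤ) : ℂ) * t) := fun t => by
    have h1 : (h (x * Real.exp (-t)) : ℂ) = _ := hc _ (by positivity)
    rw [Complex.ofReal_mul, ← triang_stmt, h1, mul_comm, sum_mul_sum]
    refine sum_congr rfl fun ρ _ => sum_congr rfl fun u _ => ?_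
    have : Complex.exp (Complex.I * ((u - ρ : ℤ) : ℂ) * t) =
        pw (Real.exp (-t)) ρ * ex (u * (t / (2 * Real.pi))) := by
      rw [pw_exp, ex, ← Complex.exp_add, mul_left_comm _ (u : ℝ),
        mul_div_cancel₀ _ (by positivity)]
      congr 1
      push_cast
      ring
    rw [pw_mul hx.ne' (Real.exp_pos _).ne', this]
    ring
  rw [← intervalIntegral.integral_ofReal]
  simp only [e]
  rw [intervalIntegral.integral_finsetSum fun t _ =>
    Continuous.intervalIntegrable (by fun_prop) _ _]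
  refine sum_congr rfl fun ρ hρ => ?_
  rw [intervalIntegral.integral_finsetSum fun u _ =>
    Continuous.intervalIntegrable (by fun_prop) _ _, sum_eq_single_of_mem ρ]
  · rw [intervalIntegral.integral_const_mul, orth_Par, if_pos (sub_self ρ)]
  · rw [Io, mem_Ioo] at hρ ⊢
    omega
  · intro u _ hu
    rw [intervalIntegral.integral_const_mul, orth_Par, if_neg (sub_ne_zero.2 hu), mul_zero]

theorem rep_stmt : RepStmt := by
  refine ⟨2, two_pos, fun D hD h c hc h0 x hx => ?_⟩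
  have hD' : (0 : ℝ) < D := by exact_mod_cast hD
  have hh : Continuous fun t => h (x * Real.exp (-t)) :=
    ((Complex.continuous_re.comp_continuousOn hc.cont).congr fun x _ => by simp :
      ContinuousOn h (Set.Ioi 0)).comp_continuous (by fun_prop)
      fun t => mul_pos hx (Real.exp_pos _)
  have h1 : (∫ t in (-Real.pi)..Real.pi,
        ‖gs (2 * D) (t / (2 * Real.pi))‖ ^ 2 * h (x * Real.exp (-t))) -
      ∫ t in (-Real.pi)..Real.pi, ‖gs D (t / (2 * Real.pi))‖ ^ 2 * h (x * Real.exp (-t)) =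
      2 * Real.pi * D * h x := by
    apply Complex.ofReal_injective
    have h2 : (h x : ℂ) = _ := hc x hx
    rw [Complex.ofReal_sub, int_Rep (by omega) hc hx, int_Rep le_rfl hc hx, ← sum_sub_distrib,
      Complex.ofReal_mul, h2, mul_sum]
    refine sum_congr rfl fun ρ _ => ?_
    push_cast
    ring
  have h2 : 0 ≤ ∫ t in (-Real.pi)..Real.pi,
      ‖gs D (t / (2 * Real.pi))‖ ^ 2 * h (x * Real.exp (-t)) :=
    intervalIntegral.integral_nonneg neg_pi_le fun t _ => mul_nonneg (sq_nonneg _) (h0 _)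
  have h3 : ∫ t in (-Real.pi)..Real.pi,
      ‖gs (2 * D) (t / (2 * Real.pi))‖ ^ 2 * h (x * Real.exp (-t)) ≤ 8 * D * cv D h x := by
    rw [cv, ← intervalIntegral.integral_const_mul]
    refine intervalIntegral.integral_mono_on neg_pi_le
      (((cont_Rep _).mul hh).intervalIntegrable _ _)
      ((continuous_const.mul ((continuous_kc D).mul hh)).intervalIntegrable _ _) fun t _ => ?_
    rw [← mul_assoc]
    exact mul_le_mul_of_nonneg_right (bd_Rep D t) (h0 _)
  refine le_of_mul_le_mul_left ?_ hD'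
  nlinarith [mul_nonneg (mul_nonneg hD'.le (h0 x)) (sub_nonneg.2 Real.two_le_pi)]

end Pool.Agent.MP_2a1f0e_nt.GM4
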