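import Pool.Agent.MP_2a1f0e_nt.GM4.Basic
import Pool.Agent.MP_2a1f0e_nt.GM.Sym
import Pool.Agent.MP_2a1f0e_nt.GM2.Shear

set_option autoImplicit false

open Finset

namespace Pool.Agent.MP_2a1f0e_nt.GM4

open GM GM2 GM3

lemma img_TVa {e : ℝ} (he : Sg e) (S : Finset ℕ) : ∃ T : Finset ℤ,
    (∀ f : ℝ → ℝ, ∑ n ∈ S, f (e * n) = ∑ m ∈ T, f m) ∧
      ∀ m ∈ T, ∃ n ∈ S, m = n ∨ m = -(n : ℤ) := by
  rcases he with rfl | rfl
  · refine ⟨S.image fun n : ℕ => (n : ℤ), fun f => ?_, fun m hm => ?_⟩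
    · rw [sum_image fun _ _ _ _ h => Nat.cast_injective h]
      simp
    · obtain ⟨n, hn, rfl⟩ := mem_image.1 hm
      exact ⟨n, hn, Or.inl rfl⟩
  · refine ⟨S.image fun n : ℕ => -(n : ℤ), fun f => ?_, fun m hm => ?_⟩
    · rw [sum_image fun _ _ _ _ h => Nat.cast_injective (neg_injective h)]
      simp
    · obtain ⟨n, hn, rfl⟩ := mem_image.1 hm
      exact ⟨n, hn, Or.inr rfl⟩

lemma sub_TVa {e : ℝ} (he : Sg e) {M : ℕ} {S : Finset ℕ} (h : Dy M S) {f : ℝ → ℝ}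
    (hf : ∀ x, 0 ≤ f x) : ∑ n ∈ S, f (e * n) ≤ ∑ m ∈ Ms (2 * M), f m := by
  obtain ⟨T, h1, h2⟩ := img_TVa he S
  rw [h1]
  refine sum_le_sum_of_subset_of_nonneg (fun m hm => ?_) fun _ _ _ => hf _
  obtain ⟨n, hn, h3⟩ := h2 m hm
  have h4 := mem_Ico.1 (h.2 hn)
  have h5 := h.1
  rw [mem_Ms]
  omega

lemma wide_TVa {f : ℝ → ℝ} (h0 : ∀ v, 0 ≤ f v)
    (h : IntervalIntegrable f MeasureTheory.volume (1 / 144) (1 / 144 + 144)) :
    ∫ v in (1 / 12 : ℝ)..12, f v ≤ IW f :=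
  intervalIntegral.integral_mono_interval (by norm_num) (by norm_num) (by norm_num)
    (MeasureTheory.ae_of_all _ h0) h

lemma IW_nonneg_TVa {f : ℝ → ℝ} (h0 : ∀ v, 0 ≤ f v) : 0 ≤ IW f :=
  intervalIntegral.integral_nonneg (by norm_num) fun v _ => h0 v

lemma box_TVa {G : ℝ → ℝ → ℝ} (hG : CQ G) (h0 : ∀ v w, 0 ≤ G v w) :
    ∫ v in (1 / 12 : ℝ)..12, ∫ w in (1 / 12 : ℝ)..12, G v w ≤ IW fun v => IW fun w => G v w :=
  (intervalIntegral.integral_mono_on (by norm_num)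
    (int_z hG (by norm_num) (by norm_num) (by norm_num) (by norm_num))
    (int_z hG (by norm_num) (by norm_num) (by norm_num) (by norm_num)) fun v hv =>
      wide_TVa (h0 v) (int_w hG (lt_of_lt_of_le (by norm_num) hv.1) (by norm_num)
        (by norm_num))).trans
    (wide_TVa (fun v => IW_nonneg_TVa (h0 v))
      (int_z hG (by norm_num) (by norm_num) (by norm_num) (by norm_num)))

lemma Icc_TVa : Set.Icc (1 / 144 : ℝ) (1 / 144 + 144) ⊆ Set.Ioi 0 := fun _ hx =>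
  lt_of_lt_of_le (by norm_num) hx.1

theorem tva_stmt (hM : PhMajStmt) (hP : PairWStmt) (hI : IWStmt) : TVaStmt := by
  obtain ⟨C₁, c₁, hM⟩ := hM
  obtain ⟨C₂, c₂, hP⟩ := hP
  obtain ⟨C₃, c₃, hI⟩ := hI
  refine ⟨C₁ * C₂ * (4 * C₃ ^ 2 + 2 * C₃), by positivity,
    fun N M₁ M₂ S₁ S₂ S₃ e₁ e₂ e₃ Δ g h hN d1 d2 s1 s2 s3 D1 D2 hg hh => ?_⟩
  have cgh : CQ fun v w => g v * h w :=
    CQ.mul (hg.1.comp continuousOn_fst fun _ hx => hx.1)
      (hh.1.comp continuousOn_snd fun _ hx => hx.2)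
  have cR : CQ fun v w => g v * h w *
      ∑ m ∈ Ms (2 * M₁), ∑ m' ∈ Ms (2 * M₂), Ph N ((m : ℝ) * v + (m' : ℝ) * w) :=
    cgh.mul (cq_sum _ fun _ _ => cq_sum _ fun _ _ =>
      ((continuous_Ph N).comp (by fun_prop)).continuousOn)
  have a1 : TV N S₁ S₂ S₃ e₁ e₂ e₃ (fun _ => 1) g h ≤
      ∫ v in (1 / 12 : ℝ)..12, ∫ w in (1 / 12 : ℝ)..12, C₁ * (g v * h w *
        ∑ m ∈ Ms (2 * M₁), ∑ m' ∈ Ms (2 * M₂), Ph N ((m : ℝ) * v + (m' : ℝ) * w)) := by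
    simp only [TV, one_mul]
    refine box_mono (cgh.mul (cq_sum _ fun _ _ => cq_sum _ fun _ _ => cq_sum _ fun _ _ =>
      cq_kp _ _ _ _)) ((cq_const _).mul cR) (by norm_num) (by norm_num) (by norm_num)
      (by norm_num) fun v _ w _ => ?_
    rw [mul_left_comm]
    refine mul_le_mul_of_nonneg_left ?_ (mul_nonneg (hg.2.1 v) (hh.2.1 w))
    obtain ⟨T, h1, -⟩ := img_TVa s3 S₃
    refine le_trans ?_ (mul_le_mul_of_nonneg_left (sub_TVa s1 d1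
      (f := fun x => ∑ m' ∈ Ms (2 * M₂), Ph N (x * v + (m' : ℝ) * w))
      fun x => sum_nonneg fun _ _ => Ph_nonneg _ _) c₁.le)
    rw [mul_sum]
    refine sum_le_sum fun n₁ _ => le_trans ?_ (mul_le_mul_of_nonneg_left (sub_TVa s2 d2
      (f := fun x => Ph N (e₁ * n₁ * v + x * w)) fun x => Ph_nonneg _ _) c₁.le)
    rw [mul_sum]
    refine sum_le_sum fun n₂ _ => ?_
    rw [h1 fun x => kp (N * (e₁ * n₁ * v + e₂ * n₂ * w + x))]
    exact hM N hN _ T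
  simp only [intervalIntegral.integral_const_mul] at a1
  have a2 := (box_TVa cR fun v w => mul_nonneg (mul_nonneg (hg.2.1 v) (hh.2.1 w))
    (sum_nonneg fun _ _ => sum_nonneg fun _ _ => Ph_nonneg _ _)).trans
    (hP N _ _ Δ hN D1 D2 g h (hg.1.mono Icc_TVa) (hh.1.mono Icc_TVa) hg.2.1 hh.2.1)
  have hΔ : 0 ≤ Δ := zero_le_one.trans D1.1
  have g0 := hg.mo_nonneg
  have h0 := hh.mo_nonneg
  have h0' := IW_nonneg_TVa hh.2.1
  have b1 := (hI g hg).1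
  have b2 := (hI h hh).1
  have b3 : √(IW fun v => g v ^ 2) ≤ √C₃ * √(mo fun v => g v ^ 2) := by
    rw [← Real.sqrt_mul c₃.le]
    exact Real.sqrt_le_sqrt (hI _ (hg.pow 2)).1
  have b4 : √(IW fun v => h v ^ 2) ≤ √C₃ * √(mo fun v => h v ^ 2) := by
    rw [← Real.sqrt_mul c₃.le]
    exact Real.sqrt_le_sqrt (hI _ (hh.pow 2)).1
  have b5 : √(((2 * M₁ : ℕ) : ℝ) * (2 * M₂ : ℕ)) = 2 * √((M₁ : ℝ) * M₂) := by
    rw [show ((2 * M₁ : ℕ) : ℝ) * (2 * M₂ : ℕ) = 2 ^ 2 * ((M₁ : ℝ) * M₂) by push_cast; ring,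
      Real.sqrt_mul (by positivity), Real.sqrt_sq zero_le_two]
  have b6 : √C₃ * √C₃ = C₃ := Real.mul_self_sqrt c₃.le
  rw [b5] at a2
  refine a1.trans ?_
  rw [mul_assoc, mul_assoc]
  refine mul_le_mul_of_nonneg_left (a2.trans (mul_le_mul_of_nonneg_left ?_ c₂.le)) c₁.le
  unfold PB4
  generalize √(mo fun v => g v ^ 2) = x at b3 ⊢
  generalize √(mo fun v => h v ^ 2) = y at b4 ⊢
  have x0 : 0 ≤ √C₃ * x := (Real.sqrt_nonneg _).trans b3
  have y0 : 0 ≤ √C₃ * y := (Real.sqrt_nonneg _).trans b4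
  have u0 : 0 ≤ (M₁ : ℝ) * M₂ * mo g * mo h / N := by positivity
  have u1 : 0 ≤ √((M₁ : ℝ) * M₂) * Δ / N * (√C₃ * x) * (√C₃ * y) := by positivity
  have u2 : √((M₁ : ℝ) * M₂) * Δ / N * (√C₃ * x) * (√C₃ * y) =
      C₃ * (√((M₁ : ℝ) * M₂) * Δ * x * y / N) := by
    linear_combination √((M₁ : ℝ) * M₂) * Δ * x * y / N * b6
  calc _ ≤ ((2 * M₁ : ℕ) : ℝ) * (2 * M₂ : ℕ) / N * (C₃ * mo g) * (C₃ * mo h) +
        2 * √((M₁ : ℝ) * M₂) * Δ / N * (√C₃ * x) * (√C₃ * y) := by gcongr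
    _ = 4 * C₃ ^ 2 * ((M₁ : ℝ) * M₂ * mo g * mo h / N) +
        2 * (C₃ * (√((M₁ : ℝ) * M₂) * Δ * x * y / N)) := by
      rw [← u2]
      push_cast
      ring
    _ ≤ _ := by
      rw [u2] at u1
      have u3 := mul_nonneg c₃.le u0
      have u4 := mul_nonneg c₃.le u1
      rw [add_div]
      linarith

lemma one_TVa {N M n : ℕ} (hN : 1 ≤ N) (hM : 1 ≤ M) (hn : M ≤ n) {e : ℝ} (he : Sg e) (a b : ℝ) :
    ∫ w in (1 / 12 : ℝ)..12, kp ((N : ℝ) * (a + e * n * w + b)) ≤ 4 / (N * M) := by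
  have n0 : (0 : ℝ) < n := by exact_mod_cast hM.trans hn
  obtain ⟨k1, k2⟩ := kp_Shear (L := (N : ℝ) * n) (by positivity) (e * (a + b) / n)
  have e1 : ∀ w : ℝ, kp ((N : ℝ) * (a + e * n * w + b)) =
      kp ((N : ℝ) * n * (w + e * (a + b) / n)) := fun w => by
    unfold kp
    rcases he with rfl | rfl <;> field_simp <;> ring
  simp only [e1]
  rw [intervalIntegral.integral_of_le (by norm_num)]
  refine ((MeasureTheory.setIntegral_le_integral k1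
    (MeasureTheory.ae_of_all _ fun w => (kp_pos _).le)).trans k2).trans ?_
  gcongr

theorem tvo_stmt (hI : IWStmt) : TVoStmt := by
  obtain ⟨C, c, hI⟩ := hI
  refine ⟨4 * C, by positivity, fun N M₁ M₂ M₃ S₁ S₂ S₃ e₁ e₂ e₃ h hN d1 d2 d3 s2 hh => ?_⟩
  have N0 : (0 : ℝ) < N := by exact_mod_cast hN
  have M0 : (0 : ℝ) < M₂ := by exact_mod_cast d2.1
  have ik : ∀ a b c : ℝ, Continuous fun w : ℝ => kp ((N : ℝ) * (a + b * w + c)) :=
    fun a b c => continuous_kp.comp (by fun_prop)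
  have a1 : ∀ v : ℝ, ∫ w in (1 / 12 : ℝ)..12, ∑ n₁ ∈ S₁, ∑ n₂ ∈ S₂, ∑ n₃ ∈ S₃,
      kp ((N : ℝ) * (e₁ * n₁ * v + e₂ * n₂ * w + e₃ * n₃)) ≤ 4 * (M₁ * M₃ / N) := fun v => by
    rw [intervalIntegral.integral_finsetSum fun _ _ => (continuous_finsetSum _ fun _ _ =>
      continuous_finsetSum _ fun _ _ => ik _ _ _).intervalIntegrable _ _]
    refine (sum_le_card_nsmul _ _ (S₂.card • S₃.card • (4 / (N * M₂) : ℝ)) fun n₁ _ => ?_).trans ?_
    · rw [intervalIntegral.integral_finsetSum fun _ _ =>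
        (continuous_finsetSum _ fun _ _ => ik _ _ _).intervalIntegrable _ _]
      refine sum_le_card_nsmul _ _ _ fun n₂ h₂ => ?_
      rw [intervalIntegral.integral_finsetSum fun _ _ => (ik _ _ _).intervalIntegrable _ _]
      exact sum_le_card_nsmul _ _ _ fun n₃ _ => one_TVa hN d2.1 (mem_Ico.1 (d2.2 h₂)).1 s2 _ _
    · simp only [nsmul_eq_mul]
      calc _ ≤ (M₁ : ℝ) * (M₂ * (M₃ * (4 / (N * M₂)))) := by
            gcongr
            exacts [d1.card_le, d2.card_le, d3.card_le]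
        _ = _ := by field_simp
  simp only [TV, one_mul, mul_one, intervalIntegral.integral_const_mul]
  refine (mono_Sym (g := fun v => 4 * (M₁ * M₃ / N) * h v) (by norm_num)
    (fun v => mul_nonneg (hh.2.1 v) (intervalIntegral.integral_nonneg (by norm_num) fun w _ =>
      sum_nonneg fun _ _ => sum_nonneg fun _ _ => sum_nonneg fun _ _ => (kp_pos _).le))
    (continuousOn_const.mul (hh.1.mono fun x hx => lt_of_lt_of_le (by norm_num) hx.1))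
    fun v _ => (mul_le_mul_of_nonneg_left (a1 v) (hh.2.1 v)).trans_eq (mul_comm _ _)).trans ?_
  rw [intervalIntegral.integral_const_mul]
  refine (mul_le_mul_of_nonneg_left ((wide_TVa hh.2.1
    ((hh.1.mono Icc_TVa).intervalIntegrable_of_Icc (by norm_num))).trans (hI h hh).1)
    (by positivity)).trans_eq (by ring)

end Pool.Agent.MP_2a1f0e_nt.GM4
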