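import Pool.Agent.MP_2a1f0e_nt.GM4.Basic
set_option autoImplicit false
open Finset
namespace Pool.Agent.MP_2a1f0e_nt.GM4
open GM GM2 GM3

lemma tp_Wt4 {R : ℕ} {J g : ℝ → ℝ} {c : ℤ → ℂ}
    (hJ : ∀ t, (J t : ℂ) = ∑ j ∈ Io R, c j * Complex.exp (Complex.I * j * t)) (hg : Per g) :
    ∃ d : ℤ → ℂ, TP R (fun x =>
      ((∫ t in (-Real.pi)..Real.pi, J t * g (x * Real.exp (-t)) : ℝ) : ℂ)) d := by
  let F : ℤ → ℝ → ℂ := fun j s => Complex.exp (Complex.I * j * s) * (g (Real.exp (-s)) : ℂ)
  have hc : ∀ j, Continuous (F j) := fun j =>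
    (by fun_prop : Continuous fun s : ℝ => Complex.exp (Complex.I * j * s)).mul
      (Complex.continuous_ofReal.comp (hg.cont.comp continuous_neg))
  have hp : ∀ j, Function.Periodic (F j) (2 * Real.pi) := fun j s => by
    have h1 : g (Real.exp (-(s + 2 * Real.pi))) = g (Real.exp (-s)) := by
      have := hg.periodic (-(s + 2 * Real.pi))
      rw [show -(s + 2 * Real.pi) + 2 * Real.pi = -s by ring] at this
      exact this.symm
    have h2 : Complex.I * j * ((s + 2 * Real.pi : ℝ) : ℂ) =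
        Complex.I * j * s + j * (2 * Real.pi * Complex.I) := by
      push_cast
      ring
    simp only [F, h1, h2, Complex.exp_add, Complex.exp_int_mul_two_pi_mul_I, mul_one]
  refine ⟨fun j => c j * ∫ s in (-Real.pi)..Real.pi, F j s, fun x hx => ?_⟩
  have h3 : ∀ t : ℝ, ((J t * g (x * Real.exp (-t)) : ℝ) : ℂ) =
      ∑ j ∈ Io R, c j * pw x j * F j (t + -Real.log x) := by
    intro t
    have h4 : Real.exp (-(t + -Real.log x)) = x * Real.exp (-t) := by
      rw [neg_add, neg_neg, Real.exp_add, Real.exp_log hx, mul_comm]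
    have h5 : ∀ j : ℤ, pw x j * Complex.exp (Complex.I * j * ((t + -Real.log x : ℝ) : ℂ)) =
        Complex.exp (Complex.I * j * t) := fun j => by
      rw [pw, ← Complex.exp_add]
      congr 1
      push_cast
      ring
    rw [Complex.ofReal_mul, hJ, sum_mul]
    refine sum_congr rfl fun j _ => ?_
    simp only [F, h4]
    rw [← h5]
    ring
  beta_reduce
  rw [← intervalIntegral.integral_ofReal]
  simp only [h3]
  rw [intervalIntegral.integral_finsetSum fun j _ =>
    Continuous.intervalIntegrable (by have := hc j; fun_prop) _ _]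
  refine sum_congr rfl fun j _ => ?_
  rw [intervalIntegral.integral_const_mul, shift_per (hp j)]
  ring

lemma tan_Wt4 {J w F : ℝ → ℝ} {C : ℝ} (hJ : Continuous J) (hw : Continuous w) (hF : Continuous F)
    (h0 : ∀ t, 0 ≤ J t) (h1 : ∫ t in (-Real.pi)..Real.pi, J t = 1)
    (h2 : ∫ t in (-Real.pi)..Real.pi, J t * w t ≤ C) (α β : ℝ) {b : ℝ} (hb : 0 ≤ b)
    (h : ∀ t, α + β * F t ≤ b * w t) :
    α + β * ∫ t in (-Real.pi)..Real.pi, J t * F t ≤ b * C := by
  have i1 : Continuous fun t => α * J t := continuous_const.mul hJ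
  have i2 : Continuous fun t => β * (J t * F t) := continuous_const.mul (hJ.mul hF)
  have i3 : Continuous fun t => b * (J t * w t) := continuous_const.mul (hJ.mul hw)
  have h3 : ∫ t in (-Real.pi)..Real.pi, (α * J t + β * (J t * F t)) ≤
      ∫ t in (-Real.pi)..Real.pi, b * (J t * w t) :=
    intervalIntegral.integral_mono_on neg_pi_le ((i1.add i2).intervalIntegrable _ _)
      (i3.intervalIntegrable _ _) fun t _ => by
        have := mul_le_mul_of_nonneg_left (h t) (h0 t)
        linarith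
  rw [intervalIntegral.integral_add (i1.intervalIntegrable _ _) (i2.intervalIntegrable _ _),
    intervalIntegral.integral_const_mul, intervalIntegral.integral_const_mul,
    intervalIntegral.integral_const_mul, h1, mul_one] at h3
  exact h3.trans (mul_le_mul_of_nonneg_left h2 hb)

lemma inv_Wt4 {p q : ℝ} (hp : 0 < p) (hq : 0 < q) : 3 / p ^ 2 + -2 / p ^ 3 * q ≤ 1 / q ^ 2 := by
  have : 1 / q ^ 2 - (3 / p ^ 2 + -2 / p ^ 3 * q) = (p - q) ^ 2 * (p + 2 * q) / (p ^ 3 * q ^ 2) := by
    field_simp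
    ring
  rw [← sub_nonneg, this]
  positivity

theorem wt_stmt (hJ : JackStmt) (hR : RepStmt) (hM : ModStmt) (hC : CvStmt) (hH : HtpStmt) :
    WtStmt := by
  obtain ⟨CJ, hCJ, hJ⟩ := hJ
  obtain ⟨CR, hCR, hR⟩ := hR
  obtain ⟨CC, -, hC⟩ := hC
  have hp := mul_pos hCR hCJ
  refine ⟨1 + 2 * (CR * CJ) + 2 * CJ, by linarith, fun L ν S H hL hS' hH0 => ?_⟩
  obtain ⟨J, c, j1, j2, j3, j4⟩ := hJ (2 * L) (by omega)
  obtain ⟨p1, ⟨c', p2⟩, -⟩ := hH L ν S hS'
  set h := hS L ν S with hh
  set k := cv (2 * L) h with hk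
  have p3 : Per k := (hC (2 * L) h p1).1
  have cJ : Continuous J := by
    have : J = fun t : ℝ => (∑ j ∈ Io (2 * (2 * L)), c j * Complex.exp (Complex.I * j * t)).re :=
      funext fun t => by rw [← j1, Complex.ofReal_re]
    rw [this]
    fun_prop
  set w : ℝ → ℝ := fun t => 1 + ((2 * L : ℕ) : ℝ) ^ 2 * ch t with hw
  have cw : Continuous w := continuous_const.add (continuous_const.mul continuous_ch)
  have w0 : ∀ t, 0 ≤ w t := fun t => by
    have := ch_nonneg t
    positivity
  let q : ℝ → ℝ := fun v => √(H / (H + |k v|))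
  have pq : Per q := p3.comp (F := fun s => √(H / (H + |s|)))
    ((continuous_const.div (continuous_const.add continuous_abs) fun s =>
      (add_pos_of_pos_of_nonneg hH0 (abs_nonneg s)).ne').sqrt)
    fun _ _ => Real.sqrt_nonneg _
  have q0 : ∀ v, 0 < q v := fun v => Real.sqrt_pos.2 (by positivity)
  have q2 : ∀ v, q v ^ 2 = H / (H + k v) := fun v => by
    rw [Real.sq_sqrt (by positivity), abs_of_nonneg (p3.2.1 v)]
  have q1 : ∀ v, q v ≤ 1 := fun v =>
    Real.sqrt_le_one.2 ((div_le_one (by positivity)).2 (le_add_of_nonneg_right (abs_nonneg _)))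
  have m2 : ∀ x, 0 < x → ∀ t, k (x * Real.exp (-t)) ≤ 2 * w t * k x := fun x hx t => by
    have := hM (2 * L) h p1 (x * Real.exp (-t)) (mul_pos hx (Real.exp_pos _)) (-t)
    rwa [ch_neg, mul_assoc x, ← Real.exp_add, neg_neg, neg_add_cancel, Real.exp_zero,
      mul_one] at this
  have T := fun x (hx : 0 < x) => tan_Wt4 cJ cw (pq.cont_mul hx) j2 j3 j4
  have pos : ∀ x, 0 < x → 0 < ∫ t in (-Real.pi)..Real.pi, J t * q (x * Real.exp (-t)) := by
    intro x hx
    have k0 := p3.2.1 x
    have h1 := T x hx (H / (H + 2 * (1 + ((2 * L : ℕ) : ℝ) ^ 2 * 4) * k x)) (-1) le_rfl fun t => by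
      have a1 : ch t ≤ 4 := by
        unfold ch
        linarith [Real.neg_one_le_cos t]
      have a2 : k (x * Real.exp (-t)) ≤ 2 * (1 + ((2 * L : ℕ) : ℝ) ^ 2 * 4) * k x := by
        refine (m2 x hx t).trans ?_
        simp only [hw]
        gcongr
      have a3 := p3.2.1 (x * Real.exp (-t))
      have a4 : H / (H + 2 * (1 + ((2 * L : ℕ) : ℝ) ^ 2 * 4) * k x) ≤
          q (x * Real.exp (-t)) ^ 2 := by
        rw [q2]
        gcongr
      have a5 := pow_le_of_le_one (q0 (x * Real.exp (-t))).le (q1 _) two_ne_zero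
      linarith
    have h2 : 0 < H / (H + 2 * (1 + ((2 * L : ℕ) : ℝ) ^ 2 * 4) * k x) := by positivity
    linarith
  refine ⟨fun x => ∫ t in (-Real.pi)..Real.pi, J t * q (x * Real.exp (-t)),
    ⟨?_, fun x hx => ⟨pos x hx, ?_, ?_⟩⟩, fun x hx => ?_⟩
  · rw [show 4 * L = 2 * (2 * L) by ring]
    exact tp_Wt4 j1 pq
  · have := T x hx (-1) 1 le_rfl fun t => by linarith [q1 (x * Real.exp (-t))]
    linarith
  · beta_reduce
    set p := ∫ t in (-Real.pi)..Real.pi, J t * q (x * Real.exp (-t)) with hp'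
    have h0 := p1.2.1 x
    have := T x hx (-(p ^ 2 * h x)) (2 * p * h x) (b := 2 * CR * H) (by positivity) fun t => by
      have a1 : h x ≤ CR * (2 * w t * k (x * Real.exp (-t))) :=
        (hR (2 * L) (by omega) h c' p2 p1.2.1 x hx).trans
          (mul_le_mul_of_nonneg_left (hM (2 * L) h p1 x hx t) hCR.le)
      have a3 := p3.2.1 (x * Real.exp (-t))
      have a2 : q (x * Real.exp (-t)) ^ 2 * k (x * Real.exp (-t)) ≤ H := by
        rw [q2, div_mul_eq_mul_div, div_le_iff₀ (by positivity)]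
        nlinarith
      have a4 := mul_le_mul_of_nonneg_left a1 (sq_nonneg (q (x * Real.exp (-t))))
      have a5 := mul_le_mul_of_nonneg_left a2 (mul_nonneg hCR.le (w0 t))
      have a6 := mul_nonneg (sq_nonneg (q (x * Real.exp (-t)) - p)) h0
      linarith
    rw [← hp'] at this
    have a7 := mul_pos hCJ hH0
    linarith
  · beta_reduce
    have p0 := pos x hx
    set p := ∫ t in (-Real.pi)..Real.pi, J t * q (x * Real.exp (-t)) with hp'
    have k0 := p3.2.1 x
    have := T x hx (3 / p ^ 2 - 1) (-2 / p ^ 3) (b := 2 * (k x / H)) (by positivity) fun t => by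
      have a1 := inv_Wt4 p0 (q0 (x * Real.exp (-t)))
      rw [q2, one_div_div, add_div, div_self hH0.ne'] at a1
      have a2 := div_le_div_of_nonneg_right (m2 x hx t) hH0.le
      have a3 : 2 * w t * k x / H = 2 * (k x / H) * w t := by ring
      linarith
    rw [← hp'] at this
    have a4 : 3 / p ^ 2 - 1 + -2 / p ^ 3 * p = 1 / p ^ 2 - 1 := by
      field_simp
      ring
    have a5 : 0 ≤ k x / H := by positivity
    have a6 := mul_nonneg hp.le a5
    linarith

end Pool.Agent.MP_2a1f0e_nt.GM4
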