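import Pool.Agent.MP_2a1f0e_nt.GM3.Main
import Pool.Agent.MP_2a1f0e_nt.DH.MainLV
import Pool.Agent.MP_2a1f0e_nt.GM4.BB4
import Pool.Agent.MP_2a1f0e_nt.GM4.BFive
import Pool.Agent.MP_2a1f0e_nt.GM4.Blk4
import Pool.Agent.MP_2a1f0e_nt.GM4.Chg
import Pool.Agent.MP_2a1f0e_nt.GM4.Dat
import Pool.Agent.MP_2a1f0e_nt.GM4.EEp
import Pool.Agent.MP_2a1f0e_nt.GM4.Exp4
import Pool.Agent.MP_2a1f0e_nt.GM4.Far4
import Pool.Agent.MP_2a1f0e_nt.GM4.Gam4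
import Pool.Agent.MP_2a1f0e_nt.GM4.GY4
import Pool.Agent.MP_2a1f0e_nt.GM4.Htp
import Pool.Agent.MP_2a1f0e_nt.GM4.I4
import Pool.Agent.MP_2a1f0e_nt.GM4.Int4
import Pool.Agent.MP_2a1f0e_nt.GM4.IWs
import Pool.Agent.MP_2a1f0e_nt.GM4.J0
import Pool.Agent.MP_2a1f0e_nt.GM4.J4
import Pool.Agent.MP_2a1f0e_nt.GM4.Jack
import Pool.Agent.MP_2a1f0e_nt.GM4.Jut4
import Pool.Agent.MP_2a1f0e_nt.GM4.Mod
import Pool.Agent.MP_2a1f0e_nt.GM4.Num4
import Pool.Agent.MP_2a1f0e_nt.GM4.Osc4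
import Pool.Agent.MP_2a1f0e_nt.GM4.PairW
import Pool.Agent.MP_2a1f0e_nt.GM4.Q5
import Pool.Agent.MP_2a1f0e_nt.GM4.Rep
import Pool.Agent.MP_2a1f0e_nt.GM4.Shp
import Pool.Agent.MP_2a1f0e_nt.GM4.TVa
import Pool.Agent.MP_2a1f0e_nt.GM4.TVb
import Pool.Agent.MP_2a1f0e_nt.GM4.Wt4

set_option autoImplicit false

namespace Pool.Agent.MP_2a1f0e_nt.GM4

open GM GM2 GM3

theorem pairW_all : PairWStmt := pairW_stmt phExp_stmt besW_stmt div_stmt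

theorem bp_all : BPStmt :=
  bp_stmt chg_stmt swp_stmt (tva_stmt phMaj_stmt pairW_all iw_stmt)
    (tvb_stmt phMaj_stmt pairW_all iw_stmt) (tvo_stmt iw_stmt)

theorem wt_all : WtStmt := wt_stmt jack_stmt rep_stmt mod_stmt cv4_stmt htp_stmt

theorem blk4_all : Blk4Stmt :=
  blk4_stmt (red_stmt key2_stmt (rexp_stmt fou_stmt) psi_stmt) wt_all cs_stmt
    (j4_stmt (j0_stmt shear_stmt cv_stmt) bp_all cv4_stmt htp_stmt mo_stmt)
    (i4_stmt shear_stmt exp4_stmt (gy4_stmt tpm_stmt tpp_stmt eep_stmt mo_stmt))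
    (shp_stmt bp_all mo_stmt) cv4_stmt

theorem q5_all : Q5Stmt := q5_stmt part_stmt blk4_all

theorem osc4_all : Osc4Stmt := osc4_stmt decay_stmt zero_stmt (pois_stmt decay_stmt) ksup_all

theorem bb4_all : BB4Stmt :=
  bb4_stmt bil_stmt gl4_stmt (gam4_stmt vdc_all) kk_all3 (near4_stmt osc_all kk_all3)
    (mid3_stmt mom_stmt) (far4_stmt mom_stmt)

theorem q6_all : Q6Stmt := q6_stmt q5_all (dat_stmt rho_all) bb4_all g4_stmt

theorem b5_all : B5Stmt :=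
  b5_stmt setup_all hux_stmt cub_stmt q6_all pt_all ptW_stmt
    (set4_stmt osc4_all (jut4_stmt DH.pos_stmt DH.jut_all)) num4_stmt b1_all

theorem int4_all : Int4Stmt := int4_stmt b5_all b2_all blk_stmt

theorem final4_all : Final4Stmt := final4_stmt int4_all tay_stmt

end Pool.Agent.MP_2a1f0e_nt.GM4
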