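import Pool.Agent.MP_2a1f0e_nt.GM4.Basic
import Pool.Agent.MP_2a1f0e_nt.GM3.Osc
import Pool.Agent.MP_2a1f0e_nt.GM3.Near3

set_option autoImplicit false

open Finset

namespace Pool.Agent.MP_2a1f0e_nt.GM4

open GM GM2 GM3

lemma pt_Osc4 {M r q w : ℝ} {m : ℤ} {j : ℕ} (hM : 1 ≤ M) (hw : 0 < w) (hr0 : 0 ≤ r)
    (hr : r ≤ 2 * q) (hj : q ≤ w ^ j) (hm0 : m ≠ 0) (hm : q * w ^ 2 ≤ |(m : ℝ)| * M) :
    M * (r / |(m : ℝ) * M|) ^ (j + 2) ≤ 8 * 2 ^ j * kp (m : ℝ) := by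
  have hM0 : 0 < M := by linarith
  have h1 : (1 : ℝ) ≤ |(m : ℝ)| := by exact_mod_cast Int.one_le_abs hm0
  rw [abs_mul, abs_of_pos hM0, kp, ← sq_abs (m : ℝ)]
  generalize |(m : ℝ)| = a at h1 hm
  have ha : 0 < a * M := by positivity
  have h2 : r / (a * M) * (a * M) ≤ 2 * w ^ j := by
    rw [div_mul_cancel₀ _ ha.ne']
    linarith
  have h3 : r / (a * M) * w ^ 2 ≤ 2 := by
    rw [div_mul_eq_mul_div, div_le_iff₀ ha]
    calc r * w ^ 2 ≤ 2 * q * w ^ 2 := by gcongr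
      _ = 2 * (q * w ^ 2) := by ring
      _ ≤ _ := by linarith
  have h0 : 0 ≤ r / (a * M) := by positivity
  generalize r / (a * M) = x at h0 h2 h3
  have h4 : (x * w ^ 2) ^ j ≤ 2 ^ j := pow_le_pow_left₀ (by positivity) h3 j
  have h5 : (x * (a * M)) ^ 2 ≤ (2 * w ^ j) ^ 2 := pow_le_pow_left₀ (by positivity) h2 2
  have h7 : x ^ (j + 2) * (a * M) ^ 2 ≤ 4 * 2 ^ j :=
    calc x ^ (j + 2) * (a * M) ^ 2 = x ^ j * (x * (a * M)) ^ 2 := by ring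
      _ ≤ x ^ j * (2 * w ^ j) ^ 2 := mul_le_mul_of_nonneg_left h5 (by positivity)
      _ = 4 * (x * w ^ 2) ^ j := by ring
      _ ≤ _ := by linarith
  have h8 : 0 ≤ x ^ (j + 2) := by positivity
  rw [mul_one_div, le_div_iff₀ (by positivity)]
  generalize x ^ (j + 2) = y at h7 h8
  have h9 : 1 ≤ a ^ 2 := one_le_pow₀ h1
  calc M * y * (1 + a ^ 2) ≤ M * M * y * (2 * a ^ 2) := by
        refine mul_le_mul (mul_le_mul_of_nonneg_right ?_ h8) (by linarith) (by positivity)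
          (by positivity)
        exact le_mul_of_one_le_right hM0.le hM
    _ = 2 * (y * (a * M) ^ 2) := by ring
    _ ≤ _ := by linarith

theorem osc4_stmt (hD : DecayStmt) (hZ : ZeroStmt) (hP : PoisStmt) (hK : KsupStmt) :
    Osc4Stmt := by
  intro δ hδ
  obtain ⟨j, hj⟩ := exists_nat_ge (8 / δ)
  rw [div_le_iff₀ hδ] at hj
  obtain ⟨C, hC, hd⟩ := hD (j + 2)
  obtain ⟨C0, hC0, hz⟩ := hZ
  obtain ⟨CK, hCK, hK⟩ := hK
  have hB : (0 : ℝ) < C * (8 * 2 ^ j) := by positivity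
  refine ⟨C0 + 6 * (C * (8 * 2 ^ j)) + CK + 1, by linarith, fun y hy M hM u hu => ?_⟩
  have hy0 : 0 < y := by linarith
  have hw : 1 ≤ y ^ δ := Real.one_le_rpow hy hδ.le
  have hw8 : y ^ 8 ≤ (y ^ δ) ^ j := by
    rw [← Real.rpow_natCast, ← Real.rpow_natCast, ← Real.rpow_mul hy0.le]
    refine Real.rpow_le_rpow_of_exponent_le hy ?_
    rw [mul_comm]
    exact_mod_cast hj
  generalize y ^ δ = w at hw hw8
  have hM1 : (1 : ℝ) ≤ M := by exact_mod_cast hM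
  have hM0 : (0 : ℝ) < M := by linarith
  have hk : 0 ≤ M * kp (u : ℝ) := mul_nonneg hM0.le (kp_pos _).le
  have hn : ∀ ξ : ℝ, ‖(M : ℂ) * pw (M : ℝ) u * HH u ξ‖ = M * ‖HH u ξ‖ := fun ξ => by
    rw [norm_mul, norm_mul, norm_pw, mul_one, Complex.norm_natCast]
  have y4 : 1 ≤ y ^ 4 := one_le_pow₀ hy
  have y8 : 1 ≤ y ^ 8 := one_le_pow₀ hy
  have hq : 0 ≤ y ^ 8 * w ^ 2 / M := by positivity
  have key := tail_KOne (hP M hM u) (Ms ⌊y ^ 8 * w ^ 2 / M⌋₊) (A := C0 * (M * kp (u : ℝ)))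
    (B := C * (8 * 2 ^ j)) (by positivity) (by positivity)
    (by
      rw [hn, Int.cast_zero, zero_mul, mul_left_comm]
      exact mul_le_mul_of_nonneg_left (hz _) hM0.le)
    fun m hm0 hm => by
      have h1 : ((⌊y ^ 8 * w ^ 2 / M⌋₊ : ℕ) : ℝ) + 1 ≤ |(m : ℝ)| := by
        have h1 : ((⌊y ^ 8 * w ^ 2 / M⌋₊ : ℕ) : ℤ) + 1 ≤ |m| := by
          rw [mem_Ms] at hm
          rw [le_abs]
          omega
        exact_mod_cast h1
      have h2 : y ^ 8 * w ^ 2 ≤ |(m : ℝ)| * M :=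
        (div_le_iff₀ hM0).1 ((Nat.lt_floor_add_one _).le.trans h1)
      rw [hn]
      refine (mul_le_mul_of_nonneg_left
        (hd _ _ (mul_ne_zero (Int.cast_ne_zero.2 hm0) hM0.ne')) hM0.le).trans ?_
      rw [mul_left_comm, mul_assoc C]
      exact mul_le_mul_of_nonneg_left (pt_Osc4 hM1 (by linarith) (by positivity)
        (by linarith) hw8 hm0 h2) hC.le
  rw [← mul_sum] at key
  have h3 : ‖Kb M ⌊y ^ 8 * w ^ 2 / M⌋₊ (u : ℝ)‖ ≤ (CK + 1) * (y ^ 4 * w) := by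
    refine (pow_le_pow_iff_left₀ (norm_nonneg _) (by positivity) two_ne_zero).1
      ((hK M _ hM u).trans ?_)
    have h6 : (M : ℝ) * (⌊y ^ 8 * w ^ 2 / M⌋₊ : ℕ) ≤ y ^ 8 * w ^ 2 := by
      rw [mul_comm]
      exact (le_div_iff₀ hM0).1 (Nat.floor_le hq)
    calc CK * ((M : ℝ) * (⌊y ^ 8 * w ^ 2 / M⌋₊ : ℕ)) ≤ (CK + 1) ^ 2 * (y ^ 8 * w ^ 2) :=
          mul_le_mul (by nlinarith) h6 (by positivity) (by positivity)
      _ = _ := by ring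
  have h4 := norm_le_insert' (KK M (u : ℝ)) (Kb M ⌊y ^ 8 * w ^ 2 / M⌋₊ (u : ℝ))
  have h5 : ‖KK M (u : ℝ) - Kb M ⌊y ^ 8 * w ^ 2 / M⌋₊ (u : ℝ)‖ ≤
      C0 * (M * kp (u : ℝ)) + 6 * (C * (8 * 2 ^ j)) := key
  generalize C * (8 * 2 ^ j) = B at hB h5 ⊢
  generalize (M : ℝ) * kp (u : ℝ) = k at hk h5 ⊢
  have e1 : k ≤ w * k := le_mul_of_one_le_left hk hw
  have e2 : 1 ≤ y ^ 4 * w := one_le_mul_of_one_le_of_one_le y4 hw
  have e3 : (C0 + 6 * B + CK + 1) * w * (k + y ^ 4) =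
      (C0 + 6 * B + CK + 1) * (w * k) + (C0 + 6 * B + CK + 1) * (y ^ 4 * w) := by ring
  rw [e3]
  generalize y ^ 4 * w = t at e2 h3 ⊢
  generalize w * k = k' at e1 ⊢
  have e4 : C0 * k ≤ (C0 + 6 * B + CK + 1) * k' :=
    mul_le_mul (by linarith) e1 hk (by positivity)
  nlinarith [mul_le_mul_of_nonneg_left e2 hB.le, mul_nonneg hC0.le (zero_le_one.trans e2)]

lemma key_Osc4 {y Δ C : ℝ} (hC : 2 ≤ C) (hΔ : 1 ≤ Δ) (h : OscB y Δ) {M : ℕ} (hM : 1 ≤ M) {u : ℤ}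
    (hu : |(u : ℝ)| < y ^ 8) (hP : ¬ Pk (C * Δ) M u) : ‖KK M (u : ℝ)‖ ≤ 2 * Δ * y ^ 4 := by
  have h1 := h M hM u hu.le
  have hk : 0 ≤ M * kp u := mul_nonneg (Nat.cast_nonneg M) (kp_pos _).le
  rw [Pk, not_le] at hP
  have h2 := mul_le_mul_of_nonneg_right hC (mul_nonneg (zero_le_one.trans hΔ) hk)
  nlinarith

theorem near4_stmt (hO : OscStmt) (hK : KKStmt) : Near4Stmt := by
  obtain ⟨C, hC, h⟩ := hO
  obtain ⟨_, -, hk⟩ := hK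
  refine ⟨12288 * C, by linarith, fun y Δ hy hΔ ho M₁ M₂ m1 n1 m2 n2 ρ₁ ρ₂ hlt => ?_⟩
  have c2 : 2 * C ≤ 12288 * C * Δ := by nlinarith
  have key : ∀ M : ℕ, 1 ≤ M → ∀ u : ℤ, |(u : ℝ)| < y ^ 5 → ¬ Pk (12288 * C * Δ) M u →
      ‖KK M (u : ℝ)‖ ≤ 4096 * C * y ^ 3 := fun M hM u hu hP => by
    obtain ⟨s, hs, rfl⟩ : ∃ s : ℝ, 1 ≤ s ∧ y = s ^ 4 :=
      ⟨y ^ ((4 : ℕ) : ℝ)⁻¹, Real.one_le_rpow hy (by positivity),
        (Real.rpow_inv_natCast_pow (by linarith) (by norm_num)).symm⟩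
    simp only [← pow_mul] at hu ⊢
    exact (key_Near3 c2 hs 1 (h M hM u) hu hP).trans
      (mul_le_mul_of_nonneg_left (pow_le_pow_right₀ hs (by norm_num)) (by positivity))
  have t1 : ‖KK M₁ (-(ρ₁ : ℝ))‖ ≤ 3 * y ^ 5 := by linarith [(hk M₁ m1 (-(ρ₁ : ℝ))).2]
  have t2 : ‖KK M₂ ρ₂‖ ≤ 3 * y ^ 5 := by linarith [(hk M₂ m2 ρ₂).2]
  have y0 : 0 < y := by linarith
  have d2 : 1 ≤ Δ ^ 2 := one_le_pow₀ hΔ
  have e3 : 3 * y ^ 5 * (4096 * C * y ^ 3) ≤ 12288 * C * Δ ^ 2 * y ^ 8 :=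
    calc _ = 12288 * C * 1 * y ^ 8 := by ring
      _ ≤ _ := by gcongr
  by_contra hn
  simp only [not_or, not_le, max_lt_iff, not_and] at hn
  obtain ⟨h1, h2, h3, h4, h5⟩ := hn
  refine absurd hlt (not_lt.2 ?_)
  by_cases p1 : Pk (12288 * C * Δ) M₁ (-(ρ₁ : ℝ))
  · exact (mul_le_mul t1 (key M₂ m2 ρ₂ (h2 p1) (h1 p1)) (norm_nonneg _) (by positivity)).trans e3
  by_cases p2 : Pk (12288 * C * Δ) M₂ ρ₂
  · have := key M₁ m1 (-ρ₁) (by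
      rw [Int.cast_neg, abs_neg]
      exact not_le.1 fun h => h3 h p2) (by rwa [Int.cast_neg])
    rw [Int.cast_neg] at this
    rw [mul_comm]
    exact (mul_le_mul t2 this (norm_nonneg _) (by positivity)).trans e3
  · have := key_Osc4 (C := 12288 * C) (by linarith) hΔ ho m1 (u := -ρ₁)
      (by rwa [Int.cast_neg, abs_neg]) (by rwa [Int.cast_neg])
    rw [Int.cast_neg] at this
    refine (mul_le_mul this (key_Osc4 (by linarith) hΔ ho m2 h5 p2) (norm_nonneg _)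
      (by positivity)).trans ?_
    calc _ = 4 * Δ ^ 2 * y ^ 8 := by ring
      _ ≤ _ := by
        gcongr
        linarith

end Pool.Agent.MP_2a1f0e_nt.GM4
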